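import Pool.Agent.Y190.BV.Lang

/-!
The special sets depend only on the zero set.
-/

set_option autoImplicit false

open FF Pool.Agent.W603.LV Pool.Agent.W602.GT

namespace Pool.Agent.Y190.BV

variable {k : Type} [Field k] {N : ℕ} {n m : ℕ} {ι ι' : Type}

/-- The vectors whose `m`-th powers are the values of a polynomial of degree at most `n` at the
given constants. -/
def PowVal (a : Fin (N + 1) → k) (n m : ℕ) : Set (Fin (N + 1) → k) :=
  {x | x ≠ 0 ∧ ∃ H : Polynomial k, H.natDegree ≤ n ∧ ∀ i, x i ^ m = H.eval (a i)}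

theorem cone_buchi {a : Fin (N + 1) → k} (ha : Function.Injective a) (hn : n ≤ N) :
    Cone (buchi a n m) = PowVal a n m := by
  ext x
  constructor
  · rintro ⟨hx0, hx⟩
    refine ⟨hx0, intp a hn (fun i => x i ^ m), intp_natDegree ha hn _, fun i => ?_⟩
    have h1 := intp_eval ha hn m hx i
    rw [← h1]
    rfl
  · rintro ⟨hx0, H, hH, hx⟩
    exact ⟨hx0, fun l => mem_of_poly a n m x H hH (fun i => (hx i).symm) l⟩

theorem mem_of_cone [IsAlgClosed k] {F : ι → MvPolynomial (Fin (N + 1)) k}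
    {F' : ι' → MvPolynomial (Fin (N + 1)) k} (hsub : Cone F ⊆ Cone F') {K : Type} [Field K]
    [Algebra k K] {y : Fin (N + 1) → K} (hy0 : y ≠ 0) (hy : ∀ e, val y (F e) = 0) (e : ι') :
    val y (F' e) = 0 := by
  by_contra hne
  obtain ⟨i, hi⟩ := Function.ne_iff.1 hy0
  have hH : MvPolynomial.aeval y (F' e * MvPolynomial.X i) ≠ 0 := by
    rw [map_mul, MvPolynomial.aeval_X]
    exact mul_ne_zero hne hi
  obtain ⟨x, hx, hx0⟩ := specialise y _ hH
  rw [map_mul, MvPolynomial.aeval_X] at hx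
  have h1 := left_ne_zero_of_mul hx
  have h2 := right_ne_zero_of_mul hx
  have h3 : x ∈ Cone F := ⟨fun h => h2 (congrFun h i), fun e => hx0 _ (hy e)⟩
  exact h1 ((hsub h3).2 e)

theorem spAlg_mono [IsAlgClosed k] {F : ι → MvPolynomial (Fin (N + 1)) k}
    {F' : ι' → MvPolynomial (Fin (N + 1)) k} (h : Cone F ⊆ Cone F') : SpAlg F ⊆ SpAlg F' := by
  rintro x ⟨hx, hG⟩
  refine ⟨h hx, fun G hGf hall => hG G hGf ?_⟩
  intro K _ _ w y hw hy hgt
  exact hall K w y hw ⟨hy.ne, mem_of_cone h hy.ne hy.mem, hy.gen, hy.dim⟩ hgt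

theorem line_mono {F : ι → MvPolynomial (Fin (N + 1)) k}
    {F' : ι' → MvPolynomial (Fin (N + 1)) k} (hF' : ∀ e, IsForm (F' e)) (h : Cone F ⊆ Cone F')
    {a b : Fin (N + 1) → k} (hab : Line F a b) : Line F' a b := by
  have ha0 : a ≠ 0 := by
    intro h0
    have := hab.1.ne_zero 0
    exact this (by simpa using h0)
  have hmem : ∀ x : Fin (N + 1) → k, x ≠ 0 → (∀ i, val x (F i) = 0) → ∀ i, val x (F' i) = 0 :=
    fun x hx hxF => (h ⟨hx, hxF⟩).2
  refine ⟨hab.1, fun c c' e => ?_⟩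
  by_cases h0 : c • a + c' • b = 0
  · rw [h0]
    refine val_zero_of (hF' e) (hmem a ha0 (fun i => ?_) e)
    have := hab.2 1 0 i
    simpa using this
  · exact hmem _ h0 (hab.2 c c') e

theorem spLine_mono {F : ι → MvPolynomial (Fin (N + 1)) k}
    {F' : ι' → MvPolynomial (Fin (N + 1)) k} (hF' : ∀ e, IsForm (F' e)) (h : Cone F ⊆ Cone F') :
    SpLine F ⊆ SpLine F' := by
  rintro x ⟨hx, hG⟩
  exact ⟨h hx, fun G hGf hall => hG G hGf fun a b hab => hall a b (line_mono hF' h hab)⟩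

theorem spGm_mono {F : ι → MvPolynomial (Fin (N + 1)) k}
    {F' : ι' → MvPolynomial (Fin (N + 1)) k} (h : Cone F ⊆ Cone F') : SpGm F ⊆ SpGm F' := by
  rintro x ⟨hx, hG⟩
  refine ⟨h hx, fun G hGf hall => hG G hGf fun P hP => hall P ⟨hP.ne, fun t ht => ?_, hP.nonconst⟩⟩
  exact (h ⟨hP.ne t ht, hP.mem t ht⟩).2

variable [IsAlgClosed k] [CharZero k]

/-- The special sets of the variety. -/
theorem special_all (hm : 2 ≤ m) (hN : 4 * n + (n + 1) ^ 2 < 2 * (N + 1))
    {a : Fin (N + 1) → k} (ha : Function.Injective a) {F : ι → MvPolynomial (Fin (N + 1)) k}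
    (hF : ∀ e, IsForm (F e)) (hX : Cone F = PowVal a n m) :
    SpAlg F = SpLine F ∧ SpGm F = SpLine F := by
  have hn : n ≤ N := by nlinarith
  have h1 : Cone F = Cone (buchi a n m) := by rw [hX, cone_buchi ha hn]
  have hF' := isForm_buchi a n m
  obtain ⟨h2, h3⟩ := special_buchi hm hN ha
  have e1 : SpAlg F = SpAlg (buchi a n m) :=
    Set.Subset.antisymm (spAlg_mono h1.subset) (spAlg_mono h1.symm.subset)
  have e2 : SpLine F = SpLine (buchi a n m) :=
    Set.Subset.antisymm (spLine_mono hF' h1.subset) (spLine_mono hF h1.symm.subset)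
  have e3 : SpGm F = SpGm (buchi a n m) :=
    Set.Subset.antisymm (spGm_mono h1.subset) (spGm_mono h1.symm.subset)
  rw [e1, e2, e3]
  exact ⟨h2, h3⟩

end Pool.Agent.Y190.BV
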