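import Pool.Agent.Y190.BV.Cont

/-!
Polynomials over a function field, possibly with multiple roots, whose values at constants are
`m`-th powers.
-/

set_option autoImplicit false

open FF Pool.Agent.W603.LV Pool.Agent.W602.GT Polynomial

namespace Pool.Agent.Y190.BV

section factor

variable {K : Type} [Field K]

theorem factor {H : K[X]} (hH : H ≠ 0) : ∃ (T : Finset K[X]) (e : K[X] → ℕ) (u : K), u ≠ 0 ∧
    (∀ p ∈ T, Irreducible p ∧ p.Monic ∧ p ∣ H ∧ 1 ≤ e p ∧ p ^ (e p) ∣ H) ∧
    H = C u * ∏ p ∈ T, p ^ (e p) ∧ (∀ p, Irreducible p → p.Monic → p ∣ H → p ∈ T) := by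
  classical
  have h1 := UniqueFactorizationMonoid.prod_normalizedFactors_eq hH
  refine ⟨(UniqueFactorizationMonoid.normalizedFactors H).toFinset,
    fun p => (UniqueFactorizationMonoid.normalizedFactors H).count p, H.leadingCoeff,
    Polynomial.leadingCoeff_ne_zero.2 hH, ?_, ?_, ?_⟩
  · intro p hp
    rw [Multiset.mem_toFinset] at hp
    have h2 := UniqueFactorizationMonoid.irreducible_of_normalized_factor p hp
    refine ⟨h2, ?_, UniqueFactorizationMonoid.dvd_of_mem_normalizedFactors hp,
      Multiset.one_le_count_iff_mem.2 hp, ?_⟩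
    · rw [← Polynomial.normalize_eq_self_iff_monic h2.ne_zero]
      exact UniqueFactorizationMonoid.normalize_normalized_factor p hp
    · have h3 : Multiset.replicate
          ((UniqueFactorizationMonoid.normalizedFactors H).count p) p ≤
          UniqueFactorizationMonoid.normalizedFactors H := Multiset.le_count_iff_replicate_le.1
            le_rfl
      have h4 := Multiset.prod_dvd_prod_of_le h3
      rw [Multiset.prod_replicate, h1] at h4
      exact h4.trans (normalize_associated H).dvd
  · rw [← Finset.prod_multiset_count, h1]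
    rw [_root_.normalize_apply, Polynomial.coe_normUnit_of_ne_zero hH]
    have h3 : H.leadingCoeff ≠ 0 := Polynomial.leadingCoeff_ne_zero.2 hH
    rw [mul_comm H, ← mul_assoc, ← Polynomial.C_mul, mul_inv_cancel₀ h3, Polynomial.C_1, one_mul]
  · intro p hp hpm hpd
    rw [Multiset.mem_toFinset, UniqueFactorizationMonoid.mem_normalizedFactors_iff' hH]
    exact ⟨hp, hpm.normalize_eq_self, hpd⟩

theorem eq_X_sub_C {p : K[X]} (hp : Irreducible p) (hm : p.Monic) {y : K} (h : p.eval y = 0) :
    p = X - C y := by
  have h1 : X - C y ∣ p := Polynomial.dvd_iff_isRoot.2 h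
  have h2 : Associated (X - C y) p :=
    (Polynomial.irreducible_X_sub_C y).associated_of_dvd hp h1
  exact (Polynomial.eq_of_monic_of_associated (Polynomial.monic_X_sub_C y) hm h2).symm

theorem coprime_of_ne {p r : K[X]} (hp : Irreducible p) (hr : Irreducible r) (hpm : p.Monic)
    (hrm : r.Monic) (h : p ≠ r) : IsCoprime p r := by
  rcases (dvd_or_isCoprime p r hp).symm with h1 | h1
  · exact h1
  · exfalso
    exact h (Polynomial.eq_of_monic_of_associated hpm hrm (hp.associated_of_dvd hr h1))

end factor

section alg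

variable {k K L : Type} [Field k] [Field K] [Field L] [Algebra k K] [Algebra k L] [Algebra K L]
  [IsScalarTower k K L]

theorem coeff_mem (E : IntermediateField k L) (s : Multiset L) (hs : ∀ t ∈ s, t ∈ E) :
    ∀ j, ((s.map fun t => X - C t).prod).coeff j ∈ E := by
  induction s using Multiset.induction_on with
  | empty =>
    intro j
    rw [Multiset.map_zero, Multiset.prod_zero, Polynomial.coeff_one]
    split_ifs
    · exact E.one_mem
    · exact E.zero_mem
  | cons t s ih =>
    intro j
    have h1 := ih fun x hx => hs x (Multiset.mem_cons_of_mem hx)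
    rw [Multiset.map_cons, Multiset.prod_cons, sub_mul, Polynomial.coeff_sub,
      Polynomial.coeff_C_mul]
    refine E.sub_mem ?_ (E.mul_mem (hs t (Multiset.mem_cons_self t s)) (h1 j))
    cases j with
    | zero => rw [Polynomial.coeff_X_mul_zero]; exact E.zero_mem
    | succ j => rw [Polynomial.coeff_X_mul]; exact h1 j

/-- algebraicity over the roots -/
theorem alg_of_roots [Algebra.IsAlgebraic K L] (H : K[X]) (hH : H ≠ 0)
    (hs : (H.map (algebraMap K L)).Splits)
    (halg : Algebra.IsAlgebraic (Algebra.adjoin k {x | ∃ i j, x = H.coeff i / H.coeff j}) K)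
    (R : Set L) (hR : ∀ t, aeval t H = 0 → t ∈ IntermediateField.adjoin k R) :
    Algebra.IsAlgebraic (Algebra.adjoin k R) L := by
  rw [← IntermediateField.isAlgebraic_adjoin_iff_top]
  set E := IntermediateField.adjoin k R with hE
  set S : Set K := {x | ∃ i j, x = H.coeff i / H.coeff j} with hS
  have hlead : H.leadingCoeff ≠ 0 := Polynomial.leadingCoeff_ne_zero.2 hH
  have hprod := hs.eq_prod_roots
  have hc := coeff_mem E (H.map (algebraMap K L)).roots (fun t ht => by
    apply hR
    rw [Polynomial.mem_roots (Polynomial.map_ne_zero hH), Polynomial.IsRoot,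
      Polynomial.eval_map_algebraMap] at ht
    exact ht)
  have hcoef : ∀ j, algebraMap K L (H.coeff j) = algebraMap K L H.leadingCoeff *
      (((H.map (algebraMap K L)).roots.map fun t => X - C t).prod).coeff j := by
    intro j
    rw [← Polynomial.coeff_map]
    conv_lhs => rw [hprod]
    rw [Polynomial.coeff_C_mul, Polynomial.leadingCoeff_map]
  have hSE : ∀ x ∈ S, algebraMap K L x ∈ E := by
    rintro _ ⟨i, j, rfl⟩
    rw [map_div₀, hcoef i, hcoef j, mul_div_mul_left _ _ ((_root_.map_ne_zero _).2 hlead)]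
    exact E.div_mem (hc i) (hc j)
  have h1 : Algebra.IsAlgebraic (Algebra.adjoin k S) L :=
    Algebra.IsAlgebraic.trans (Algebra.adjoin k S) K L
  have hle : Algebra.adjoin k S ≤ E.toSubalgebra.comap (IsScalarTower.toAlgHom k K L) := by
    rw [Algebra.adjoin_le_iff]
    intro x hx
    exact hSE x hx
  let φ : Algebra.adjoin k S →+* E :=
    ((algebraMap K L).comp (Algebra.adjoin k S).val.toRingHom).codRestrict E
      (fun x => hle x.2)
  let _ : Algebra (Algebra.adjoin k S) E := φ.toAlgebra
  have hst : IsScalarTower (Algebra.adjoin k S) E L :=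
    IsScalarTower.of_algebraMap_eq fun x => rfl
  have hinj : Function.Injective (algebraMap (Algebra.adjoin k S) E) := by
    intro x y hxy
    have h2 : algebraMap K L (x : K) = algebraMap K L (y : K) := congrArg Subtype.val hxy
    exact Subtype.ext ((algebraMap K L).injective h2)
  exact Algebra.IsAlgebraic.extendScalars (R := Algebra.adjoin k S) hinj

end alg

variable {k K : Type} [Field k] [Field K] [Algebra k K]

/-- Polynomials without roots of multiplicity `m` or more whose values at many constants are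
`m`-th powers. -/
theorem core_rad [IsAlgClosed k] [CharZero k] {w : ℕ} (htr : Algebra.trdeg k K = w) {n m N : ℕ}
    (hm : 2 ≤ m) (hN : 4 * n + (n + 1) ^ 2 < 2 * (N + 1)) (a : Fin (N + 1) → k)
    (ha : Function.Injective a) (H : K[X]) (hH : H ≠ 0) (hdeg : H.natDegree ≤ n)
    (halg : Algebra.IsAlgebraic (Algebra.adjoin k {x | ∃ i j, x = H.coeff i / H.coeff j}) K)
    (hpow : ∀ i, ∃ y : K, y ^ m = H.eval (algebraMap k K (a i)))
    (hmult : ∀ p : K[X], Irreducible p → ¬ p ^ m ∣ H) :
    LogGeneralType k K w (fun _ => False) := by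
  classical
  have hchK : CharZero K := charZero_of_injective_algebraMap (algebraMap k K).injective
  have hinf : Infinite k := inferInstance
  obtain ⟨T, e, u, hu, hT, hHT, hTall⟩ := factor hH
  set T1 : Finset K[X] := T.filter (fun p => ∀ i, p.eval (algebraMap k K (a i)) ≠ 0) with hT1
  set T0 : Finset K[X] := T.filter (fun p => ¬ ∀ i, p.eval (algebraMap k K (a i)) ≠ 0) with hT0
  set G : K[X] := ∏ p ∈ T1, p with hG
  have hT1T : ∀ p ∈ T1, p ∈ T := fun p hp => (Finset.mem_filter.1 hp).1
  have hem : ∀ p ∈ T, e p < m := by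
    intro p hp
    by_contra hcon
    push Not at hcon
    exact hmult p (hT p hp).1 ((pow_dvd_pow p hcon).trans (hT p hp).2.2.2.2)
  have hGsep : G.Separable := by
    refine Polynomial.separable_prod' ?_ ?_
    · intro p hp r hr hpr
      exact coprime_of_ne (hT p (hT1T p hp)).1 (hT r (hT1T r hr)).1 (hT p (hT1T p hp)).2.1
        (hT r (hT1T r hr)).2.1 hpr
    · intro p hp
      exact (hT p (hT1T p hp)).1.separable
  have hG0 : G ≠ 0 := hGsep.ne_zero
  have hGa : ∀ i, G.eval (algebraMap k K (a i)) ≠ 0 := by
    intro i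
    rw [hG, Polynomial.eval_prod]
    exact Finset.prod_ne_zero_iff.2 fun p hp => (Finset.mem_filter.1 hp).2 i
  -- the Galois extension
  let q : K[X] := ∏ p ∈ T, p
  have hqsep : q.Separable := by
    refine Polynomial.separable_prod' ?_ ?_
    · intro p hp r hr hpr
      exact coprime_of_ne (hT p hp).1 (hT r hr).1 (hT p hp).2.1 (hT r hr).2.1 hpr
    · intro p hp
      exact (hT p hp).1.separable
  let L := q.SplittingField
  have hgal : IsGalois K L := IsGalois.of_separable_splitting_field hqsep
  have hqs : (q.map (algebraMap K L)).Splits := Polynomial.SplittingField.splits q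
  have hps : ∀ p ∈ T, (p.map (algebraMap K L)).Splits := by
    intro p hp
    exact hqs.of_dvd (Polynomial.map_ne_zero hqsep.ne_zero)
      (Polynomial.map_dvd _ (Finset.dvd_prod_of_mem _ hp))
  have hGs : (G.map (algebraMap K L)).Splits := by
    refine hqs.of_dvd (Polynomial.map_ne_zero hqsep.ne_zero) (Polynomial.map_dvd _ ?_)
    exact Finset.prod_dvd_prod_of_subset _ _ _ (Finset.filter_subset _ _)
  have hHs : (H.map (algebraMap K L)).Splits := by
    rw [hHT, Polynomial.map_mul, Polynomial.map_C, Polynomial.map_prod]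
    refine (Polynomial.Splits.C _).mul (Polynomial.Splits.prod fun p hp => ?_)
    rw [Polynomial.map_pow]
    exact (hps p hp).pow _
  have hS : Algebra.IsAlgebraic (Algebra.adjoin k (G.rootSet L)) L := by
    refine alg_of_roots H hH hHs halg _ fun t ht => ?_
    rw [hHT, map_mul, aeval_C, map_prod] at ht
    have h1 := (mul_eq_zero.1 ht).resolve_left ((_root_.map_ne_zero _).2 hu)
    obtain ⟨p, hp, hp2⟩ := Finset.prod_eq_zero_iff.1 h1
    rw [map_pow] at hp2
    have hp3 := eq_zero_of_pow_eq_zero hp2
    by_cases hp1 : ∀ i, p.eval (algebraMap k K (a i)) ≠ 0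
    · apply IntermediateField.subset_adjoin k _
      rw [Polynomial.mem_rootSet]
      refine ⟨hG0, ?_⟩
      rw [hG, map_prod]
      exact Finset.prod_eq_zero (Finset.mem_filter.2 ⟨hp, hp1⟩) hp3
    · push Not at hp1
      obtain ⟨i, hi⟩ := hp1
      rw [eq_X_sub_C (hT p hp).1 (hT p hp).2.1 hi, map_sub, aeval_X, aeval_C, sub_eq_zero] at hp3
      rw [hp3, ← IsScalarTower.algebraMap_apply]
      exact IntermediateField.algebraMap_mem _ _
  -- the good nodes
  let I1 : Finset (Fin (N + 1)) :=
    Finset.univ.filter fun i => H.eval (algebraMap k K (a i)) ≠ 0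
  let I0 : Finset (Fin (N + 1)) :=
    Finset.univ.filter fun i => ¬ H.eval (algebraMap k K (a i)) ≠ 0
  have hI : I1.card + I0.card = N + 1 := by
    have := Finset.card_filter_add_card_filter_not (s := (Finset.univ : Finset (Fin (N + 1))))
      (fun i => H.eval (algebraMap k K (a i)) ≠ 0)
    rw [Finset.card_univ, Fintype.card_fin] at this
    exact this
  -- degrees
  have hdegT : ∑ p ∈ T, p.natDegree ≤ n := by
    have h1 : (∏ p ∈ T, p) ∣ H := by
      rw [hHT]
      refine Dvd.dvd.mul_left ?_ _
      exact Finset.prod_dvd_prod_of_dvd _ _ fun p hp =>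
        dvd_pow_self p (by have := (hT p hp).2.2.2.1; omega)
    have h2 := Polynomial.natDegree_le_of_dvd h1 hH
    rw [Polynomial.natDegree_prod _ _ fun p hp => (hT p hp).1.ne_zero] at h2
    exact h2.trans hdeg
  have hdegG : G.natDegree = ∑ p ∈ T1, p.natDegree := by
    rw [hG, Polynomial.natDegree_prod _ _ fun p hp => (hT p (hT1T p hp)).1.ne_zero]
  have hI0T : I0.card ≤ ∑ p ∈ T0, p.natDegree := by
    have h1 : I0.card ≤ T0.card := by
      refine Finset.card_le_card_of_injOn (fun i => X - C (algebraMap k K (a i))) ?_ ?_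
      · intro i hi
        have hi2 := (Finset.mem_filter.1 hi).2
        rw [not_not] at hi2
        refine Finset.mem_coe.2 (Finset.mem_filter.2 ⟨hTall _ (Polynomial.irreducible_X_sub_C _)
          (Polynomial.monic_X_sub_C _) (Polynomial.dvd_iff_isRoot.2 hi2), ?_⟩)
        push Not
        exact ⟨i, by simp⟩
      · intro i _ j _ hij
        have h2 := Polynomial.C_injective (sub_right_injective hij)
        exact ha ((algebraMap k K).injective h2)
    refine h1.trans ?_
    rw [Finset.card_eq_sum_ones]
    refine Finset.sum_le_sum fun p hp => ?_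
    exact (hT p (Finset.mem_filter.1 hp).1).1.natDegree_pos
  have hsplitT : ∑ p ∈ T1, p.natDegree + ∑ p ∈ T0, p.natDegree = ∑ p ∈ T, p.natDegree :=
    Finset.sum_filter_add_sum_filter_not _ _ _
  have hdz : G.natDegree + I0.card ≤ n := by omega
  let ee := I1.equivFin.symm
  have hee : ∀ i, H.eval (algebraMap k K (a (ee i))) ≠ 0 := fun i =>
    (Finset.mem_filter.1 (ee i).2).2
  -- divisibility by m
  have hnN : n ≤ N := by nlinarith
  have hram : ∀ (P : Place k K) (i : Fin (N + 1)), H.eval (algebraMap k K (a i)) ≠ 0 →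
      ct P G (a i) = 0 ∨ 2 ≤ ct P G (a i) := by
    intro P i hi
    have hpe : ∀ p ∈ T, p.eval (algebraMap k K (a i)) ≠ 0 := by
      intro p hp h0
      apply hi
      obtain ⟨r, hr⟩ := (hT p hp).2.2.1
      rw [hr, Polynomial.eval_mul, h0, zero_mul]
    have hdivm : ∀ i, H.eval (algebraMap k K (a i)) ≠ 0 →
        (m : ℤ) ∣ P.ord (H.eval (algebraMap k K (a i))) := by
      intro i _
      obtain ⟨y, hy⟩ := hpow i
      rw [← hy, P.ord_pow]
      exact Dvd.intro _ rfl
    have hcntm : (m : ℤ) ∣ cnt P H := by
      obtain ⟨j, hj, hj2⟩ := exists_good P hH hdeg (fun i : Fin (n + 1) =>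
        a (Fin.castLE (by omega) i)) (fun x y hxy => Fin.castLE_injective _ (ha hxy))
      rw [← hj2]
      exact hdivm _ hj
    have h1 : (m : ℤ) ∣ ct P H (a i) := dvd_sub (hdivm i hi) hcntm
    have h2 : ct P H (a i) = ∑ p ∈ T, (e p : ℤ) * ct P p (a i) := by
      have hprod : (∏ p ∈ T, p ^ e p).eval (algebraMap k K (a i)) ≠ 0 := by
        rw [Polynomial.eval_prod]
        refine Finset.prod_ne_zero_iff.2 fun p hp => ?_
        rw [Polynomial.eval_pow]
        exact pow_ne_zero _ (hpe p hp)
      rw [hHT, ct_mul P (by rw [Polynomial.eval_C]; exact hu) hprod, ct_C P hu, zero_add,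
        ct_prod P T _ fun p hp => by
          rw [Polynomial.eval_pow]
          exact pow_ne_zero _ (hpe p hp)]
      exact Finset.sum_congr rfl fun p hp => ct_pow P (hpe p hp) _
    have h3 : ∑ p ∈ T0, (e p : ℤ) * ct P p (a i) = 0 := by
      refine Finset.sum_eq_zero fun p hp => ?_
      have hp' := (Finset.mem_filter.1 hp)
      have hp2 := hp'.2
      push Not at hp2
      obtain ⟨j, hj⟩ := hp2
      have hpX := eq_X_sub_C (hT p hp'.1).1 (hT p hp'.1).2.1 hj
      have hij : a i ≠ a j := by
        intro h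
        apply hpe p hp'.1
        rw [h]; exact hj
      rw [hpX, ct_X_sub_C P hij, mul_zero]
    have h4 : ct P H (a i) = ∑ p ∈ T1, (e p : ℤ) * ct P p (a i) := by
      have h5 : ∑ p ∈ T1, (e p : ℤ) * ct P p (a i) + ∑ p ∈ T0, (e p : ℤ) * ct P p (a i) =
          ∑ p ∈ T, (e p : ℤ) * ct P p (a i) := Finset.sum_filter_add_sum_filter_not _ _ _
      rw [h2]
      linarith
    have h5 : ct P G (a i) = ∑ p ∈ T1, ct P p (a i) :=
      ct_prod P T1 _ fun p hp => hpe p (hT1T p hp)
    have h6 : ct P G (a i) ≤ ct P H (a i) := by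
      rw [h4, h5]
      refine Finset.sum_le_sum fun p hp => ?_
      have h7 := ct_nonneg P (hpe p (hT1T p hp))
      have h8 : (1 : ℤ) ≤ e p := by exact_mod_cast (hT p (hT1T p hp)).2.2.2.1
      nlinarith
    have h7 : ct P H (a i) ≤ ((m : ℤ) - 1) * ct P G (a i) := by
      rw [h4, h5, Finset.mul_sum]
      refine Finset.sum_le_sum fun p hp => ?_
      have h7 := ct_nonneg P (hpe p (hT1T p hp))
      have h8 : (e p : ℤ) ≤ (m : ℤ) - 1 := by
        have := hem p (hT1T p hp)
        omega
      nlinarith
    have h8 : 0 ≤ ct P G (a i) := ct_nonneg P (hGa i)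
    obtain ⟨c, hc⟩ := h1
    by_contra hcon
    push Not at hcon
    have h9 : ct P G (a i) = 1 := by omega
    rw [h9, hc] at h6
    rw [h9, hc, mul_one] at h7
    have hm' : (2 : ℤ) ≤ m := by exact_mod_cast hm
    have h10 : c < 1 := by
      by_contra h
      push Not at h
      nlinarith
    have h11 : c ≤ 0 := by omega
    nlinarith
  refine core' (L := L) htr G hGsep hGs hS (fun i => a (ee i))
    (fun i j hij => ee.injective (Subtype.ext (ha hij))) 2 (fun _ => 1) (fun _ => by norm_num) ?_
    (fun i => hGa _) _ ?_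
  · rw [Finset.sum_const, Finset.card_univ, Fintype.card_fin, smul_eq_mul, mul_one]
    set d := G.natDegree
    set z := I0.card
    have h1 : 4 * (w * (d + 1 - w)) ≤ (d + 1) ^ 2 := by
      rcases le_total w (d + 1) with h | h
      · obtain ⟨s, hs⟩ := Nat.exists_eq_add_of_le h
        rw [hs, Nat.add_sub_cancel_left]
        nlinarith [sq_nonneg ((w : ℤ) - s), sq_nonneg (w - s), sq_nonneg (s - w),
          Nat.le_total w s, four_mul_le_sq_add (w : ℤ) s]
      · rw [Nat.sub_eq_zero_of_le h, mul_zero, mul_zero]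
        positivity
    have h2 : (d + 1) ^ 2 + 2 * z ≤ (n + 1) ^ 2 := by
      have : d + 1 + z ≤ n + 1 := by omega
      nlinarith [Nat.pow_le_pow_left this 2]
    omega
  · intro P _ _ j0 hj0 hj1 i
    have h1 : P.ord (G.coeff j0) = cnt P G := by
      refine (cnt_unique P (fun j => ?_) ⟨j0, hj0, rfl⟩).symm
      exact hj1 j
    rw [h1]
    rcases hram P (ee i) (hee i) with h2 | h2
    · left
      unfold ct at h2
      omega
    · right
      unfold ct at h2
      push_cast
      linarith

end Pool.Agent.Y190.BV
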