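import Pool.Agent.Y190.BV.Core

/-!
The order of the content of a polynomial at a place.
-/

set_option autoImplicit false

open FF Pool.Agent.W603.LV Pool.Agent.W602.GT Polynomial

namespace Pool.Agent.Y190.BV

variable {k K : Type} [Field k] [Field K] [Algebra k K] (P : Place k K)

/-- the minimal order of the coefficients -/
noncomputable def cnt (F : K[X]) : ℤ :=
  if h : F.support.Nonempty then F.support.inf' h (fun j => P.ord (F.coeff j)) else 0

theorem cnt_ge (F : K[X]) (j : ℕ) : Ge P (cnt P F) (F.coeff j) := by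
  by_cases hj : F.coeff j = 0
  · exact Or.inl hj
  · right
    have hj' : j ∈ F.support := Polynomial.mem_support_iff.2 hj
    have h : F.support.Nonempty := ⟨j, hj'⟩
    unfold cnt
    rw [dif_pos h]
    exact Finset.inf'_le _ hj'

theorem cnt_att {F : K[X]} (hF : F ≠ 0) : ∃ j, F.coeff j ≠ 0 ∧ P.ord (F.coeff j) = cnt P F := by
  have h : F.support.Nonempty := Polynomial.support_nonempty.2 hF
  obtain ⟨j, hj, hj2⟩ := Finset.exists_mem_eq_inf' h (fun j => P.ord (F.coeff j))
  refine ⟨j, Polynomial.mem_support_iff.1 hj, ?_⟩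
  unfold cnt
  rw [dif_pos h, hj2]

theorem cnt_unique {F : K[X]} {c : ℤ} (h1 : ∀ j, Ge P c (F.coeff j))
    (h2 : ∃ j, F.coeff j ≠ 0 ∧ P.ord (F.coeff j) = c) : cnt P F = c := by
  obtain ⟨j, hj, hj2⟩ := h2
  have hF : F ≠ 0 := by
    rintro rfl
    exact hj (Polynomial.coeff_zero j)
  obtain ⟨i, hi, hi2⟩ := cnt_att P hF
  apply le_antisymm
  · rw [← hj2]
    exact (cnt_ge P F j).resolve_left hj
  · rw [← hi2]
    exact (h1 i).resolve_left hi

theorem cnt_eval (F : K[X]) (y : k) : Ge P (cnt P F) (F.eval (algebraMap k K y)) := by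
  rw [Polynomial.eval_eq_sum_range]
  refine Ge.sum _ _ fun j _ => ?_
  have h1 : Ge P 0 (algebraMap k K y ^ j) := by
    rw [← map_pow]; exact Ge.const _
  have := (cnt_ge P F j).mul h1
  rwa [add_zero] at this

/-- at most `natDegree F` constants are bad -/
theorem exists_good {F : K[X]} (hF : F ≠ 0) {n : ℕ} (hn : F.natDegree ≤ n) (y : Fin (n + 1) → k)
    (hy : Function.Injective y) : ∃ i, F.eval (algebraMap k K (y i)) ≠ 0 ∧
      P.ord (F.eval (algebraMap k K (y i))) = cnt P F := by
  classical
  by_contra hcon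
  push Not at hcon
  have h1 : ∀ i, Ge P (cnt P F + 1) (F.eval (algebraMap k K (y i))) := by
    intro i
    by_cases h : F.eval (algebraMap k K (y i)) = 0
    · exact Or.inl h
    · right
      have h2 := (cnt_eval P F (y i)).resolve_left h
      have h3 := hcon i h
      omega
  have hinj : Set.InjOn (fun i => algebraMap k K (y i)) (Finset.univ : Finset (Fin (n + 1))) :=
    fun i _ j _ hij => hy ((algebraMap k K).injective hij)
  have hinj' : Set.InjOn y (Finset.univ : Finset (Fin (n + 1))) := fun i _ j _ hij => hy hij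
  have h2 : F = ∑ i : Fin (n + 1), C (F.eval (algebraMap k K (y i))) *
      (Lagrange.basis Finset.univ y i).map (algebraMap k K) := by
    refine Polynomial.eq_of_degrees_lt_of_eval_index_eq
      (v := fun i : Fin (n + 1) => algebraMap k K (y i)) Finset.univ hinj ?_ ?_ ?_
    · rw [Finset.card_univ, Fintype.card_fin]
      refine (Polynomial.degree_le_natDegree).trans_lt ?_
      exact_mod_cast Nat.lt_succ_of_le hn
    · rw [Finset.card_univ, Fintype.card_fin]
      refine (Polynomial.degree_sum_le _ _).trans_lt ?_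
      rw [Finset.sup_lt_iff (WithBot.bot_lt_coe _)]
      intro i _
      refine (Polynomial.degree_mul_le _ _).trans_lt ?_
      refine lt_of_le_of_lt (add_le_add Polynomial.degree_C_le le_rfl) ?_
      rw [zero_add, Polynomial.degree_map, Lagrange.degree_basis hinj' (Finset.mem_univ i)]
      simp only [Finset.card_univ, Fintype.card_fin]
      exact_mod_cast Nat.lt_succ_self n
    · intro j _
      rw [Polynomial.eval_finsetSum]
      have h3 : ∀ i : Fin (n + 1), ((Lagrange.basis Finset.univ y i).map (algebraMap k K)).eval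
          (algebraMap k K (y j)) = if i = j then 1 else 0 := by
        intro i
        rw [Polynomial.eval_map_algebraMap, Polynomial.aeval_algebraMap_apply,
          Polynomial.coe_aeval_eq_eval]
        split_ifs with h
        · rw [h, Lagrange.eval_basis_self hinj' (Finset.mem_univ j), map_one]
        · rw [Lagrange.eval_basis_of_ne h (Finset.mem_univ j), map_zero]
      simp only [Polynomial.eval_mul, Polynomial.eval_C, h3]
      simp
  obtain ⟨j, hj, hj2⟩ := cnt_att P hF
  have h4 : Ge P (cnt P F + 1) (F.coeff j) := by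
    rw [h2, Polynomial.finsetSum_coeff, ← h2]
    refine Ge.sum _ _ fun i _ => ?_
    rw [Polynomial.coeff_C_mul, Polynomial.coeff_map]
    have := (h1 i).mul (Ge.const (P := P) ((Lagrange.basis Finset.univ y i).coeff j))
    rwa [add_zero] at this
  have h5 := h4.resolve_left hj
  omega

theorem bad_finite {F : K[X]} (hF : F ≠ 0) : {y : k | ¬ (F.eval (algebraMap k K y) ≠ 0 ∧
    P.ord (F.eval (algebraMap k K y)) = cnt P F)}.Finite := by
  by_contra hcon
  have hinf : Set.Infinite {y : k | ¬ (F.eval (algebraMap k K y) ≠ 0 ∧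
    P.ord (F.eval (algebraMap k K y)) = cnt P F)} := hcon
  have := hinf.to_subtype
  let e := Infinite.natEmbedding {y : k | ¬ (F.eval (algebraMap k K y) ≠ 0 ∧
    P.ord (F.eval (algebraMap k K y)) = cnt P F)}
  obtain ⟨i, hi⟩ := exists_good P hF le_rfl (fun i : Fin (F.natDegree + 1) => (e i : k))
    (fun i j hij => Fin.ext (e.injective (Subtype.ext hij)))
  exact (e i).2 hi

theorem cnt_mul [Infinite k] {F G : K[X]} (hF : F ≠ 0) (hG : G ≠ 0) :
    cnt P (F * G) = cnt P F + cnt P G := by
  classical
  have h1 : ∀ j, Ge P (cnt P F + cnt P G) ((F * G).coeff j) := by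
    intro j
    rw [Polynomial.coeff_mul]
    exact Ge.sum _ _ fun x _ => (cnt_ge P F x.1).mul (cnt_ge P G x.2)
  obtain ⟨j, hj, hj2⟩ := cnt_att P (mul_ne_zero hF hG)
  refine le_antisymm ?_ (by rw [← hj2]; exact (h1 j).resolve_left hj)
  obtain ⟨y, hy⟩ := ((bad_finite P hF).union (bad_finite P hG)).infinite_compl.nonempty
  simp only [Set.compl_union, Set.mem_inter_iff, Set.mem_compl_iff, Set.mem_ofPred_eq, not_not]
    at hy
  obtain ⟨⟨h2, h3⟩, ⟨h4, h5⟩⟩ := hy
  have h6 := cnt_eval P (F * G) y
  rw [Polynomial.eval_mul] at h6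
  have h7 := h6.resolve_left (mul_ne_zero h2 h4)
  rw [P.ord_mul h2 h4, h3, h5] at h7
  exact h7

theorem cnt_one : cnt P (1 : K[X]) = 0 := by
  apply cnt_unique
  · intro j
    rw [Polynomial.coeff_one]
    split_ifs
    · exact Ge.one
    · exact Ge.zero
  · exact ⟨0, by simp, by simp [P.ord_one]⟩

theorem cnt_C {u : K} (hu : u ≠ 0) : cnt P (C u) = P.ord u := by
  apply cnt_unique
  · intro j
    rw [Polynomial.coeff_C]
    split_ifs
    · exact Or.inr le_rfl
    · exact Ge.zero
  · exact ⟨0, by simpa using hu, by simp⟩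

/-- the contact of `F` with the constant `y` -/
noncomputable def ct (F : K[X]) (y : k) : ℤ := P.ord (F.eval (algebraMap k K y)) - cnt P F

theorem ct_nonneg {F : K[X]} {y : k} (h : F.eval (algebraMap k K y) ≠ 0) : 0 ≤ ct P F y := by
  have := (cnt_eval P F y).resolve_left h
  unfold ct
  omega

theorem ct_mul [Infinite k] {F G : K[X]} {y : k} (hF : F.eval (algebraMap k K y) ≠ 0)
    (hG : G.eval (algebraMap k K y) ≠ 0) : ct P (F * G) y = ct P F y + ct P G y := by
  have hF0 : F ≠ 0 := by rintro rfl; simp at hF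
  have hG0 : G ≠ 0 := by rintro rfl; simp at hG
  unfold ct
  rw [cnt_mul P hF0 hG0, Polynomial.eval_mul, P.ord_mul hF hG]
  ring

theorem ct_one (y : k) : ct P (1 : K[X]) y = 0 := by
  unfold ct
  rw [cnt_one, Polynomial.eval_one, P.ord_one, sub_zero]

theorem ct_C {u : K} (hu : u ≠ 0) (y : k) : ct P (C u) y = 0 := by
  unfold ct
  rw [cnt_C P hu, Polynomial.eval_C, sub_self]

theorem ct_prod [Infinite k] {ι : Type*} (s : Finset ι) (F : ι → K[X]) {y : k}
    (h : ∀ i ∈ s, (F i).eval (algebraMap k K y) ≠ 0) :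
    ct P (∏ i ∈ s, F i) y = ∑ i ∈ s, ct P (F i) y := by
  classical
  induction s using Finset.induction_on with
  | empty => rw [Finset.prod_empty, Finset.sum_empty, ct_one]
  | insert a s ha ih =>
    rw [Finset.prod_insert ha, Finset.sum_insert ha, ct_mul P (h a (Finset.mem_insert_self a s)),
      ih fun i hi => h i (Finset.mem_insert_of_mem hi)]
    rw [Polynomial.eval_prod]
    exact Finset.prod_ne_zero_iff.2 fun i hi => h i (Finset.mem_insert_of_mem hi)

theorem ct_pow [Infinite k] {F : K[X]} {y : k} (h : F.eval (algebraMap k K y) ≠ 0) (n : ℕ) :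
    ct P (F ^ n) y = n * ct P F y := by
  induction n with
  | zero => rw [pow_zero, ct_one, Nat.cast_zero, zero_mul]
  | succ n ih =>
    rw [pow_succ, ct_mul P (by rw [Polynomial.eval_pow]; exact pow_ne_zero _ h) h, ih]
    push_cast
    ring

theorem ct_X_sub_C {y z : k} (h : y ≠ z) : ct P (X - C (algebraMap k K z)) y = 0 := by
  have h1 : cnt P (X - C (algebraMap k K z)) = 0 := by
    apply cnt_unique
    · intro j
      rw [Polynomial.coeff_sub, Polynomial.coeff_X, Polynomial.coeff_C]
      refine Ge.sub ?_ ?_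
      · split_ifs
        · exact Ge.one
        · exact Ge.zero
      · split_ifs
        · exact Ge.const _
        · exact Ge.zero
    · refine ⟨1, ?_, ?_⟩
      · rw [Polynomial.coeff_sub, Polynomial.coeff_X_one, Polynomial.coeff_C_of_ne_zero one_ne_zero,
          sub_zero]
        exact one_ne_zero
      · rw [Polynomial.coeff_sub, Polynomial.coeff_X_one, Polynomial.coeff_C_of_ne_zero one_ne_zero,
          sub_zero, P.ord_one]
  unfold ct
  rw [h1, Polynomial.eval_sub, Polynomial.eval_X, Polynomial.eval_C, ← map_sub,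
    P.ord_const (sub_ne_zero.2 h), sub_zero]

end Pool.Agent.Y190.BV
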