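import Pool.Agent.Y190.BV.Str

/-!
The special sets of the closed subsets, for `n < 2 m`.
-/

set_option autoImplicit false

open FF Pool.Agent.W603.LV Pool.Agent.W602.GT

namespace Pool.Agent.Y190.BV

variable {k : Type} [Field k] {N : ℕ} {K : Type} [Field K] [Algebra k K] {n m w : ℕ} {ι : Type}

/-- points over extensions -/
theorem sub_ext [IsAlgClosed k] {F : ι → MvPolynomial (Fin (N + 1)) k} {a : Fin (N + 1) → k}
    (hsub : Cone F ⊆ Cone (buchi a n m)) {y : Fin (N + 1) → K} (hy0 : y ≠ 0)
    (hy : ∀ e, val y (F e) = 0) (l : Rel a n) : val y (buchi a n m l) = 0 := by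
  by_contra hne
  obtain ⟨i, hi⟩ := Function.ne_iff.1 hy0
  have hH : MvPolynomial.aeval y (buchi a n m l * MvPolynomial.X i) ≠ 0 := by
    rw [map_mul, MvPolynomial.aeval_X]
    exact mul_ne_zero hne hi
  obtain ⟨x, hx, hx0⟩ := specialise y _ hH
  rw [map_mul, MvPolynomial.aeval_X] at hx
  have h1 := left_ne_zero_of_mul hx
  have h2 := right_ne_zero_of_mul hx
  have h3 : x ∈ Cone F := ⟨fun h => h2 (congrFun h i), fun e => hx0 _ (hy e)⟩
  exact h1 ((hsub h3).2 l)

/-- a form which vanishes at the point vanishes on the whole line -/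
theorem line_vanish [Infinite K] {a : Fin (N + 1) → k} {y z : Fin (N + 1) → K} {t : K}
    (hyz : ∀ i, y i = (algebraMap k K (a i) - t) * z i) {j0 : Fin (N + 1)} (hj0 : z j0 ≠ 0)
    (ht : Transcendental (coords k z) t) {G : MvPolynomial (Fin (N + 1)) k} (hG : IsForm G)
    (hyG : val y G = 0) (c c' : K) : val (fun i => c * y i + c' * z i) G = 0 := by
  obtain ⟨d, hd⟩ := hG
  let u : Fin (N + 1) → coords k z := fun i =>
    ⟨z i / z j0, IntermediateField.subset_adjoin k _ ⟨i, j0, hj0, rfl⟩⟩
  have hu : ∀ i, z j0 * (u i : K) = z i := fun i => by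
    change z j0 * (z i / z j0) = z i
    field_simp
  let Q : Polynomial (coords k z) := MvPolynomial.aeval
    (fun i => (Polynomial.C (algebraMap k (coords k z) (a i)) - Polynomial.X) *
      Polynomial.C (u i)) G
  have hQ : ∀ s : K, Polynomial.aeval s Q =
      val (fun i => (algebraMap k K (a i) - s) * (u i : K)) G := by
    intro s
    have h1 : ((Polynomial.aeval s : Polynomial (coords k z) →ₐ[coords k z] K).restrictScalars
        k).comp (MvPolynomial.aeval
          (fun i => (Polynomial.C (algebraMap k (coords k z) (a i)) - Polynomial.X) *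
            Polynomial.C (u i))) =
        MvPolynomial.aeval (fun i => (algebraMap k K (a i) - s) * (u i : K)) := by
      apply MvPolynomial.algHom_ext
      intro i
      simp only [AlgHom.comp_apply, MvPolynomial.aeval_X, AlgHom.restrictScalars_apply, map_mul,
        map_sub, Polynomial.aeval_C, Polynomial.aeval_X]
      rw [← IsScalarTower.algebraMap_apply k (coords k z) K]
      rfl
    unfold val
    rw [← h1]
    rfl
  have hzs : ∀ s : K, val (fun i => (algebraMap k K (a i) - s) * z i) G =
      z j0 ^ d * Polynomial.aeval s Q := by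
    intro s
    rw [hQ, ← val_smul hd]
    congr 1
    funext i
    rw [← hu i]
    ring
  have hQ0 : Q = 0 := by
    by_contra hne
    apply ht
    refine ⟨Q, hne, ?_⟩
    have h1 := hzs t
    have h2 : (fun i => (algebraMap k K (a i) - t) * z i) = y := funext fun i => (hyz i).symm
    rw [h2, hyG] at h1
    exact (mul_eq_zero.1 h1.symm).resolve_left (pow_ne_zero _ hj0)
  have hall : ∀ s : K, val (fun i => (algebraMap k K (a i) - s) * z i) G = 0 := by
    intro s
    rw [hzs, hQ0, map_zero, mul_zero]
  have hne : ∀ c : K, c ≠ 0 → val (fun i => c * y i + c' * z i) G = 0 := by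
    intro c hc
    have h1 : (fun i => c * y i + c' * z i) =
        fun i => c * ((algebraMap k K (a i) - (t - c' / c)) * z i) := by
      funext i
      rw [hyz i]
      field_simp
      ring
    rw [h1, val_smul hd, hall, mul_zero]
  by_cases hc : c = 0
  · let R : Polynomial K := MvPolynomial.aeval
      (fun i => Polynomial.C (c' * z i) + Polynomial.X * Polynomial.C (y i)) G
    have hR : ∀ s : K, R.eval s = val (fun i => s * y i + c' * z i) G := by
      intro s
      have h1 : ((Polynomial.aeval s : Polynomial K →ₐ[K] K).restrictScalars k).comp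
          (MvPolynomial.aeval
            (fun i => Polynomial.C (c' * z i) + Polynomial.X * Polynomial.C (y i))) =
          MvPolynomial.aeval (fun i => s * y i + c' * z i) := by
        apply MvPolynomial.algHom_ext
        intro i
        simp only [AlgHom.comp_apply, MvPolynomial.aeval_X, AlgHom.restrictScalars_apply, map_mul,
          map_add, Polynomial.aeval_C, Polynomial.aeval_X, Algebra.algebraMap_self,
          RingHom.id_apply]
        ring
      unfold val
      rw [← h1, ← Polynomial.coe_aeval_eq_eval]
      rfl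
    have hR0 : R = 0 := poly_zero fun s hs => by rw [hR]; exact hne s hs
    have := hR c
    rw [hR0, Polynomial.eval_zero] at this
    exact this.symm
  · exact hne c hc

variable [IsAlgClosed k] [CharZero k]

/-- **The special sets of closed subsets.** -/
theorem special_sub (hm : 2 ≤ m) (hnm : n < 2 * m) (hN : 4 * n + (n + 1) ^ 2 < 2 * (N + 1))
    {a : Fin (N + 1) → k} (ha : Function.Injective a) {F : ι → MvPolynomial (Fin (N + 1)) k}
    (hF : ∀ e, IsForm (F e)) (hsub : Cone F ⊆ Cone (buchi a n m)) :
    SpAlg F = SpLine F ∧ SpGm F = SpLine F := by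
  have hinf : Infinite k := inferInstance
  have h1 : SpLine F ⊆ SpGm F := line_sub_gm _
  have h2 : SpGm F ⊆ SpAlg F := gm_sub_alg hF
  have h3 : SpAlg F ⊆ SpLine F := by
    rintro x ⟨hx, h⟩
    refine ⟨hx, fun G hG hL => h G hG ?_⟩
    intro K _ _ w y hw hy hgt
    have hchK : CharZero K := charZero_of_injective_algebraMap (algebraMap k K).injective
    have hinfK : Infinite K := inferInstance
    have hy' : SubVar (buchi a n m) K w y := ⟨hy.ne, sub_ext hsub hy.ne hy.mem, hy.gen, hy.dim⟩
    obtain ⟨hmn, t, z, hyz, hz, ⟨i, j, hij, hi, hj⟩, htr, htop⟩ :=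
      structure_thm hm hnm hN ha hy' hgt
    refine mem_closure y z ⟨i, j, ?_⟩ (fun c c' e => line_vanish hyz hi htr (hF e) (hy.mem e) c c')
      hL
    rw [hyz i, hyz j]
    have e : (algebraMap k K (a i) - t) * z i * z j - (algebraMap k K (a j) - t) * z j * z i =
        algebraMap k K (a i - a j) * (z i * z j) := by
      rw [map_sub]; ring
    rw [e]
    exact mul_ne_zero ((_root_.map_ne_zero _).2 (sub_ne_zero.2 fun h => hij (ha h)))
      (mul_ne_zero hi hj)
  exact ⟨Set.Subset.antisymm h3 (h1.trans h2), Set.Subset.antisymm (h2.trans h3) h1⟩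

end Pool.Agent.Y190.BV
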