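import Pool.Agent.Y190.BV.Spz

/-!
Polynomials without irreducible factors of high multiplicity; polynomials over subrings.
-/

set_option autoImplicit false

open FF Pool.Agent.W603.LV Pool.Agent.W602.GT Polynomial

namespace Pool.Agent.Y190.BV

section bez

variable {K : Type} [Field K] [CharZero K]

theorem pow_dvd_of_derivs {p : K[X]} (hp : Irreducible p) : ∀ (m : ℕ) (H : K[X]),
    (∀ j < m, p ∣ derivative^[j] H) → p ^ m ∣ H := by
  intro m
  induction m with
  | zero => intro H _; simp
  | succ m ih =>
    intro H h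
    rcases Nat.eq_zero_or_pos m with rfl | hm
    · have := h 0 one_pos
      simpa using this
    have h1 : p ^ m ∣ H := ih H fun j hj => h j (by omega)
    have h2 : p ^ m ∣ derivative H := ih _ fun j hj => by
      have := h (j + 1) (by omega)
      rwa [Function.iterate_succ_apply] at this
    obtain ⟨Q, rfl⟩ := h1
    obtain ⟨m', rfl⟩ : ∃ m', m = m' + 1 := ⟨m - 1, by omega⟩
    rw [derivative_mul, derivative_pow, Nat.add_sub_cancel] at h2
    have h3 : p ^ (m' + 1) ∣ C ((m' + 1 : ℕ) : K) * p ^ m' * derivative p * Q := by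
      refine (dvd_add_left (Dvd.intro _ rfl : p ^ (m' + 1) ∣ p ^ (m' + 1) * derivative Q)).1 ?_
      exact h2
    have h4 : p ^ m' * p ∣ p ^ m' * (C ((m' + 1 : ℕ) : K) * derivative p * Q) := by
      rw [← pow_succ]
      convert h3 using 1
      ring
    have h5 : p ∣ C ((m' + 1 : ℕ) : K) * derivative p * Q :=
      (mul_dvd_mul_iff_left (pow_ne_zero _ hp.ne_zero)).1 h4
    have hprime := hp.prime
    have h6 : p ∣ Q := by
      rcases hprime.dvd_or_dvd h5 with h | h
      · exfalso
        rcases hprime.dvd_or_dvd h with h' | h'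
        · have hu : IsUnit (C ((m' + 1 : ℕ) : K)) := by
            rw [isUnit_C, isUnit_iff_ne_zero]
            exact_mod_cast Nat.succ_ne_zero m'
          exact hp.not_isUnit (isUnit_of_dvd_unit h' hu)
        · have hd : derivative p ≠ 0 := by
            intro h0
            have := natDegree_eq_zero_of_derivative_eq_zero h0
            have h7 := hp.natDegree_pos
            omega
          have h8 := natDegree_le_of_dvd h' hd
          have h9 := natDegree_derivative_lt (p := p) (by have := hp.natDegree_pos; omega)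
          omega
      · exact h
    rw [pow_succ p (m' + 1)]
    exact mul_dvd_mul_left _ h6

theorem bezout {H : K[X]} (hH : H ≠ 0) {m : ℕ} (h : ∀ p : K[X], Irreducible p → ¬ p ^ m ∣ H) :
    ∃ U : Fin m → K[X], ∑ j : Fin m, U j * derivative^[(j : ℕ)] H = 1 := by
  by_contra hcon
  have hI : (1 : K[X]) ∉ Ideal.span (Set.range fun j : Fin m => derivative^[(j : ℕ)] H) := by
    intro h1
    rw [Ideal.mem_span_range_iff_exists_fun] at h1
    obtain ⟨c, hc⟩ := h1
    exact hcon ⟨c, hc⟩
  rw [← Ideal.ne_top_iff_one] at hI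
  obtain ⟨M, hM, hle⟩ := Ideal.exists_le_maximal _ hI
  have hm : m ≠ 0 := by
    rintro rfl
    exact h X irreducible_X (by simp)
  have hHM : H ∈ M := hle (Ideal.subset_span ⟨⟨0, Nat.pos_of_ne_zero hm⟩, rfl⟩)
  have hM0 : M ≠ ⊥ := by
    rintro rfl
    exact hH (Ideal.mem_bot.1 hHM)
  obtain ⟨p, hp⟩ := (IsPrincipalIdealRing.principal M).principal
  have hpM : M = Ideal.span {p} := hp
  have hp0 : p ≠ 0 := by
    rintro rfl
    apply hM0
    rw [hpM, Ideal.span_singleton_eq_bot.2 rfl]
  have hirr : Irreducible p := by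
    have h1 : (Ideal.span {p}).IsPrime := hpM ▸ hM.isPrime
    exact ((Ideal.span_singleton_prime hp0).1 h1).irreducible
  apply h p hirr
  apply pow_dvd_of_derivs hirr
  intro j hj
  rw [← Ideal.mem_span_singleton, ← hpM]
  exact hle (Ideal.subset_span ⟨⟨j, hj⟩, rfl⟩)

end bez

section lifts

variable {k : Type} [Field k] {K : Type} [Field K] [Algebra k K]

/-- the finite set of the coefficients -/
noncomputable def cfs (p : K[X]) : Finset K := by
  classical
  exact (Finset.range (p.natDegree + 1)).image p.coeff

theorem lift_of_cfs {R : Subalgebra k K} {p : K[X]} (h : ∀ s ∈ cfs p, s ∈ R) :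
    ∃ q : Polynomial R, q.map (R.val : R →+* K) = p := by
  classical
  have h1 : p ∈ Polynomial.lifts (R.val : R →+* K) := by
    rw [Polynomial.lifts_iff_coeff_lifts]
    intro i
    by_cases hi : i < p.natDegree + 1
    · have h2 : p.coeff i ∈ R := h _ (by
        unfold cfs
        exact Finset.mem_image_of_mem _ (Finset.mem_range.2 hi))
      exact ⟨⟨_, h2⟩, rfl⟩
    · rw [coeff_eq_zero_of_natDegree_lt (by omega)]
      exact ⟨0, map_zero _⟩
  exact (Polynomial.mem_lifts _).1 h1

theorem val_injective (R : Subalgebra k K) : Function.Injective (R.val : R →+* K) :=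
  Subtype.val_injective

end lifts

end Pool.Agent.Y190.BV
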