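import Pool.Agent.Y190.BV.Trn

/-!
Function fields of varieties over the space of binary forms, ramified over osculating hyperplanes,
are of general type.
-/

set_option autoImplicit false

open FF Pool.Agent.W603.LV Pool.Agent.W602.GT Cardinal

namespace Pool.Agent.Y190.BV

section split

variable {k K : Type} [Field k] [Field K] [Algebra k K]

theorem ev_eq_aeval {L : Type} [Field L] [Algebra K L] (F : Polynomial K) (t : L) :
    ev L (F.natDegree + 1) F.coeff t = Polynomial.aeval t F := by
  rw [Polynomial.aeval_eq_sum_range]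
  unfold ev
  exact Finset.sum_congr rfl fun j _ => by rw [Algebra.smul_def]

theorem ev_eq_eval (F : Polynomial K) (t : K) :
    ev K (F.natDegree + 1) F.coeff t = F.eval t := by
  rw [ev_eq_aeval, Polynomial.coe_aeval_eq_eval]

theorem sum_derivative {L : Type} [Field L] [Algebra K L] (F : Polynomial K) (t : L) :
    (∑ j ∈ Finset.range (F.natDegree + 1), algebraMap K L (F.coeff j) *
      ((j : L) * t ^ (j - 1))) = Polynomial.aeval t (Polynomial.derivative F) := by
  conv_rhs => rw [F.as_sum_range_C_mul_X_pow]
  rw [Polynomial.derivative_sum, map_sum]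
  refine Finset.sum_congr rfl fun j _ => ?_
  rw [Polynomial.derivative_C_mul_X_pow, map_mul, map_pow, Polynomial.aeval_C,
    Polynomial.aeval_X, map_mul, map_natCast]
  ring

/-- the roots of a separable polynomial -/
theorem exists_roots {L : Type} [Field L] [Algebra K L] (F : Polynomial K) (hF : F.Separable)
    (hs : (F.map (algebraMap K L)).Splits) : ∃ r : Fin F.natDegree → L, Function.Injective r ∧
      (∀ i, Polynomial.aeval (r i) F = 0) ∧
      ∀ j, algebraMap K L (F.coeff j) = algebraMap K L F.leadingCoeff *
        (∏ i, (Polynomial.X - Polynomial.C (r i))).coeff j := by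
  classical
  have hF0 : F ≠ 0 := hF.ne_zero
  have hcard := Polynomial.card_rootSet_eq_natDegree hF hs
  let e := (Fintype.equivFinOfCardEq hcard).symm
  refine ⟨fun i => (e i : L), fun i j hij => e.injective (Subtype.ext hij), fun i => ?_, ?_⟩
  · exact ((Polynomial.mem_rootSet).1 (e i).2).2
  · have hroots : (F.map (algebraMap K L)).roots =
        (Finset.univ : Finset (Fin F.natDegree)).val.map (fun i => (e i : L)) := by
      have hnd : (F.map (algebraMap K L)).roots.Nodup := Polynomial.nodup_roots hF.map
      have hnd2 : ((Finset.univ : Finset (Fin F.natDegree)).val.map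
          (fun i => (e i : L))).Nodup :=
        Multiset.Nodup.map (fun i j hij => e.injective (Subtype.ext hij)) Finset.univ.nodup
      rw [Multiset.Nodup.ext hnd hnd2]
      intro x
      rw [Multiset.mem_map]
      have hF0' : F.map (algebraMap K L) ≠ 0 := Polynomial.map_ne_zero hF0
      constructor
      · intro hx
        have hx' : x ∈ F.rootSet L := by
          rw [Polynomial.mem_rootSet]
          refine ⟨hF0, ?_⟩
          rw [Polynomial.mem_roots hF0', Polynomial.IsRoot, Polynomial.eval_map_algebraMap] at hx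
          exact hx
        exact ⟨e.symm ⟨x, hx'⟩, (Finset.mem_univ (e.symm ⟨x, hx'⟩) : _), by simp⟩
      · rintro ⟨i, _, rfl⟩
        rw [Polynomial.mem_roots hF0', Polynomial.IsRoot, Polynomial.eval_map_algebraMap]
        exact ((Polynomial.mem_rootSet).1 (e i).2).2
    have hprod := hs.eq_prod_roots
    rw [hroots, Multiset.map_map] at hprod
    intro j
    rw [← Polynomial.coeff_map]
    conv_lhs => rw [hprod]
    rw [Polynomial.coeff_C_mul, Polynomial.leadingCoeff_map]
    rfl

end split

variable {k K : Type} [Field k] [Field K] [Algebra k K]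

theorem alg_roots {L : Type} [Field L] [Algebra k L] [Algebra K L] [IsScalarTower k K L]
    [Algebra.IsAlgebraic K L] (F : Polynomial K)
    (halg : Algebra.IsAlgebraic (Algebra.adjoin k {x | ∃ i j, x = F.coeff i / F.coeff j}) K)
    {d : ℕ} (r : Fin d → L) {lead : K} (hlead : lead ≠ 0)
    (hcoef : ∀ j, algebraMap K L (F.coeff j) = algebraMap K L lead *
        (∏ i, (Polynomial.X - Polynomial.C (r i))).coeff j) :
    Algebra.IsAlgebraic (Algebra.adjoin k (Set.range r)) L := by
  rw [← IntermediateField.isAlgebraic_adjoin_iff_top]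
  set E := IntermediateField.adjoin k (Set.range r) with hE
  set S : Set K := {x | ∃ i j, x = F.coeff i / F.coeff j} with hS
  have hr : ∀ i, r i ∈ E := fun i => IntermediateField.subset_adjoin k _ ⟨i, rfl⟩
  have hc : ∀ j, (∏ i, (Polynomial.X - Polynomial.C (r i))).coeff j ∈ E := by
    intro j
    have h1 : (∏ i, (Polynomial.X - Polynomial.C (r i))) =
        (∏ i, (Polynomial.X - Polynomial.C (⟨r i, hr i⟩ : E))).map (algebraMap E L) := by
      rw [Polynomial.map_prod]
      refine Finset.prod_congr rfl fun i _ => ?_
      rw [Polynomial.map_sub, Polynomial.map_X, Polynomial.map_C]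
      rfl
    rw [h1, Polynomial.coeff_map]
    exact SetLike.coe_mem _
  have hSE : ∀ x ∈ S, algebraMap K L x ∈ E := by
    rintro _ ⟨i, j, rfl⟩
    rw [map_div₀, hcoef i, hcoef j, mul_div_mul_left _ _ ((map_ne_zero _).2 hlead)]
    exact E.div_mem (hc i) (hc j)
  have h1 : Algebra.IsAlgebraic (Algebra.adjoin k S) L :=
    Algebra.IsAlgebraic.trans (Algebra.adjoin k S) K L
  have hle : Algebra.adjoin k S ≤ E.toSubalgebra.comap (IsScalarTower.toAlgHom k K L) := by
    rw [Algebra.adjoin_le_iff]
    intro x hx
    exact hSE x hx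
  let φ : Algebra.adjoin k S →+* E :=
    ((algebraMap K L).comp (Algebra.adjoin k S).val.toRingHom).codRestrict E
      (fun x => hle x.2)
  let _ : Algebra (Algebra.adjoin k S) E := φ.toAlgebra
  have hst : IsScalarTower (Algebra.adjoin k S) E L :=
    IsScalarTower.of_algebraMap_eq fun x => rfl
  have hinj : Function.Injective (algebraMap (Algebra.adjoin k S) E) := by
    intro x y hxy
    have h2 : algebraMap K L (x : K) = algebraMap K L (y : K) := congrArg Subtype.val hxy
    exact Subtype.ext ((algebraMap K L).injective h2)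
  exact Algebra.IsAlgebraic.extendScalars (R := Algebra.adjoin k S) hinj

theorem sum_smul_der {L : Type} [Field L] [Algebra k L] {w : ℕ} (v : Fin w → L)
    (E : Fin w → Derivation k L L) (x : L) :
    (∑ i, v i • E i : Derivation k L L) x = ∑ i, v i * E i x := by
  classical
  have h0 : ∀ (s : Finset (Fin w)), (∑ i ∈ s, v i • E i : Derivation k L L) x
      = ∑ i ∈ s, v i * E i x := by
    intro s
    induction s using Finset.induction_on with
    | empty => simp
    | insert i s hi ih =>
      rw [Finset.sum_insert hi, Finset.sum_insert hi, Derivation.add_apply, ih]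
      rfl
  exact h0 _

/-- **The algebraic core**, for a given Galois extension which contains the roots. -/
theorem core' [IsAlgClosed k] [CharZero k] {L : Type} [Field L] [Algebra k L] [Algebra K L]
    [IsScalarTower k K L] [FiniteDimensional K L] [IsGalois K L] {w : ℕ}
    (htr : Algebra.trdeg k K = w) (F : Polynomial K) (hF : F.Separable)
    (hs : (F.map (algebraMap K L)).Splits)
    (hS : Algebra.IsAlgebraic (Algebra.adjoin k (F.rootSet L)) L)
    {q : ℕ} (a : Fin q → k) (ha : Function.Injective a) (A : ℕ) (c : Fin q → ℕ)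
    (hcA : ∀ i, c i ≤ A)
    (hbound : A * (F.natDegree + w * (F.natDegree + 1 - w)) < ∑ i, c i)
    (h0 : ∀ i, F.eval (algebraMap k K (a i)) ≠ 0) (Bd : Place k K → Prop)
    (hram : ∀ P : Place k K, Divisorial w P → ¬ Bd P → ∀ j0, F.coeff j0 ≠ 0 →
      (∀ j, F.coeff j = 0 ∨ P.ord (F.coeff j0) ≤ P.ord (F.coeff j)) →
      ∀ i, P.ord (F.eval (algebraMap k K (a i))) = P.ord (F.coeff j0) ∨
        (A : ℤ) ≤ ((A : ℤ) - c i) *
          (P.ord (F.eval (algebraMap k K (a i))) - P.ord (F.coeff j0))) :
    LogGeneralType k K w Bd := by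
  classical
  have hF0 : F ≠ 0 := hF.ne_zero
  have hchK : CharZero K := charZero_of_injective_algebraMap (algebraMap k K).injective
  have hinf : Infinite k := inferInstance
  obtain ⟨r, hr, hroot, hcoef⟩ := exists_roots (L := L) F hF hs
  have hlead : F.leadingCoeff ≠ 0 := Polynomial.leadingCoeff_ne_zero.2 hF0
  have hrange : F.rootSet L ⊆ Set.range r := by
    intro x hx
    rw [Polynomial.mem_rootSet] at hx
    have h1 : (F.map (algebraMap K L)).eval x = 0 := by
      rw [Polynomial.eval_map_algebraMap]; exact hx.2
    have h2 : F.map (algebraMap K L) = Polynomial.C (algebraMap K L F.leadingCoeff) *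
        ∏ i, (Polynomial.X - Polynomial.C (r i)) := by
      ext j
      rw [Polynomial.coeff_map, Polynomial.coeff_C_mul]
      exact hcoef j
    rw [h2, Polynomial.eval_mul, Polynomial.eval_C, Polynomial.eval_prod] at h1
    have h3 := (mul_eq_zero.1 h1).resolve_left ((map_ne_zero _).2 hlead)
    obtain ⟨i, _, hi⟩ := Finset.prod_eq_zero_iff.1 h3
    rw [Polynomial.eval_sub, Polynomial.eval_X, Polynomial.eval_C, sub_eq_zero] at hi
    exact ⟨i, hi.symm⟩
  have hS : Algebra.IsAlgebraic (Algebra.adjoin k (Set.range r)) L := by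
    have hle := Algebra.adjoin_mono (R := k) hrange
    let _ : Algebra (Algebra.adjoin k (F.rootSet L)) (Algebra.adjoin k (Set.range r)) :=
      (Subalgebra.inclusion hle).toRingHom.toAlgebra
    have : IsScalarTower (Algebra.adjoin k (F.rootSet L)) (Algebra.adjoin k (Set.range r)) L :=
      IsScalarTower.of_algebraMap_eq fun x => rfl
    exact Algebra.IsAlgebraic.extendScalars (R := Algebra.adjoin k (F.rootSet L))
      (Subalgebra.inclusion_injective hle)
  have htrL : Algebra.trdeg k L = w := by rw [trdeg_ext (K := K), htr]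
  obtain ⟨ι, hι, hιne, J, hwd, hcard, hJb, hJr, hcov⟩ := exists_families htrL r hS
  obtain ⟨ii, yy, hbas⟩ := exists_norm_basis (K := K) htr r hS
  set x : Fin w → K := fun j => Algebra.norm K (r (ii j) - algebraMap k L (yy j)) with hx
  have hb2 : A * (F.natDegree + w * Fintype.card ι) < ∑ i, c i :=
    lt_of_le_of_lt (Nat.mul_le_mul_left _ (Nat.add_le_add_left
      (Nat.mul_le_mul_left _ hcard) _)) hbound
  have hA : 0 < A := by
    rcases Nat.eq_zero_or_pos A with h | h
    · exfalso
      rw [h, zero_mul] at hb2
      have : ∑ i, c i = 0 := Finset.sum_eq_zero fun i _ => by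
        have := hcA i
        omega
      omega
    · exact h
  have h0' : ∀ i, ev K (F.natDegree + 1) F.coeff (algebraMap k K (a i)) ≠ 0 := fun i => by
    rw [ev_eq_eval]; exact h0 i
  have hroot' : ∀ i, ev L (F.natDegree + 1) F.coeff (r i) = 0 := fun i => by
    rw [ev_eq_aeval]; exact hroot i
  have hmin : ∀ P : Place k K, ∃ j0, F.coeff j0 ≠ 0 ∧
      ∀ j, F.coeff j = 0 ∨ P.ord (F.coeff j0) ≤ P.ord (F.coeff j) := by
    intro P
    obtain ⟨j0, hj0, hj1⟩ := Finset.exists_min_image F.support (fun j => P.ord (F.coeff j))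
      (Polynomial.support_nonempty.2 hF0)
    refine ⟨j0, Polynomial.mem_support_iff.1 hj0, fun j => ?_⟩
    by_cases hj : F.coeff j = 0
    · exact Or.inl hj
    · exact Or.inr (hj1 j (Polynomial.mem_support_iff.2 hj))
  let ψ : Fin (w + 1) → K := Fin.cases 1 x
  have hψ : ∀ j, ψ j = 1 ∨ ∃ (i : Fin F.natDegree) (y : k),
      ψ j = Algebra.norm K (r i - algebraMap k L y) := by
    intro j
    refine Fin.cases ?_ (fun j => ?_) j
    · exact Or.inl rfl
    · exact Or.inr ⟨ii j, yy j, rfl⟩
  let ω : Fin (w + 1) → (Fin w → Derivation k K K) → K := fun j =>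
    phi F.leadingCoeff A c a J (F.natDegree + 1) F.coeff (ψ j)
  refine ⟨htr, A * (Fintype.card ι * Module.finrank K L), ?_, ω, ?_, ?_, ?_, ?_⟩
  · exact Nat.mul_pos hA (Nat.mul_pos Fintype.card_pos Module.finrank_pos)
  · intro j
    exact phi_pluri _ _ _ _ _ _ _ _
  · intro P _ j D hD
    obtain ⟨j0, hj0, hj1⟩ := hmin P
    exact reg_phi (b := false) D hD F.coeff (c0 := P.ord (F.coeff j0)) (fun j _ => hj1 j) hj0 rfl
      a ha A c hcA h0' (fun h => absurd h (by simp)) hlead r hr hroot' hcoef J hJr hcov hb2 (ψ j)
      (hψ j)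
  · intro P hP hBd j D hD
    obtain ⟨j0, hj0, hj1⟩ := hmin P
    exact reg_phi (b := true) D hD F.coeff (c0 := P.ord (F.coeff j0)) (fun j _ => hj1 j) hj0 rfl
      a ha A c hcA h0' (fun _ i => by
        rw [ev_eq_eval]; exact hram P hP hBd j0 hj0 hj1 i) hlead r hr hroot' hcoef J hJr hcov hb2
      (ψ j) (hψ j)
  · -- vector fields on which the forms do not vanish
    have hD : ∀ i : Fin w, ∃ D : Derivation k K K, ∀ j, D (x j) = if i = j then 1 else 0 :=
      fun i => exists_der x hbas (fun j => if i = j then 1 else 0)
    choose D hD using hD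
    have hE : ∀ i, ∃ E : Derivation k L L, ∀ x : K, E (algebraMap K L x) =
        algebraMap K L (D i x) := fun i => exists_ext (D i)
    choose E hE using hE
    have hdet : ∀ l, (Matrix.of fun i j => E i (J l j)).det ≠ 0 := by
      intro l hl
      obtain ⟨v, hv0, hv⟩ := Matrix.exists_vecMul_eq_zero_iff.2 hl
      have h1 : (∑ i, v i • E i : Derivation k L L) = 0 := by
        apply der_ext (J l) (hJb l)
        intro j
        rw [sum_smul_der]
        have := congrFun hv j
        exact this
      apply hv0
      funext j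
      have h2 : (∑ i, v i • E i : Derivation k L L) (algebraMap K L (x j)) = v j := by
        rw [sum_smul_der, Finset.sum_eq_single j]
        · rw [hE, hD, if_pos rfl, map_one, mul_one]
        · intro i _ hij
          rw [hE, hD, if_neg hij, map_zero, mul_zero]
        · intro h
          exact absurd (Finset.mem_univ j) h
      rw [h1] at h2
      exact h2.symm
    have hder : ∀ i (t : L), Polynomial.aeval t F = 0 →
        ev L (F.natDegree + 1) (fun j => D i (F.coeff j)) t =
          (- Polynomial.aeval t (Polynomial.derivative F)) * E i t := by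
      intro i t ht
      have h1 := der_ev (hE i) (F.natDegree + 1) F.coeff t
      rw [ev_eq_aeval, ht, map_zero] at h1
      have h2 : (∑ j ∈ Finset.range (F.natDegree + 1), algebraMap K L (F.coeff j) *
          ((j : L) * t ^ (j - 1))) = Polynomial.aeval t (Polynomial.derivative F) := by
        exact sum_derivative F t
      rw [h2] at h1
      linear_combination -h1
    have hphi : ω 0 D ≠ 0 := by
      change phi F.leadingCoeff A c a J (F.natDegree + 1) F.coeff 1 D ≠ 0
      unfold phi
      have hden : den F.leadingCoeff A c a J ≠ 0 := by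
        unfold den
        refine mul_ne_zero (pow_ne_zero _ hlead) (Finset.prod_ne_zero_iff.2 fun l _ =>
          Finset.prod_ne_zero_iff.2 fun j _ => Finset.prod_ne_zero_iff.2 fun i _ =>
            pow_ne_zero _ (norm_ne (sub_ne_zero.2 ?_)))
        intro h
        obtain ⟨i', hi'⟩ := hJr l j
        have h3 := hroot' i'
        rw [← hi', h, ev_const, map_eq_zero] at h3
        exact h0' i h3
      refine mul_ne_zero (div_ne_zero one_ne_zero hden) (pow_ne_zero _
        (Finset.prod_ne_zero_iff.2 fun l _ => norm_ne ?_))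
      have h1 : mat (F.natDegree + 1) F.coeff (J l) D = Matrix.of fun i j =>
          (fun j => - Polynomial.aeval (J l j) (Polynomial.derivative F)) j *
            (Matrix.of fun i j => E i (J l j)) i j := by
        ext i j
        obtain ⟨i', hi'⟩ := hJr l j
        exact hder i (J l j) (by rw [hi']; exact hroot i')
      rw [h1, Matrix.det_mul_row (fun j => - Polynomial.aeval (J l j) (Polynomial.derivative F))
        (Matrix.of fun i j => E i (J l j))]
      refine mul_ne_zero (Finset.prod_ne_zero_iff.2 fun j _ => neg_ne_zero.2 ?_) (hdet l)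
      obtain ⟨i', hi'⟩ := hJr l j
      rw [hi']
      exact hF.aeval_derivative_ne_zero (hroot i')
    refine ⟨D, hphi, ?_⟩
    have h2 : (fun i : Fin w => ω i.succ D / ω 0 D) = x := by
      funext i
      rw [div_eq_iff hphi]
      change phi F.leadingCoeff A c a J (F.natDegree + 1) F.coeff (x i) D =
        x i * phi F.leadingCoeff A c a J (F.natDegree + 1) F.coeff 1 D
      unfold phi
      ring
    rw [h2]
    exact hbas.1

/-- **The algebraic core.** -/
theorem core [IsAlgClosed k] [CharZero k] {w : ℕ} (htr : Algebra.trdeg k K = w)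
    (F : Polynomial K) (hF : F.Separable)
    (halg : Algebra.IsAlgebraic (Algebra.adjoin k {x | ∃ i j, x = F.coeff i / F.coeff j}) K)
    {q : ℕ} (a : Fin q → k) (ha : Function.Injective a) (A : ℕ) (c : Fin q → ℕ)
    (hcA : ∀ i, c i ≤ A)
    (hbound : A * (F.natDegree + w * (F.natDegree + 1 - w)) < ∑ i, c i)
    (h0 : ∀ i, F.eval (algebraMap k K (a i)) ≠ 0) (Bd : Place k K → Prop)
    (hram : ∀ P : Place k K, Divisorial w P → ¬ Bd P → ∀ j0, F.coeff j0 ≠ 0 →
      (∀ j, F.coeff j = 0 ∨ P.ord (F.coeff j0) ≤ P.ord (F.coeff j)) →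
      ∀ i, P.ord (F.eval (algebraMap k K (a i))) = P.ord (F.coeff j0) ∨
        (A : ℤ) ≤ ((A : ℤ) - c i) *
          (P.ord (F.eval (algebraMap k K (a i))) - P.ord (F.coeff j0))) :
    LogGeneralType k K w Bd := by
  have hF0 : F ≠ 0 := hF.ne_zero
  have hgal : IsGalois K F.SplittingField := IsGalois.of_separable_splitting_field hF
  have hs := Polynomial.SplittingField.splits F
  obtain ⟨r, hr, hroot, hcoef⟩ := exists_roots (L := F.SplittingField) F hF hs
  have hlead : F.leadingCoeff ≠ 0 := Polynomial.leadingCoeff_ne_zero.2 hF0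
  have hS := alg_roots F halg r hlead hcoef
  have hle : Algebra.adjoin k (Set.range r) ≤ Algebra.adjoin k (F.rootSet F.SplittingField) := by
    apply Algebra.adjoin_mono
    rintro _ ⟨i, rfl⟩
    rw [Polynomial.mem_rootSet]
    exact ⟨hF0, hroot i⟩
  have hS2 : Algebra.IsAlgebraic (Algebra.adjoin k (F.rootSet F.SplittingField))
      F.SplittingField := by
    let _ : Algebra (Algebra.adjoin k (Set.range r))
        (Algebra.adjoin k (F.rootSet F.SplittingField)) :=
      (Subalgebra.inclusion hle).toRingHom.toAlgebra
    have : IsScalarTower (Algebra.adjoin k (Set.range r))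
        (Algebra.adjoin k (F.rootSet F.SplittingField)) F.SplittingField :=
      IsScalarTower.of_algebraMap_eq fun x => rfl
    exact Algebra.IsAlgebraic.extendScalars (R := Algebra.adjoin k (Set.range r))
      (Subalgebra.inclusion_injective hle)
  exact core' (L := F.SplittingField) htr F hF hs hS2 a ha A c hcA hbound h0 Bd hram

end Pool.Agent.Y190.BV
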