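import Pool.Agent.Y190.BV.Bez

/-!
If the subvarieties which are not of general type are dense, then the variety is ruled.
-/

set_option autoImplicit false

open FF Pool.Agent.W603.LV Pool.Agent.W602.GT Polynomial

namespace Pool.Agent.Y190.BV

variable {k : Type} [Field k] {N : ℕ} {K : Type} [Field K] [Algebra k K] {n m w : ℕ} {ι : Type}

/-- all points over extensions are specialisations of the generic point -/
theorem rels_of_gen [IsAlgClosed k] {F : ι → MvPolynomial (Fin (N + 1)) k} {y : Fin (N + 1) → K}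
    (hgen : ∀ G : MvPolynomial (Fin (N + 1)) k, IsForm G → val y G = 0 → ∀ x ∈ Cone F, val x G = 0)
    {M : Type} [Field M] [Algebra k M] {x : Fin (N + 1) → M} (hx0 : x ≠ 0)
    (hx : ∀ e, val x (F e) = 0) (G : MvPolynomial (Fin (N + 1)) k) (hG : IsForm G)
    (h : val y G = 0) : val x G = 0 := by
  by_contra hne
  obtain ⟨i, hi⟩ := Function.ne_iff.1 hx0
  have hH : MvPolynomial.aeval x (G * MvPolynomial.X i) ≠ 0 := by
    rw [map_mul, MvPolynomial.aeval_X]
    exact mul_ne_zero hne hi
  obtain ⟨x', hx', hx'0⟩ := specialise x _ hH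
  rw [map_mul, MvPolynomial.aeval_X] at hx'
  have h1 := left_ne_zero_of_mul hx'
  have h2 := right_ne_zero_of_mul hx'
  exact h1 (hgen G hG h x' ⟨fun h => h2 (congrFun h i), fun e => hx'0 _ (hx e)⟩)

theorem val_div {M : Type} [Field M] [Algebra k M] {G : MvPolynomial (Fin (N + 1)) k}
    (hG : IsForm G) {x : Fin (N + 1) → M} (c : M) (h : val x G = 0) :
    val (fun i => x i / c) G = 0 := by
  obtain ⟨d, hd⟩ := hG
  have h1 := val_smul hd (c⁻¹) x
  rw [h, mul_zero] at h1
  have h2 : (fun i => x i / c) = fun i => c⁻¹ * x i := by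
    funext i
    rw [div_eq_mul_inv, mul_comm]
  rw [h2, h1]

theorem root_intp {M : Type} [Field M] [Algebra k M] {a : Fin (N + 1) → k}
    (ha : Function.Injective a) (hm : 1 ≤ m) (hn : n ≤ N) (hmn : m ≤ n) {x ζ : Fin (N + 1) → M}
    {τ : M} (hxζ : ∀ i, x i = (algebraMap k M (a i) - τ) * ζ i)
    (hζ : ∀ l : Rel a (n - m), val ζ (buchi a (n - m) m l) = 0)
    (hx : ∀ l : Rel a n, val x (buchi a n m l) = 0) {i0 : Fin (N + 1)} (hx0 : x i0 ≠ 0) :
    intp a hn (fun i => (x i / x i0) ^ m) ≠ 0 ∧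
    ∃ Q : M[X], intp a hn (fun i => (x i / x i0) ^ m) = (X - C τ) ^ m * Q := by
  have hn' : n - m ≤ N := by omega
  have h1 : ∀ i, (intp a hn (fun i => (x i / x i0) ^ m)).eval (algebraMap k M (a i)) =
      (x i / x i0) ^ m := intp_eval ha hn m (y := fun i => x i / x i0) fun l =>
    val_div (isForm_buchi a n m l) _ (hx l)
  have h2 : ∀ i, (intp a hn' (fun i => ζ i ^ m)).eval (algebraMap k M (a i)) = ζ i ^ m :=
    intp_eval ha hn' m hζ
  refine ⟨fun h0 => ?_, C ((x i0)⁻¹ ^ m) * intp a hn' (fun i => ζ i ^ m), ?_⟩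
  · have h3 := h1 i0
    rw [h0, eval_zero, div_self hx0, one_pow] at h3
    exact zero_ne_one h3
  · refine Polynomial.eq_of_natDegree_lt_card_of_eval_eq _ _
      (f := fun i : Fin (N + 1) => algebraMap k M (a i))
      (fun i j h => ha ((algebraMap k M).injective h)) (fun i => ?_) ?_
    · rw [h1, eval_mul, eval_pow, eval_sub, eval_X, eval_C, eval_mul, eval_C, h2, hxζ i, div_pow,
        mul_pow, inv_pow]
      ring
    · rw [Fintype.card_fin, max_lt_iff]
      refine ⟨Nat.lt_succ_of_le ((intp_natDegree ha hn _).trans hn), ?_⟩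
      have h3 := natDegree_mul_le (p := (X - C τ) ^ m)
        (q := C ((x i0)⁻¹ ^ m) * intp a hn' (fun i => ζ i ^ m))
      have h4 := natDegree_C_mul_le ((x i0)⁻¹ ^ m) (intp a hn' (fun i => ζ i ^ m))
      have h5 := intp_natDegree ha hn' (fun i => ζ i ^ m)
      rw [natDegree_pow, natDegree_X_sub_C, mul_one] at h3
      omega

theorem place_intp {M : Type} [Field M] [Algebra k M] {a : Fin (N + 1) → k} (hn : n ≤ N) (m : ℕ)
    {R : Subalgebra k K} (θ : R →ₐ[k] M) {y : Fin (N + 1) → K} {x : Fin (N + 1) → M}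
    (h : ∀ j, ∃ h : y j ∈ R, θ ⟨y j, h⟩ = x j) :
    ∃ HR : Polynomial R, HR.map (R.val : R →+* K) = intp a hn (fun i => y i ^ m) ∧
      HR.map (θ : R →+* M) = intp a hn (fun i => x i ^ m) := by
  choose h1 h2 using h
  refine ⟨∑ s : Fin (n + 1), C ((⟨y (Fin.castLE (by omega) s), h1 _⟩ : R) ^ m) *
    (bas a hn s).map (algebraMap k R), ?_, ?_⟩
  · unfold intp
    rw [Polynomial.map_sum]
    refine Finset.sum_congr rfl fun s _ => ?_
    rw [Polynomial.map_mul, Polynomial.map_C, Polynomial.map_map]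
    congr 1
  · unfold intp
    rw [Polynomial.map_sum]
    refine Finset.sum_congr rfl fun s _ => ?_
    rw [Polynomial.map_mul, Polynomial.map_C, Polynomial.map_map]
    congr 1
    · congr 1
      rw [map_pow]
      congr 1
      exact h2 _
    · congr 1
      exact θ.comp_algebraMap

section

variable [IsAlgClosed k] [CharZero k]

/-- The specialisations at the generic points of the subvarieties which are not of general type. -/
theorem exists_spec (hm : 2 ≤ m) (hnm : n < 2 * m) (hN : 4 * n + (n + 1) ^ 2 < 2 * (N + 1))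
    {a : Fin (N + 1) → k} (ha : Function.Injective a) {F : ι → MvPolynomial (Fin (N + 1)) k}
    (hsub : Cone F ⊆ Cone (buchi a n m)) {y : Fin (N + 1) → K} {i0 : Fin (N + 1)}
    (h0 : y i0 ≠ 0) (hy : coords k y = ⊤)
    (hgen : ∀ G : MvPolynomial (Fin (N + 1)) k, IsForm G → val y G = 0 →
      ∀ x ∈ Cone F, val x G = 0)
    (hden : ∀ G : MvPolynomial (Fin (N + 1)) k, IsForm G → val y G ≠ 0 →
      ∃ (K' : Type) (_ : Field K') (_ : Algebra k K') (w' : ℕ) (x : Fin (N + 1) → K'),
        SubVar F K' w' x ∧ ¬ GeneralType k K' w' ∧ val x G ≠ 0) (S : Finset K) :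
    m ≤ n ∧ ∃ (M : Type) (_ : Field M) (_ : Algebra k M) (R : Subalgebra k K) (θ : R →ₐ[k] M)
      (x ζ : Fin (N + 1) → M) (τ : M), (∀ s ∈ S, s ∈ R) ∧
      (∀ j, ∃ h : y j / y i0 ∈ R, θ ⟨y j / y i0, h⟩ = x j / x i0) ∧ x i0 ≠ 0 ∧
      (∀ i, x i = (algebraMap k M (a i) - τ) * ζ i) ∧
      (∀ l : Rel a (n - m), val ζ (buchi a (n - m) m l) = 0) ∧
      (∀ l : Rel a n, val x (buchi a n m l) = 0) ∧ Transcendental (coords k ζ) τ := by
  obtain ⟨G, hG, hGy, hGx⟩ := exists_place h0 hy S
  obtain ⟨K', _, _, w', x, hx, hgt, hxG⟩ := hden G hG hGy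
  have hxb : ∀ l : Rel a n, val x (buchi a n m l) = 0 := sub_ext hsub hx.ne hx.mem
  obtain ⟨hmn, τ, ζ, h1, h2, -, h3, -⟩ :=
    structure_thm hm hnm hN ha ⟨hx.ne, hxb, hx.gen, hx.dim⟩ hgt
  obtain ⟨hx0, R, θ, hS, hθ⟩ := hGx K' x (rels_of_gen hgen hx.ne hx.mem) hxG
  exact ⟨hmn, K', inferInstance, inferInstance, R, θ, x, ζ, τ, hS, hθ, hx0, h1, h2, hxb, h3⟩

/-- **Density.** -/
theorem ruled_of_dense (hm : 2 ≤ m) (hnm : n < 2 * m) (hN : 4 * n + (n + 1) ^ 2 < 2 * (N + 1))
    {a : Fin (N + 1) → k} (ha : Function.Injective a) {F : ι → MvPolynomial (Fin (N + 1)) k}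
    (hsub : Cone F ⊆ Cone (buchi a n m)) {y : Fin (N + 1) → K} (hy : SubVar F K w y)
    (hgen : ∀ G : MvPolynomial (Fin (N + 1)) k, IsForm G → val y G = 0 →
      ∀ x ∈ Cone F, val x G = 0)
    (hden : ∀ G : MvPolynomial (Fin (N + 1)) k, IsForm G → val y G ≠ 0 →
      ∃ (K' : Type) (_ : Field K') (_ : Algebra k K') (w' : ℕ) (x : Fin (N + 1) → K'),
        SubVar F K' w' x ∧ ¬ GeneralType k K' w' ∧ val x G ≠ 0) :
    ∃ (t : K) (z : Fin (N + 1) → K), (∀ i, y i = (algebraMap k K (a i) - t) * z i) ∧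
      Transcendental (coords k z) t ∧ IntermediateField.adjoin (coords k z) {t} = ⊤ := by
  classical
  have hchK : CharZero K := charZero_of_injective_algebraMap (algebraMap k K).injective
  have hn : n ≤ N := by nlinarith
  obtain ⟨i0, hi0⟩ : ∃ i0, y i0 ≠ 0 := Function.ne_iff.1 hy.ne
  have hspec := exists_spec hm hnm hN ha hsub hi0 hy.gen hgen hden
  have hmn : m ≤ n := (hspec ∅).1
  have hyb : ∀ l : Rel a n, val y (buchi a n m l) = 0 := sub_ext hsub hy.ne hy.mem
  set H := intp a hn (fun i => (y i / y i0) ^ m) with hHd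
  have hev : ∀ i, H.eval (algebraMap k K (a i)) = (y i / y i0) ^ m :=
    intp_eval ha hn m (y := fun i => y i / y i0) fun l =>
      val_div (isForm_buchi a n m l) _ (hyb l)
  have hH : H ≠ 0 := by
    intro h0
    have h3 := hev i0
    rw [h0, eval_zero, div_self hi0, one_pow] at h3
    exact zero_ne_one h3
  have hHdeg : H.natDegree ≤ n := intp_natDegree ha hn _
  -- a factor of high multiplicity
  obtain ⟨p, hp, hpH⟩ : ∃ p : K[X], Irreducible p ∧ p ^ m ∣ H := by
    by_contra hcon
    push Not at hcon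
    obtain ⟨U, hU⟩ := bezout hH hcon
    obtain ⟨-, M, _, _, R, θ, x, ζ, τ, hS, hθ, hx0, h1, h2, h3, h4⟩ :=
      hspec (Finset.univ.biUnion fun j => cfs (U j))
    obtain ⟨HR, hHR1, hHR2⟩ := place_intp (a := a) hn m θ hθ
    have hUR : ∀ j, ∃ q : Polynomial R, q.map (R.val : R →+* K) = U j := fun j =>
      lift_of_cfs fun s hs => hS s (Finset.mem_biUnion.2 ⟨j, Finset.mem_univ _, hs⟩)
    choose U' hU' using hUR
    have h5 : ∑ j : Fin m, U' j * derivative^[(j : ℕ)] HR = 1 := by
      apply Polynomial.map_injective _ (val_injective R)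
      rw [Polynomial.map_sum, Polynomial.map_one, ← hU]
      refine Finset.sum_congr rfl fun j _ => ?_
      rw [Polynomial.map_mul, hU', ← Polynomial.iterate_derivative_map, hHR1]
    have h6 := congrArg (fun p => (p.map (θ : R →+* M)).eval τ) h5
    simp only [Polynomial.map_sum, Polynomial.map_one, eval_one, eval_finsetSum,
      Polynomial.map_mul, ← Polynomial.iterate_derivative_map, hHR2, eval_mul] at h6
    obtain ⟨-, Q, hQ⟩ := root_intp ha (by omega : 1 ≤ m) hn hmn h1 h2 h3 hx0
    rw [Finset.sum_eq_zero] at h6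
    · exact zero_ne_one h6
    · intro j _
      have h7 := Polynomial.pow_sub_dvd_iterate_derivative_of_pow_dvd (j : ℕ)
        (Dvd.intro Q hQ.symm)
      have h8 : (X - C τ) ∣ derivative^[(j : ℕ)] (intp a hn fun i => (x i / x i0) ^ m) :=
        (dvd_pow_self _ (by have := j.2; omega)).trans h7
      rw [dvd_iff_isRoot] at h8
      rw [h8.eq_zero, mul_zero]
  have hp1 : p.natDegree = 1 := by
    have h1 := Polynomial.natDegree_le_of_dvd hpH hH
    rw [Polynomial.natDegree_pow] at h1
    have h2 := hp.natDegree_pos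
    by_contra hne
    have h3 : 2 ≤ p.natDegree := by omega
    have h4 : m * 2 ≤ m * p.natDegree := Nat.mul_le_mul_left m h3
    omega
  obtain ⟨t, ht⟩ : ∃ t : K, p.eval t = 0 := by
    have h1 := Polynomial.exists_root_of_degree_eq_one (p := p)
      ((Polynomial.degree_eq_iff_natDegree_eq_of_pos one_pos).2 hp1)
    obtain ⟨t, ht⟩ := h1
    exact ⟨t, ht⟩
  obtain ⟨H', hH'⟩ : (Polynomial.X - Polynomial.C t) ^ m ∣ H :=
    (pow_dvd_pow_of_dvd (Polynomial.dvd_iff_isRoot.2 ht) m).trans hpH
  -- the root specialises to the root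
  have hroot : ∀ (M : Type) [Field M] [Algebra k M] (R : Subalgebra k K) (θ : R →ₐ[k] M)
      (x ζ : Fin (N + 1) → M) (τ : M), (∀ s ∈ cfs H', s ∈ R) →
      (∀ j, ∃ h : y j / y i0 ∈ R, θ ⟨y j / y i0, h⟩ = x j / x i0) → x i0 ≠ 0 →
      (∀ i, x i = (algebraMap k M (a i) - τ) * ζ i) →
      (∀ l : Rel a (n - m), val ζ (buchi a (n - m) m l) = 0) →
      (∀ l : Rel a n, val x (buchi a n m l) = 0) → ∀ ht : t ∈ R, θ ⟨t, ht⟩ = τ := by
    intro M _ _ R θ x ζ τ hS hθ hx0 h1 h2 h3 ht
    obtain ⟨HR, hHR1, hHR2⟩ := place_intp (a := a) hn m θ hθ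
    obtain ⟨H'R, hH'R⟩ := lift_of_cfs hS
    have h5 : HR = (X - C (⟨t, ht⟩ : R)) ^ m * H'R := by
      apply Polynomial.map_injective _ (val_injective R)
      rw [hHR1, Polynomial.map_mul, hH'R, Polynomial.map_pow, Polynomial.map_sub,
        Polynomial.map_X, Polynomial.map_C]
      exact hH'
    have h6 := congrArg (fun p => p.map (θ : R →+* M)) h5
    simp only [hHR2, Polynomial.map_mul, Polynomial.map_pow, Polynomial.map_sub,
        Polynomial.map_X, Polynomial.map_C] at h6
    obtain ⟨hne, Q, hQ⟩ := root_intp ha (by omega : 1 ≤ m) hn hmn h1 h2 h3 hx0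
    by_contra hcon
    have h7 : IsCoprime ((X - C τ) ^ m) ((X - C ((θ : R →+* M) ⟨t, ht⟩)) ^ m) := by
      apply IsCoprime.pow
      exact Polynomial.isCoprime_X_sub_C_of_isUnit_sub
        (sub_ne_zero.2 (fun h => hcon h.symm)).isUnit
    have h8 := h7.mul_dvd (Dvd.intro _ hQ.symm) (Dvd.intro _ h6.symm)
    have h9 := natDegree_le_of_dvd h8 hne
    rw [natDegree_mul (pow_ne_zero _ (X_sub_C_ne_zero _)) (pow_ne_zero _ (X_sub_C_ne_zero _)),
      natDegree_pow, natDegree_pow, natDegree_X_sub_C, natDegree_X_sub_C] at h9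
    have h10 := intp_natDegree (K := M) ha hn (fun i => (x i / x i0) ^ m)
    omega
  -- `t` is not constant
  have hat : ∀ i, algebraMap k K (a i) - t ≠ 0 := by
    intro i hi
    obtain ⟨-, M, _, _, R, θ, x, ζ, τ, hS, hθ, hx0, h1, h2, h3, h4⟩ := hspec (cfs H')
    have ht' : t = algebraMap k K (a i) := (sub_eq_zero.1 hi).symm
    have htR : t ∈ R := by rw [ht']; exact R.algebraMap_mem _
    have h5 := hroot M R θ x ζ τ hS hθ hx0 h1 h2 h3 htR
    have h6 : (⟨t, htR⟩ : R) = algebraMap k R (a i) := Subtype.ext ht'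
    rw [h6, AlgHom.commutes] at h5
    apply h4
    rw [← h5, IsScalarTower.algebraMap_apply k (coords k ζ) M]
    exact isAlgebraic_algebraMap _
  set z : Fin (N + 1) → K := fun i => y i / (algebraMap k K (a i) - t) with hz
  have hyz : ∀ i, y i = (algebraMap k K (a i) - t) * z i := by
    intro i
    simp only [hz]
    have := hat i
    field_simp
  have hzi0 : z i0 ≠ 0 := div_ne_zero hi0 (hat i0)
  refine ⟨t, z, hyz, ?_, ?_⟩
  · intro htalg
    let ρ : Fin (N + 1) → K := fun j => z j / z i0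
    have hcz : coords k z = IntermediateField.adjoin k (Set.range ρ) := by
      apply le_antisymm
      · unfold coords
        rw [IntermediateField.adjoin_le_iff]
        rintro _ ⟨i, j, hj, rfl⟩
        have h3 : z i / z j = ρ i / ρ j := by
          simp only [ρ]
          field_simp
        rw [h3]
        exact div_mem (IntermediateField.subset_adjoin k _ ⟨i, rfl⟩)
          (IntermediateField.subset_adjoin k _ ⟨j, rfl⟩)
      · rw [IntermediateField.adjoin_le_iff]
        rintro _ ⟨j, rfl⟩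
        exact IntermediateField.subset_adjoin k _ ⟨j, i0, hzi0, rfl⟩
    have hrep : ∀ s : coords k z, ∃ u v : K, u ∈ Algebra.adjoin k (Set.range ρ) ∧
        v ∈ Algebra.adjoin k (Set.range ρ) ∧ v ≠ 0 ∧ (s : K) = u / v := by
      intro s
      have hs : (s : K) ∈ IntermediateField.adjoin k (Set.range ρ) := by
        rw [← hcz]; exact s.2
      rw [IntermediateField.mem_adjoin_iff_div] at hs
      obtain ⟨u, hu, v, hv, hs⟩ := hs
      by_cases hv0 : v = 0
      · refine ⟨0, 1, Subalgebra.zero_mem _, Subalgebra.one_mem _, one_ne_zero, ?_⟩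
        rw [hs, hv0, div_zero, zero_div]
      · exact ⟨u, v, hu, hv, hv0, hs⟩
    choose u v hu hv hv0 huv using hrep
    set P := minpoly (coords k z) t with hP
    have hPm : P.Monic := minpoly.monic htalg.isIntegral
    obtain ⟨-, M, _, _, R, θ, x, ζ, τ, hS, hθ, hx0, h1, h2, h3, h4⟩ :=
      hspec (cfs H' ∪ {t} ∪ Finset.univ.image (fun i => (algebraMap k K (a i) - t)⁻¹) ∪
        (Finset.range (P.natDegree + 1)).image fun j => (v (P.coeff j))⁻¹)
    have htR : t ∈ R := hS _ (by simp)
    have hS1 : ∀ s ∈ cfs H', s ∈ R := fun s hs => hS s (by simp [hs])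
    have hS2 : ∀ i, (algebraMap k K (a i) - t)⁻¹ ∈ R := fun i => hS _ (by
      simp only [Finset.mem_union, Finset.mem_image, Finset.mem_univ, true_and]
      exact Or.inl (Or.inr ⟨i, rfl⟩))
    have hS3 : ∀ j < P.natDegree + 1, (v (P.coeff j))⁻¹ ∈ R := fun j hj => hS _ (by
      simp only [Finset.mem_union, Finset.mem_image, Finset.mem_range]
      exact Or.inr ⟨j, hj, rfl⟩)
    have hθt : θ ⟨t, htR⟩ = τ := hroot M R θ x ζ τ hS1 hθ hx0 h1 h2 h3 htR
    have hτa : ∀ i, algebraMap k M (a i) - τ ≠ 0 := by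
      intro i hi
      apply h4
      have h5 : τ = algebraMap (coords k ζ) M (algebraMap k (coords k ζ) (a i)) := by
        rw [← IsScalarTower.algebraMap_apply]
        exact (sub_eq_zero.1 hi).symm
      rw [h5]
      exact isAlgebraic_algebraMap _
    have hζ0 : ζ i0 ≠ 0 := by
      intro h0
      apply hx0
      rw [h1, h0, mul_zero]
    -- the values of `θ` on the ratios
    have hρ : ∀ j, ∃ h : ρ j ∈ R, θ ⟨ρ j, h⟩ = ζ j / ζ i0 := by
      intro j
      obtain ⟨hj, hj'⟩ := hθ j
      have hat0 : algebraMap k K (a i0) - t ∈ R := R.sub_mem (R.algebraMap_mem _) htR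
      have hatj : algebraMap k K (a j) - t ∈ R := R.sub_mem (R.algebraMap_mem _) htR
      have e : ρ j = (y j / y i0) * (algebraMap k K (a i0) - t) *
          (algebraMap k K (a j) - t)⁻¹ := by
        simp only [ρ, hz]
        have := hat j
        have := hat i0
        field_simp
      have hmem : ρ j ∈ R := by
        rw [e]
        exact R.mul_mem (R.mul_mem hj hat0) (hS2 j)
      refine ⟨hmem, ?_⟩
      have e1 : (⟨ρ j, hmem⟩ : R) * ⟨algebraMap k K (a j) - t, hatj⟩ =
          ⟨y j / y i0, hj⟩ * ⟨algebraMap k K (a i0) - t, hat0⟩ := by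
        apply Subtype.ext
        change ρ j * (algebraMap k K (a j) - t) = (y j / y i0) * (algebraMap k K (a i0) - t)
        rw [e, mul_assoc, inv_mul_cancel₀ (hat j), mul_one]
      have e2 : ∀ i (h : algebraMap k K (a i) - t ∈ R), θ ⟨algebraMap k K (a i) - t, h⟩ =
          algebraMap k M (a i) - τ := by
        intro i h
        have e3 : (⟨algebraMap k K (a i) - t, h⟩ : R) = algebraMap k R (a i) - ⟨t, htR⟩ :=
          Subtype.ext rfl
        rw [e3, map_sub, AlgHom.commutes, hθt]
      have e4 := congrArg θ e1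
      rw [map_mul, map_mul, e2, e2, hj'] at e4
      have e5 : θ ⟨ρ j, hmem⟩ * (algebraMap k M (a j) - τ) =
          (ζ j / ζ i0) * (algebraMap k M (a j) - τ) := by
        rw [e4, h1 j, h1 i0]
        have := hτa i0
        field_simp
      exact mul_right_cancel₀ (hτa j) e5
    have hA1 : ∀ s ∈ Algebra.adjoin k (Set.range ρ), ∃ h : s ∈ R, θ ⟨s, h⟩ ∈ coords k ζ := by
      intro s hs
      induction hs using Algebra.adjoin_induction with
      | mem s hs =>
        obtain ⟨j, rfl⟩ := hs
        obtain ⟨h, h'⟩ := hρ j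
        refine ⟨h, ?_⟩
        rw [h']
        exact IntermediateField.subset_adjoin k _ ⟨j, i0, hζ0, rfl⟩
      | algebraMap c =>
        refine ⟨R.algebraMap_mem c, ?_⟩
        have : (⟨algebraMap k K c, R.algebraMap_mem c⟩ : R) = algebraMap k R c := rfl
        rw [this, AlgHom.commutes]
        exact (coords k ζ).algebraMap_mem c
      | add s s' _ _ h h' =>
        obtain ⟨h1, h2⟩ := h
        obtain ⟨h1', h2'⟩ := h'
        refine ⟨R.add_mem h1 h1', ?_⟩
        have : (⟨s + s', R.add_mem h1 h1'⟩ : R) = ⟨s, h1⟩ + ⟨s', h1'⟩ := rfl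
        rw [this, map_add]
        exact add_mem h2 h2'
      | mul s s' _ _ h h' =>
        obtain ⟨h1, h2⟩ := h
        obtain ⟨h1', h2'⟩ := h'
        refine ⟨R.mul_mem h1 h1', ?_⟩
        have : (⟨s * s', R.mul_mem h1 h1'⟩ : R) = ⟨s, h1⟩ * ⟨s', h1'⟩ := rfl
        rw [this, map_mul]
        exact mul_mem h2 h2'
    have hcoef : ∀ j, ∃ h : (P.coeff j : K) ∈ R, θ ⟨(P.coeff j : K), h⟩ ∈ coords k ζ := by
      intro j
      by_cases hj : j < P.natDegree + 1
      · obtain ⟨g1, g2⟩ := hA1 _ (hu (P.coeff j))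
        obtain ⟨g3, g4⟩ := hA1 _ (hv (P.coeff j))
        have e : (P.coeff j : K) = u (P.coeff j) * (v (P.coeff j))⁻¹ := by
          conv_lhs => rw [huv (P.coeff j)]
          rw [div_eq_mul_inv]
        have hmem : (P.coeff j : K) ∈ R := by
          rw [e]
          exact R.mul_mem g1 (hS3 j hj)
        refine ⟨hmem, ?_⟩
        have e1 : (⟨_, hmem⟩ : R) * ⟨_, g3⟩ = ⟨_, g1⟩ := by
          apply Subtype.ext
          change (P.coeff j : K) * v (P.coeff j) = u (P.coeff j)
          conv_lhs => rw [huv (P.coeff j)]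
          exact div_mul_cancel₀ _ (hv0 _)
        have e2 : (⟨_, g3⟩ : R) * ⟨_, hS3 j hj⟩ = 1 := by
          apply Subtype.ext
          exact mul_inv_cancel₀ (hv0 _)
        have e3 := congrArg θ e1
        have e4 := congrArg θ e2
        rw [map_mul] at e3 e4
        rw [map_one] at e4
        have e5 : θ ⟨_, g3⟩ ≠ 0 := left_ne_zero_of_mul_eq_one e4
        rw [← eq_div_iff e5] at e3
        rw [e3]
        exact div_mem g2 g4
      · rw [coeff_eq_zero_of_natDegree_lt (by omega)]
        refine ⟨R.zero_mem, ?_⟩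
        have : (⟨((0 : coords k z) : K), R.zero_mem⟩ : R) = 0 := rfl
        rw [this, map_zero]
        exact zero_mem _
    choose hc1 hc2 using hcoef
    -- the relation over the specialisation
    apply h4
    let PR : Polynomial R := ∑ j ∈ Finset.range (P.natDegree + 1),
      C (⟨(P.coeff j : K), hc1 j⟩ : R) * X ^ j
    let PZ : Polynomial (coords k ζ) := ∑ j ∈ Finset.range (P.natDegree + 1),
      C (⟨θ ⟨(P.coeff j : K), hc1 j⟩, hc2 j⟩ : coords k ζ) * X ^ j
    refine ⟨PZ, ?_, ?_⟩
    · intro h0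
      have h5 : PZ.coeff P.natDegree = 1 := by
        simp only [PZ, finset_sum_coeff, coeff_C_mul, coeff_X_pow, mul_ite, mul_one, mul_zero]
        rw [Finset.sum_ite_eq, if_pos (Finset.mem_range.2 (Nat.lt_succ_self _))]
        apply Subtype.ext
        have e : (⟨(P.coeff P.natDegree : K), hc1 _⟩ : R) = 1 := by
          apply Subtype.ext
          change (P.coeff P.natDegree : K) = 1
          rw [hPm.coeff_natDegree]
          rfl
        change θ ⟨(P.coeff P.natDegree : K), hc1 _⟩ = 1
        rw [e, map_one]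
      rw [h0, coeff_zero] at h5
      exact zero_ne_one h5
    · have h5 : aeval t P = 0 := minpoly.aeval _ _
      rw [aeval_eq_sum_range] at h5
      have h6 : ∑ j ∈ Finset.range (P.natDegree + 1),
          (⟨(P.coeff j : K), hc1 j⟩ : R) * ⟨t, htR⟩ ^ j = 0 := by
        apply Subtype.ext
        rw [AddSubmonoidClass.coe_finsetSum]
        exact h5
      have h7 := congrArg θ h6
      rw [map_sum, map_zero] at h7
      simp only [PZ, map_sum, map_mul, map_pow, aeval_X, aeval_C]
      rw [← h7]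
      refine Finset.sum_congr rfl fun j _ => ?_
      rw [map_mul, map_pow, hθt]
      rfl
  · have h1 : (⊤ : IntermediateField k K) ≤
        (IntermediateField.adjoin (coords k z) {t}).restrictScalars k := by
      rw [← hy.gen]
      conv_lhs => unfold coords
      rw [IntermediateField.adjoin_le_iff]
      rintro _ ⟨i, j, hj, rfl⟩
      have hzj : z j ≠ 0 := by
        intro h0
        rw [hyz j, h0, mul_zero] at hj
        exact hj rfl
      have ht : t ∈ IntermediateField.adjoin (coords k z) {t} :=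
        IntermediateField.mem_adjoin_simple_self _ t
      have hc : ∀ c : k, algebraMap k K c ∈ IntermediateField.adjoin (coords k z) {t} := by
        intro c
        have := (IntermediateField.adjoin (coords k z) {t}).algebraMap_mem
          (algebraMap k (coords k z) c)
        rwa [← IsScalarTower.algebraMap_apply k (coords k z) K] at this
      have hr : z i / z j ∈ IntermediateField.adjoin (coords k z) {t} :=
        (IntermediateField.adjoin (coords k z) {t}).algebraMap_mem
          (⟨z i / z j, IntermediateField.subset_adjoin k _ ⟨i, j, hzj, rfl⟩⟩ : coords k z)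
      have e : y i / y j = (algebraMap k K (a i) - t) / (algebraMap k K (a j) - t) *
          (z i / z j) := by
        rw [hyz i, hyz j, div_mul_div_comm]
      rw [e]
      exact mul_mem (div_mem (sub_mem (hc _) ht) (sub_mem (hc _) ht)) hr
    rw [eq_top_iff]
    intro x _
    exact h1 (IntermediateField.mem_top (x := x))

end

end Pool.Agent.Y190.BV
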