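import Pool.Agent.W602.GT.Core
import Pool.Agent.Helper386.D5V.Helper399_FF4

/-!
Orders of the values of a derived polynomial at the roots of the polynomial.
-/

set_option autoImplicit false

open FF Pool.Agent.W603.LV Pool.Agent.W602.GT

namespace Pool.Agent.Y190.BV

section one

variable {k L : Type} [Field k] [Field L] [Algebra k L] (W : Place k L)

/-- the order of the pole of `t` -/
def tau (t : L) : ℤ := max 0 (- W.ord t)

theorem tau_nonneg (t : L) : 0 ≤ tau W t := le_max_left _ _

theorem ge_tau (t : L) : Ge W (- tau W t) t := by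
  right
  have := le_max_right 0 (- W.ord t)
  unfold tau
  omega

theorem ge_sub_const (t : L) (a : k) : Ge W (- tau W t) (t - algebraMap k L a) :=
  (ge_tau W t).sub ((Ge.const a).mono (by have := tau_nonneg W t; omega))

/-- the contact of `t` with the constant `a` -/
def vv (t : L) (a : k) : ℤ := W.ord (t - algebraMap k L a) + tau W t

theorem vv_nonneg {t : L} {a : k} (h : t ≠ algebraMap k L a) : 0 ≤ vv W t a := by
  have h1 := (ge_sub_const W t a).resolve_left (sub_ne_zero.2 h)
  unfold vv
  omega

theorem tau_of_vv {t : L} {a : k} (h : t ≠ algebraMap k L a) (hv : 0 < vv W t a) :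
    tau W t = 0 := by
  by_contra hne
  have h0 : 0 < tau W t := lt_of_le_of_ne (tau_nonneg W t) (Ne.symm hne)
  have h1 : W.ord t < 0 := by
    unfold tau at h0
    rcases max_cases 0 (- W.ord t) with ⟨h2, _⟩ | ⟨h2, _⟩ <;> omega
  have h2 : tau W t = - W.ord t := by
    unfold tau
    exact max_eq_right (by omega)
  have ht : t ≠ 0 := by
    rintro rfl
    rw [W.ord_zero] at h1
    omega
  by_cases ha : a = 0
  · unfold vv at hv
    rw [ha, map_zero, sub_zero, h2] at hv
    omega
  · have h3 : algebraMap k L a ≠ 0 := (map_ne_zero _).2 ha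
    have h4 := (W.ord_add_eq ht (neg_ne_zero.2 h3)
      (by rw [W.ord_neg, W.ord_const ha]; exact h1)).2
    unfold vv at hv
    rw [sub_eq_add_neg, h4, h2] at hv
    omega

theorem ge_coeff_prod {ι : Type} (s : Finset ι) (r : ι → L) (j : ℕ) :
    Ge W (- ∑ i ∈ s, tau W (r i))
      ((∏ i ∈ s, (Polynomial.X - Polynomial.C (r i))).coeff j) := by
  classical
  induction s using Finset.induction_on generalizing j with
  | empty =>
    rw [Finset.prod_empty, Finset.sum_empty, neg_zero, Polynomial.coeff_one]
    by_cases h : j = 0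
    · rw [if_pos h]; exact Ge.one
    · rw [if_neg h]; exact Ge.zero
  | insert i s hi ih =>
    rw [Finset.prod_insert hi, Finset.sum_insert hi, sub_mul, Polynomial.coeff_sub,
      Polynomial.coeff_C_mul]
    refine Ge.sub ?_ ?_
    · cases j with
      | zero => rw [Polynomial.coeff_X_mul_zero]; exact Ge.zero
      | succ j =>
        rw [Polynomial.coeff_X_mul]
        exact (ih j).mono (by have := tau_nonneg W (r i); omega)
    · exact ((ge_tau W (r i)).mul (ih j)).mono (by omega)

theorem ge_pow_sub {x y : L} (hx : Ge W 0 x) (hy : Ge W 0 y) (n : ℕ) :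
    Ge W (W.ord (x - y)) (x ^ n - y ^ n) := by
  induction n with
  | zero => simp only [pow_zero, sub_self]; exact Ge.zero
  | succ n ih =>
    have e : x ^ (n + 1) - y ^ (n + 1) = x * (x ^ n - y ^ n) + (x - y) * y ^ n := by ring
    rw [e]
    refine Ge.add ?_ ?_
    · have := hx.mul ih
      rwa [zero_add] at this
    · have := (ge_ord W (x - y)).mul (hy.pow n)
      rwa [mul_zero, add_zero] at this

end one

variable {k K L : Type} [Field k] [Field K] [Field L] [Algebra k K] [Algebra k L] [Algebra K L]

/-- evaluation of a polynomial given by its coefficients -/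
def ev (L : Type) [Field L] [Algebra K L] (n : ℕ) (f : ℕ → K) (t : L) : L :=
  ∑ j ∈ Finset.range n, algebraMap K L (f j) * t ^ j

theorem ge_ev (W : Place k L) {n d : ℕ} (hn : n ≤ d + 1) (f : ℕ → K) {c : ℤ}
    (hf : ∀ j < n, Ge W c (algebraMap K L (f j))) (t : L) :
    Ge W (c - d * tau W t) (ev L n f t) := by
  unfold ev
  refine Ge.sum _ _ fun j hj => ?_
  rw [Finset.mem_range] at hj
  refine ((hf j hj).mul ((ge_tau W t).pow j)).mono ?_
  have h1 := tau_nonneg W t
  have h2 : (j : ℤ) ≤ d := by omega
  nlinarith

theorem ge_ev_sub (W : Place k L) {n : ℕ} (f : ℕ → K)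
    (hf : ∀ j < n, Ge W 0 (algebraMap K L (f j))) {x y : L} (hx : Ge W 0 x) (hy : Ge W 0 y) :
    Ge W (W.ord (x - y)) (ev L n f x - ev L n f y) := by
  unfold ev
  rw [← Finset.sum_sub_distrib]
  refine Ge.sum _ _ fun j hj => ?_
  rw [Finset.mem_range] at hj
  rw [← mul_sub]
  have := (hf j hj).mul (ge_pow_sub W hx hy j)
  rwa [zero_add] at this

theorem ev_const [IsScalarTower k K L] (n : ℕ) (f : ℕ → K) (a : k) :
    ev L n f (algebraMap k L a) = algebraMap K L (ev K n f (algebraMap k K a)) := by
  unfold ev
  rw [map_sum]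
  refine Finset.sum_congr rfl fun j _ => ?_
  rw [map_mul, map_pow, Algebra.algebraMap_self, RingHom.id_apply,
    ← IsScalarTower.algebraMap_apply k K L]

theorem der_ev_const (D : Derivation k K K) (n : ℕ) (f : ℕ → K) (a : k) :
    D (ev K n f (algebraMap k K a)) = ev K n (fun j => D (f j)) (algebraMap k K a) := by
  unfold ev
  rw [map_sum]
  refine Finset.sum_congr rfl fun j _ => ?_
  simp only [Algebra.algebraMap_self, RingHom.id_apply]
  rw [D.leibniz, ← map_pow, D.map_algebraMap, smul_zero, zero_add, smul_eq_mul, mul_comm]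

/-- The two kinds of derivations: regular (`true`) and logarithmic (`false`). -/
def DKind (b : Bool) (P : Place k K) (D : Derivation k K K) : Prop :=
  if b then DerReg P D else DerLog P D

theorem DKind.int {b : Bool} {P : Place k K} {D : Derivation k K K} (h : DKind b P D) {f : K}
    (hf : Ge P 0 f) : Ge P 0 (D f) := by
  cases b with
  | true => exact h f hf
  | false =>
    by_cases h0 : f = 0
    · rw [h0, map_zero]; exact Ge.zero
    · have h1 : Ge P 0 (D f / f) := h f
      have := h1.mul hf
      rw [div_mul_cancel₀ _ h0] at this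
      simpa using this

/-- a derivation drops the order by at most one, and not at all if it is logarithmic -/
theorem DKind.drop {b : Bool} {P : Place k K} {D : Derivation k K K} (h : DKind b P D) {f : K}
    {n : ℤ} (hf : Ge P n f) : Ge P (n - if b then 1 else 0) (D f) := by
  obtain ⟨p, hp0, hp⟩ := P.surj
  cases b with
  | false =>
    by_cases h0 : f = 0
    · rw [h0, map_zero]; exact Ge.zero
    · have h1 : Ge P 0 (D f / f) := h f
      have := h1.mul hf
      rw [div_mul_cancel₀ _ h0] at this
      simpa using this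
  | true =>
    have hreg : ∀ x, Ge P 0 x → Ge P 0 (D x) := fun x hx => h x hx
    have h1 : Ge P 0 (f / p ^ n) := by
      apply Ge.of_mul' (h := p ^ n) (m := n) (zpow_ne_zero _ hp0)
      · rw [P.ord_zpow, hp, mul_one]
      · rw [mul_div_cancel₀ _ (zpow_ne_zero _ hp0), zero_add]; exact hf
    have h2 := hreg _ h1
    have hpn : Ge P n (p ^ n) := by
      right
      rw [P.ord_zpow, hp, mul_one]
    have hDp : Ge P (n - 1) (D (p ^ n)) := by
      have e : D (p ^ n) = (n : K) * (p ^ (n - 1) * D p) := by
        rw [Derivation.leibniz_zpow]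
        simp only [smul_eq_mul, zsmul_eq_mul]
      rw [e]
      have h3 : Ge P (n - 1) (p ^ (n - 1)) := by
        right
        rw [P.ord_zpow, hp, mul_one]
      have h4 : Ge P 0 (D p) := hreg p (Or.inr (by omega))
      have := (Ge.intCast (P := P) n).mul (h3.mul h4)
      simpa using this
    have e : D f = p ^ n * D (f / p ^ n) + (f / p ^ n) * D (p ^ n) := by
      have e1 : f = p ^ n * (f / p ^ n) := (mul_div_cancel₀ _ (zpow_ne_zero _ hp0)).symm
      conv_lhs => rw [e1]
      rw [D.leibniz]
      simp only [smul_eq_mul]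
    rw [e]
    refine Ge.add ?_ ?_
    · exact (hpn.mul h2).mono (by simp)
    · have := h1.mul hDp
      simpa using this

theorem over_ge {W : Place k L} {P : Place k K} {e : ℕ} (h : Over W P e) {n : ℤ} {f : K}
    (hf : Ge P n f) : Ge W (e * n) (algebraMap K L f) := by
  rcases hf with rfl | hf
  · rw [map_zero]; exact Ge.zero
  · right
    rw [h.2]
    exact mul_le_mul_of_nonneg_left hf (by positivity)

end Pool.Agent.Y190.BV
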