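import Pool.Agent.Y190.BV.Frm

/-!
The order of the forms at a place.
-/

set_option autoImplicit false

open FF Pool.Agent.W603.LV Pool.Agent.W602.GT

namespace Pool.Agent.Y190.BV

variable {k K L : Type} [Field k] [Field K] [Field L] [Algebra k K] [Algebra k L] [Algebra K L]
  [IsScalarTower k K L]

theorem tau_const (W : Place k L) (y : k) : tau W (algebraMap k L y) = 0 := by
  unfold tau
  by_cases h : y = 0
  · rw [h, map_zero, W.ord_zero]; simp
  · rw [W.ord_const h]; simp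

variable {ι : Type} [Fintype ι] {w q d : ℕ}

/-- the total pole order of the roots -/
def TT (W : Place k L) (r : Fin d → L) : ℤ := ∑ i, tau W (r i)

theorem TT_nonneg (W : Place k L) (r : Fin d → L) : 0 ≤ TT W r :=
  Finset.sum_nonneg fun i _ => tau_nonneg W (r i)

theorem cover_le (W : Place k L) (r : Fin d → L) (hr : Function.Injective r)
    (J : ι → Fin w → L) (hcov : ∀ i, (∃ y : k, r i = algebraMap k L y) ∨ ∃ l j, J l j = r i) :
    TT W r ≤ ∑ l, ∑ j, tau W (J l j) := by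
  classical
  unfold TT
  rw [← Finset.sum_product']
  have h1 : ∑ i, tau W (r i) = ∑ i ∈ Finset.univ.filter (fun i => ∃ l j, J l j = r i),
      tau W (r i) := by
    rw [Finset.sum_filter]
    refine Finset.sum_congr rfl fun i _ => ?_
    split_ifs with h
    · rfl
    · rcases hcov i with ⟨y, hy⟩ | h2
      · rw [hy, tau_const]
      · exact absurd h2 h
  rw [h1]
  have h2 : ∀ i ∈ Finset.univ.filter (fun i => ∃ l j, J l j = r i),
      ∃ p : ι × Fin w, J p.1 p.2 = r i := by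
    intro i hi
    obtain ⟨l, j, h⟩ := (Finset.mem_filter.1 hi).2
    exact ⟨(l, j), h⟩
  by_cases hne : Nonempty (ι × Fin w)
  swap
  · rw [Finset.sum_eq_zero fun i hi => absurd ⟨(h2 i hi).choose⟩ hne]
    exact Finset.sum_nonneg fun p _ => tau_nonneg W _
  choose! g hg using h2
  have h3 : ∑ i ∈ Finset.univ.filter (fun i => ∃ l j, J l j = r i), tau W (r i)
      = ∑ p ∈ (Finset.univ.filter (fun i => ∃ l j, J l j = r i)).image g,
        tau W (J p.1 p.2) := by
    rw [Finset.sum_image]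
    · exact Finset.sum_congr rfl fun i hi => by rw [hg i hi]
    · intro x hx y hy hxy
      apply hr
      rw [← hg x hx, ← hg y hy, hxy]
  rw [h3]
  exact Finset.sum_le_sum_of_subset_of_nonneg
    (fun p _ => Finset.mem_product.2 ⟨Finset.mem_univ _, Finset.mem_univ _⟩)
    (fun p _ _ => tau_nonneg W _)

theorem ge_c0 {W : Place k L} {P : Place k K} {e : ℕ} (hWP : Over W P e) {f : ℕ → K} {c0 : ℤ}
    {j0 : ℕ} (hfj0 : f j0 ≠ 0) (hc0 : P.ord (f j0) = c0) {lead : K}
    (r : Fin d → L)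
    (hcoef : ∀ j, algebraMap K L (f j) = algebraMap K L lead *
      (∏ i, (Polynomial.X - Polynomial.C (r i))).coeff j) :
    W.ord (algebraMap K L lead) - TT W r ≤ e * c0 := by
  have h1 := (ge_ord W (algebraMap K L lead)).mul (ge_coeff_prod W Finset.univ r j0)
  rw [← hcoef] at h1
  have h2 := h1.resolve_left ((map_ne_zero _).2 hfj0)
  rw [hWP.2 (f j0), hc0] at h2
  unfold TT
  linarith

variable [FiniteDimensional K L] [IsGalois K L]

theorem ord_den {W : Place k L} {lead : K} (hlead : lead ≠ 0) (A : ℕ) (c : Fin q → ℕ)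
    (a : Fin q → k) (J : ι → Fin w → L) (hJ : ∀ l j i, J l j ≠ algebraMap k L (a i)) :
    den lead A c a J ≠ 0 ∧ W.ord (algebraMap K L (den lead A c a J)) =
      ∑ s : L ≃ₐ[K] L, ∑ l, ∑ j, ((A : ℤ) * W.ord (algebraMap K L lead) +
        ∑ i, (c i : ℤ) * (W.comp (rs s)).ord (J l j - algebraMap k L (a i))) := by
  have hN : ∀ l j i, Algebra.norm K (J l j - algebraMap k L (a i)) ≠ 0 := fun l j i =>
    norm_ne (sub_ne_zero.2 (hJ l j i))
  have h1 : lead ^ (A * Module.finrank K L * w * Fintype.card ι) ≠ 0 := pow_ne_zero _ hlead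
  have h2 : (∏ l, ∏ j, ∏ i, (Algebra.norm K (J l j - algebraMap k L (a i))) ^ c i) ≠ 0 :=
    Finset.prod_ne_zero_iff.2 fun l _ => Finset.prod_ne_zero_iff.2 fun j _ =>
      Finset.prod_ne_zero_iff.2 fun i _ => pow_ne_zero _ (hN l j i)
  refine ⟨mul_ne_zero h1 h2, ?_⟩
  unfold den
  rw [map_mul, W.ord_mul ((map_ne_zero _).2 h1) ((map_ne_zero _).2 h2), map_pow, W.ord_pow]
  have h3 : W.ord (algebraMap K L
      (∏ l, ∏ j, ∏ i, (Algebra.norm K (J l j - algebraMap k L (a i))) ^ c i)) =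
      ∑ l, ∑ j, ∑ i, (c i : ℤ) * ∑ s : L ≃ₐ[K] L,
        (W.comp (rs s)).ord (J l j - algebraMap k L (a i)) := by
    rw [map_prod, ord_prod' W _ _ fun l _ => by
      rw [Ne, map_eq_zero]
      exact Finset.prod_ne_zero_iff.2 fun j _ =>
        Finset.prod_ne_zero_iff.2 fun i _ => pow_ne_zero _ (hN l j i)]
    refine Finset.sum_congr rfl fun l _ => ?_
    rw [map_prod, ord_prod' W _ _ fun j _ => by
      rw [Ne, map_eq_zero]
      exact Finset.prod_ne_zero_iff.2 fun i _ => pow_ne_zero _ (hN l j i)]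
    refine Finset.sum_congr rfl fun j _ => ?_
    rw [map_prod, ord_prod' W _ _ fun i _ => by
      rw [Ne, map_eq_zero]
      exact pow_ne_zero _ (hN l j i)]
    refine Finset.sum_congr rfl fun i _ => ?_
    rw [map_pow, W.ord_pow, ord_norm (sub_ne_zero.2 (hJ l j i))]
  rw [h3]
  have h4 : ∀ s : L ≃ₐ[K] L, ∑ l : ι, ∑ j : Fin w, ((A : ℤ) * W.ord (algebraMap K L lead) +
        ∑ i, (c i : ℤ) * (W.comp (rs s)).ord (J l j - algebraMap k L (a i))) =
      (Fintype.card ι : ℤ) * (w * ((A : ℤ) * W.ord (algebraMap K L lead))) +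
        ∑ l, ∑ j, ∑ i, (c i : ℤ) * (W.comp (rs s)).ord (J l j - algebraMap k L (a i)) := by
    intro s
    simp only [Finset.sum_add_distrib, Finset.sum_const, Finset.card_univ, Fintype.card_fin,
      nsmul_eq_mul]
  rw [Finset.sum_congr rfl fun s _ => h4 s, Finset.sum_add_distrib, Finset.sum_const,
    Finset.card_univ]
  have h5 : Fintype.card (L ≃ₐ[K] L) = Module.finrank K L := by
    rw [← Nat.card_eq_fintype_card]
    exact IsGalois.card_aut_eq_finrank K L
  rw [h5, nsmul_eq_mul]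
  have h6 : ∑ s : L ≃ₐ[K] L, ∑ l : ι, ∑ j : Fin w, ∑ i, (c i : ℤ) *
        (W.comp (rs s)).ord (J l j - algebraMap k L (a i)) =
      ∑ l : ι, ∑ j : Fin w, ∑ i, (c i : ℤ) * ∑ s : L ≃ₐ[K] L,
        (W.comp (rs s)).ord (J l j - algebraMap k L (a i)) := by
    rw [Finset.sum_comm]
    refine Finset.sum_congr rfl fun l _ => ?_
    rw [Finset.sum_comm]
    refine Finset.sum_congr rfl fun j _ => ?_
    rw [Finset.sum_comm]
    refine Finset.sum_congr rfl fun i _ => ?_
    rw [Finset.mul_sum]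
  rw [h6]
  push_cast
  ring

/-- **The forms have no poles.** -/
theorem ge_phi {W : Place k L} {P : Place k K} {e : ℕ} (hWP : Over W P e)
    {b : Bool} (D : Fin w → Derivation k K K) (hD : ∀ i, DKind b P (D i)) (f : ℕ → K) {c0 : ℤ}
    (hf : ∀ j < d + 1, Ge P c0 (f j)) {j0 : ℕ} (hfj0 : f j0 ≠ 0) (hc0 : P.ord (f j0) = c0)
    (a : Fin q → k) (ha : Function.Injective a) (A : ℕ) (c : Fin q → ℕ) (hcA : ∀ i, c i ≤ A)
    (h0 : ∀ i, ev K (d + 1) f (algebraMap k K (a i)) ≠ 0)
    (hram : b = true → ∀ i, P.ord (ev K (d + 1) f (algebraMap k K (a i))) = c0 ∨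
      (A : ℤ) ≤ ((A : ℤ) - c i) * (P.ord (ev K (d + 1) f (algebraMap k K (a i))) - c0))
    {lead : K} (hlead : lead ≠ 0) (r : Fin d → L) (hr : Function.Injective r)
    (hroot : ∀ i, ev L (d + 1) f (r i) = 0)
    (hcoef : ∀ j, algebraMap K L (f j) = algebraMap K L lead *
      (∏ i, (Polynomial.X - Polynomial.C (r i))).coeff j)
    (J : ι → Fin w → L) (hJ : ∀ l j, ∃ i, J l j = r i)
    (hcov : ∀ i, (∃ y : k, r i = algebraMap k L y) ∨ ∃ l j, J l j = r i)
    (hbound : A * (d + w * Fintype.card ι) < ∑ i, c i)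
    (ψ : K) (hψ : Ge W (- ∑ s : L ≃ₐ[K] L, TT (W.comp (rs s)) r) (algebraMap K L ψ)) :
    Ge W 0 (algebraMap K L (phi lead A c a J (d + 1) f ψ D)) := by
  classical
  have hroot' : ∀ l j, ev L (d + 1) f (J l j) = 0 := by
    intro l j
    obtain ⟨i, hi⟩ := hJ l j
    rw [hi]; exact hroot i
  have hJa : ∀ l j i, J l j ≠ algebraMap k L (a i) := by
    intro l j i h
    have := hroot' l j
    rw [h, ev_const, map_eq_zero] at this
    exact h0 i this
  have hent : ∀ (s : L ≃ₐ[K] L) (l : ι) (j : Fin w), ∃ N : ℤ,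
      (∀ D : Derivation k K K, DKind b P D →
        Ge (W.comp (rs s)) N (ev L (d + 1) (fun j => D (f j)) (J l j))) ∧
      (A : ℤ) * (e * c0 - d * tau (W.comp (rs s)) (J l j)) +
        ∑ i, (c i : ℤ) * vv (W.comp (rs s)) (J l j) (a i) ≤ A * N := fun s l j =>
    entry (over_rs hWP s) f hf a ha A c hcA h0 hram (J l j) (hroot' l j)
  choose N hN1 hN2 using hent
  obtain ⟨hden0, hden⟩ := ord_den (W := W) hlead A c a J hJa
  unfold phi
  rw [map_mul, map_div₀, map_pow, map_prod]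
  have h1 := ge_div ((map_ne_zero (algebraMap K L)).2 hden0) hψ
  have h2 : Ge W (∑ l, ∑ s : L ≃ₐ[K] L, ∑ j, N s l j)
      (∏ l, algebraMap K L (Algebra.norm K (mat (d + 1) f (J l) D).det)) := by
    refine Ge.prod _ _ _ fun l _ => ?_
    refine ge_norm _ fun s => ?_
    refine ge_det _ _ _ (fun i j => N s l j) (fun i j => ?_) (fun σ => le_rfl)
    exact hN1 s l j (D i) (hD i)
  refine (h1.mul (h2.pow A)).mono ?_
  rw [hden]
  -- the main inequality
  have h3 : (A : ℤ) * ∑ l, ∑ s : L ≃ₐ[K] L, ∑ j, N s l j =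
      ∑ s : L ≃ₐ[K] L, ∑ l, ∑ j, (A : ℤ) * N s l j := by
    rw [Finset.sum_comm, Finset.mul_sum]
    refine Finset.sum_congr rfl fun s _ => ?_
    rw [Finset.mul_sum]
    refine Finset.sum_congr rfl fun l _ => ?_
    rw [Finset.mul_sum]
  rw [h3]
  have hc1 : ((A : ℤ) * (d + w * Fintype.card ι)) + 1 ≤ ∑ i, (c i : ℤ) := by
    exact_mod_cast hbound
  have hmain : ∀ s : L ≃ₐ[K] L, TT (W.comp (rs s)) r +
      ∑ l, ∑ j, ((A : ℤ) * W.ord (algebraMap K L lead) +
        ∑ i, (c i : ℤ) * (W.comp (rs s)).ord (J l j - algebraMap k L (a i))) ≤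
      ∑ l, ∑ j, (A : ℤ) * N s l j := by
    intro s
    set V := W.comp (rs s) with hV
    have hVP : Over V P e := over_rs hWP s
    have hlV : V.ord (algebraMap K L lead) = W.ord (algebraMap K L lead) := by
      rw [hVP.2, hWP.2]
    have hgc := ge_c0 hVP hfj0 hc0 r hcoef
    rw [hlV] at hgc
    have hcovV := cover_le V r hr J hcov
    have hTT := TT_nonneg V r
    have h4 : ∀ l j, (A : ℤ) * W.ord (algebraMap K L lead) +
        ∑ i, (c i : ℤ) * V.ord (J l j - algebraMap k L (a i)) +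
        ((∑ i, (c i : ℤ) - A * d) * tau V (J l j) - A * TT V r) ≤ (A : ℤ) * N s l j := by
      intro l j
      have h5 := hN2 s l j
      rw [← hV] at h5
      have h6 : ∑ i, (c i : ℤ) * vv V (J l j) (a i) =
          ∑ i, (c i : ℤ) * V.ord (J l j - algebraMap k L (a i)) +
          (∑ i, (c i : ℤ)) * tau V (J l j) := by
        unfold vv
        simp only [mul_add, Finset.sum_add_distrib, Finset.sum_mul]
      rw [h6] at h5
      have h7 : (A : ℤ) * (W.ord (algebraMap K L lead) - TT V r) ≤ A * (e * c0) :=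
        mul_le_mul_of_nonneg_left hgc (by positivity)
      linarith
    have h8 := Finset.sum_le_sum fun l (_ : l ∈ Finset.univ) =>
      Finset.sum_le_sum fun j (_ : j ∈ Finset.univ) => h4 l j
    refine le_trans ?_ h8
    have h9 : ∑ l : ι, ∑ j : Fin w, ((A : ℤ) * W.ord (algebraMap K L lead) +
        ∑ i, (c i : ℤ) * V.ord (J l j - algebraMap k L (a i)) +
        ((∑ i, (c i : ℤ) - A * d) * tau V (J l j) - A * TT V r)) =
        ∑ l : ι, ∑ j : Fin w, ((A : ℤ) * W.ord (algebraMap K L lead) +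
        ∑ i, (c i : ℤ) * V.ord (J l j - algebraMap k L (a i))) +
        ((∑ i, (c i : ℤ) - A * d) * (∑ l, ∑ j, tau V (J l j)) -
          A * (w * Fintype.card ι) * TT V r) := by
      simp only [Finset.sum_add_distrib, Finset.sum_sub_distrib, Finset.mul_sum, Finset.sum_const,
        Finset.card_univ, Fintype.card_fin, nsmul_eq_mul]
      ring
    rw [h9]
    have h10 : (∑ i, (c i : ℤ) - A * d) * TT V r ≤
        (∑ i, (c i : ℤ) - A * d) * (∑ l, ∑ j, tau V (J l j)) := by
      apply mul_le_mul_of_nonneg_left hcovV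
      have : (0 : ℤ) ≤ A * (w * Fintype.card ι) := by positivity
      nlinarith
    have h11 : TT V r ≤ (∑ i, (c i : ℤ) - A * d) * TT V r -
        A * (w * Fintype.card ι) * TT V r := by
      have e1 : (∑ i, (c i : ℤ) - A * d) * TT V r - A * (w * Fintype.card ι) * TT V r =
        (∑ i, (c i : ℤ) - A * (d + w * Fintype.card ι)) * TT V r := by ring
      rw [e1]
      have : (1 : ℤ) ≤ ∑ i, (c i : ℤ) - A * (d + w * Fintype.card ι) := by linarith
      nlinarith
    linarith
  have h12 := Finset.sum_le_sum fun s (_ : s ∈ Finset.univ) => hmain s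
  rw [Finset.sum_add_distrib] at h12
  linarith

/-- The forms are regular or logarithmic at `P`. -/
theorem reg_phi [CharZero k] {P : Place k K}
    {b : Bool} (D : Fin w → Derivation k K K) (hD : ∀ i, DKind b P (D i)) (f : ℕ → K) {c0 : ℤ}
    (hf : ∀ j < d + 1, Ge P c0 (f j)) {j0 : ℕ} (hfj0 : f j0 ≠ 0) (hc0 : P.ord (f j0) = c0)
    (a : Fin q → k) (ha : Function.Injective a) (A : ℕ) (c : Fin q → ℕ) (hcA : ∀ i, c i ≤ A)
    (h0 : ∀ i, ev K (d + 1) f (algebraMap k K (a i)) ≠ 0)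
    (hram : b = true → ∀ i, P.ord (ev K (d + 1) f (algebraMap k K (a i))) = c0 ∨
      (A : ℤ) ≤ ((A : ℤ) - c i) * (P.ord (ev K (d + 1) f (algebraMap k K (a i))) - c0))
    {lead : K} (hlead : lead ≠ 0) (r : Fin d → L) (hr : Function.Injective r)
    (hroot : ∀ i, ev L (d + 1) f (r i) = 0)
    (hcoef : ∀ j, algebraMap K L (f j) = algebraMap K L lead *
      (∏ i, (Polynomial.X - Polynomial.C (r i))).coeff j)
    (J : ι → Fin w → L) (hJ : ∀ l j, ∃ i, J l j = r i)
    (hcov : ∀ i, (∃ y : k, r i = algebraMap k L y) ∨ ∃ l j, J l j = r i)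
    (hbound : A * (d + w * Fintype.card ι) < ∑ i, c i)
    (ψ : K) (hψ : ψ = 1 ∨ ∃ (i : Fin d) (y : k), ψ = Algebra.norm K (r i - algebraMap k L y)) :
    P.Reg (phi lead A c a J (d + 1) f ψ D) := by
  classical
  obtain ⟨S, T, _, hT, hsum⟩ := exists_places_over (K' := L) P
  have hSne : S.Nonempty := by
    by_contra hcon
    rw [Finset.not_nonempty_iff_eq_empty] at hcon
    rw [hcon, Finset.sum_empty] at hsum
    have : 0 < Module.finrank K L := Module.finrank_pos
    omega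
  obtain ⟨W, hW⟩ := hSne
  obtain ⟨e, hWP, _⟩ := hT W hW
  rw [← hWP.reg]
  refine ge_phi hWP D hD f hf hfj0 hc0 a ha A c hcA h0 hram hlead r hr hroot hcoef J hJ hcov
    hbound ψ ?_
  have hTT : 0 ≤ ∑ s : L ≃ₐ[K] L, TT (W.comp (rs s)) r :=
    Finset.sum_nonneg fun s _ => TT_nonneg _ r
  rcases hψ with rfl | ⟨i, y, rfl⟩
  · rw [map_one]
    exact Ge.one.mono (by omega)
  · rw [← Finset.sum_neg_distrib]
    refine ge_norm _ fun s => ?_
    refine (ge_sub_const _ (r i) y).mono ?_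
    have : tau (W.comp (rs s)) (r i) ≤ TT (W.comp (rs s)) r :=
      Finset.single_le_sum (fun j _ => tau_nonneg _ (r j)) (Finset.mem_univ i)
    omega

end Pool.Agent.Y190.BV
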