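import Pool.Agent.Y190.BV.Loc

/-!
Pluricanonical forms from the roots of a polynomial over a function field.
-/

set_option autoImplicit false

open FF Pool.Agent.W603.LV Pool.Agent.W602.GT

namespace Pool.Agent.Y190.BV

variable {k K L : Type} [Field k] [Field K] [Field L] [Algebra k K] [Algebra k L] [Algebra K L]
  [IsScalarTower k K L]

/-- an automorphism over `K` as an automorphism over `k` -/
def rs (s : L ≃ₐ[K] L) : L ≃ₐ[k] L := s.restrictScalars k

theorem over_rs {W : Place k L} {P : Place k K} {e : ℕ} (h : Over W P e) (s : L ≃ₐ[K] L) :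
    Over (W.comp (rs s)) P e := by
  refine ⟨h.1, fun f => ?_⟩
  rw [Place.comp_ord]
  change W.ord (s (algebraMap K L f)) = _
  rw [s.commutes]
  exact h.2 f

section norm

variable [FiniteDimensional K L] [IsGalois K L]

theorem norm_prod (x : L) : algebraMap K L (Algebra.norm K x) = ∏ s : L ≃ₐ[K] L, s x :=
  Algebra.norm_eq_prod_automorphisms K x

theorem ge_norm {W : Place k L} {x : L} (n : (L ≃ₐ[K] L) → ℤ)
    (h : ∀ s, Ge (W.comp (rs s)) (n s) x) :
    Ge W (∑ s, n s) (algebraMap K L (Algebra.norm K x)) := by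
  rw [norm_prod]
  refine Ge.prod _ _ _ fun s _ => ?_
  rcases h s with h | h
  · rw [h, map_zero]; exact Ge.zero
  · exact Or.inr h

theorem ord_norm {W : Place k L} {x : L} (hx : x ≠ 0) :
    W.ord (algebraMap K L (Algebra.norm K x)) = ∑ s : L ≃ₐ[K] L, (W.comp (rs s)).ord x := by
  rw [norm_prod, ord_prod' W _ _ fun s _ => (map_ne_zero_iff _ s.injective).2 hx]
  rfl

theorem norm_ne {x : L} (hx : x ≠ 0) : Algebra.norm K x ≠ 0 := Algebra.norm_ne_zero_iff.2 hx

end norm

variable {ι : Type} [Fintype ι] {w q : ℕ}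

/-- the denominator of the forms -/
noncomputable def den (lead : K) (A : ℕ) (c : Fin q → ℕ) (a : Fin q → k) (J : ι → Fin w → L) : K :=
  lead ^ (A * Module.finrank K L * w * Fintype.card ι) *
    ∏ l, ∏ j, ∏ i, (Algebra.norm K (J l j - algebraMap k L (a i))) ^ c i

/-- the matrix of the values of the derived polynomials -/
noncomputable def mat (n : ℕ) (f : ℕ → K) (J : Fin w → L) (D : Fin w → Derivation k K K) :
    Matrix (Fin w) (Fin w) L := Matrix.of fun i j => ev L n (fun m => D i (f m)) (J j)

/-- the forms -/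
noncomputable def phi (lead : K) (A : ℕ) (c : Fin q → ℕ) (a : Fin q → k) (J : ι → Fin w → L)
    (n : ℕ) (f : ℕ → K) (ψ : K) (D : Fin w → Derivation k K K) : K :=
  ψ / den lead A c a J * (∏ l, Algebra.norm K (mat n f (J l) D).det) ^ A

theorem mat_mul (n : ℕ) (f : ℕ → K) (J : Fin w → L) (B : Matrix (Fin w) (Fin w) K)
    (D : Fin w → Derivation k K K) :
    mat n f J (fun i => ∑ l, B i l • D l) = (B.map (algebraMap K L)) * mat n f J D := by
  ext i j
  rw [Matrix.mul_apply]
  change ev L n (fun m => (∑ l, B i l • D l) (f m)) (J j) =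
    ∑ l, algebraMap K L (B i l) * ev L n (fun m => D l (f m)) (J j)
  have h0 : ∀ (s : Finset (Fin w)) (x : K), (∑ l ∈ s, B i l • D l) x
      = ∑ l ∈ s, B i l * D l x := by
    intro s x
    classical
    induction s using Finset.induction_on with
    | empty => simp
    | insert i s hi ih =>
      rw [Finset.sum_insert hi, Finset.sum_insert hi, Derivation.add_apply, ih]
      rfl
  unfold ev
  simp only [h0, map_sum, map_mul, Finset.sum_mul, Finset.mul_sum]
  rw [Finset.sum_comm]
  refine Finset.sum_congr rfl fun l _ => Finset.sum_congr rfl fun m _ => ?_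
  ring

theorem phi_pluri (lead : K) (A : ℕ) (c : Fin q → ℕ) (a : Fin q → k) (J : ι → Fin w → L)
    (n : ℕ) (f : ℕ → K) (ψ : K) :
    IsPluri (A * (Fintype.card ι * Module.finrank K L)) (phi (k := k) lead A c a J n f ψ) := by
  intro B D
  unfold phi
  have h1 : ∀ l, Algebra.norm K (mat n f (J l) (fun i => ∑ j, B i j • D j)).det =
      B.det ^ Module.finrank K L * Algebra.norm K (mat n f (J l) D).det := by
    intro l
    rw [mat_mul, Matrix.det_mul, map_mul]
    congr 1
    have : (B.map (algebraMap K L)).det = algebraMap K L B.det := by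
      rw [RingHom.map_det]; rfl
    rw [this, Algebra.norm_algebraMap]
  rw [Finset.prod_congr rfl fun l _ => h1 l, Finset.prod_mul_distrib, Finset.prod_const,
    Finset.card_univ, mul_pow, ← pow_mul, ← pow_mul,
    show Module.finrank K L * (Fintype.card ι * A) = A * (Fintype.card ι * Module.finrank K L) by
      ring]
  ring

end Pool.Agent.Y190.BV
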