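import Pool.Agent.Y190.BV.Dens
import Pool.Agent.W602.GT.PsefDefs

/-!
The equivalence of Lang for the closed subvarieties.
-/

set_option autoImplicit false

open FF Pool.Agent.W603.LV Pool.Agent.W602.GT

namespace Pool.Agent.Y190.BV

variable {k : Type} [Field k] {N : ℕ} {K : Type} [Field K] [Algebra k K] {n m w : ℕ} {ι : Type}

/-- the non-density of the special set -/
theorem alg_ne_iff {F : ι → MvPolynomial (Fin (N + 1)) k} {y : Fin (N + 1) → K}
    (hgen : ∀ G : MvPolynomial (Fin (N + 1)) k, IsForm G →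
      (val y G = 0 ↔ ∀ x ∈ Cone F, val x G = 0)) :
    SpAlg F ≠ Cone F ↔ ∃ G : MvPolynomial (Fin (N + 1)) k, IsForm G ∧ val y G ≠ 0 ∧
      ∀ (K' : Type) [Field K'] [Algebra k K'] (w' : ℕ) (x : Fin (N + 1) → K'), 1 ≤ w' →
        SubVar F K' w' x → ¬ GeneralType k K' w' → val x G = 0 := by
  constructor
  · intro h
    by_contra hcon
    push Not at hcon
    apply h
    refine Set.Subset.antisymm (fun x hx => hx.1) fun x hx => ⟨hx, fun G hG hall => ?_⟩
    by_contra hne
    obtain ⟨K', _, _, w', x', hw', hx', hgt, hxG⟩ := hcon G hG fun h0 =>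
      hne ((hgen G hG).1 h0 x hx)
    exact hxG (hall K' w' x' hw' hx' hgt)
  · rintro ⟨G, hG, hGy, hall⟩ heq
    apply hGy
    rw [hgen G hG]
    intro x hx
    rw [← heq] at hx
    exact hx.2 G hG hall

section

variable [IsAlgClosed k] [CharZero k]

/-- **Lang's equivalence.** -/
theorem lang_equiv (hm : 2 ≤ m) (hnm : n < 2 * m) (hN : 4 * n + (n + 1) ^ 2 < 2 * (N + 1))
    {a : Fin (N + 1) → k} (ha : Function.Injective a) {F : ι → MvPolynomial (Fin (N + 1)) k}
    (hF : ∀ e, IsForm (F e)) (hsub : Cone F ⊆ Cone (buchi a n m)) {y : Fin (N + 1) → K}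
    (hw : 1 ≤ w) (hy : SubVar F K w y)
    (hgen : ∀ G : MvPolynomial (Fin (N + 1)) k, IsForm G →
      (val y G = 0 ↔ ∀ x ∈ Cone F, val x G = 0)) :
    [GeneralType k K w, SpAlg F ≠ Cone F, SpGm F ≠ Cone F, SpLine F ≠ Cone F,
      ¬ Ruled k K].TFAE := by
  obtain ⟨h1, h2⟩ := special_sub hm hnm hN ha hF hsub
  have hdense : SpAlg F = Cone F → Ruled k K := by
    intro heq
    obtain ⟨t, z, -, ht, htop⟩ := ruled_of_dense hm hnm hN ha hsub hy
      (fun G hG h => (hgen G hG).1 h) fun G hG hGy => by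
        by_contra hcon
        push Not at hcon
        refine (alg_ne_iff hgen).2 ⟨G, hG, hGy, ?_⟩ heq
        intro K' _ _ w' x _ hx hgt
        by_contra hne
        exact hne (hcon K' inferInstance inferInstance w' x hx hgt)
    exact ⟨coords k z, t, ht, htop⟩
  have hruled : Ruled k K → ¬ GeneralType k K w := by
    rintro ⟨C, t, ht, htop⟩
    exact not_gt_ruled ht htop w
  tfae_have 1 → 5 := fun h h' => hruled h' h
  tfae_have 5 → 2 := fun h h' => h (hdense h')
  tfae_have 2 → 1 := by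
    intro h
    by_contra hgt
    obtain ⟨G, hG, hGy, hall⟩ := (alg_ne_iff hgen).1 h
    exact hGy (hall K w y hw hy hgt)
  tfae_have 2 ↔ 4 := by rw [h1]
  tfae_have 3 ↔ 4 := by rw [h2]
  tfae_finish

end

end Pool.Agent.Y190.BV
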