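import Pool.Agent.Y190.BV.Ent

/-!
The local estimate for the values of a derived polynomial at the roots of the polynomial.
-/

set_option autoImplicit false

open FF Pool.Agent.W603.LV Pool.Agent.W602.GT

namespace Pool.Agent.Y190.BV

variable {k K L : Type} [Field k] [Field K] [Field L] [Algebra k K] [Algebra k L] [Algebra K L]

theorem ev_smul (n : ℕ) (c : K) (f : ℕ → K) (t : L) :
    ev L n (fun j => c * f j) t = algebraMap K L c * ev L n f t := by
  unfold ev
  rw [Finset.mul_sum]
  refine Finset.sum_congr rfl fun j _ => ?_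
  rw [map_mul]
  ring

theorem ev_add (n : ℕ) (f g : ℕ → K) (t : L) :
    ev L n (fun j => f j + g j) t = ev L n f t + ev L n g t := by
  unfold ev
  rw [← Finset.sum_add_distrib]
  refine Finset.sum_congr rfl fun j _ => ?_
  rw [map_add]
  ring

theorem vv_zero {W : Place k L} {t : L} {a b : k} (hab : a ≠ b) (hta : t ≠ algebraMap k L a)
    (htb : t ≠ algebraMap k L b) (h : 0 < vv W t a) : vv W t b = 0 := by
  by_contra hne
  have hb : 0 < vv W t b := lt_of_le_of_ne (vv_nonneg W htb) (Ne.symm hne)
  have ht := tau_of_vv W hta h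
  unfold vv at h hb
  rw [ht, add_zero] at h hb
  have h1 : Ge W 1 (t - algebraMap k L a) := Or.inr (by omega)
  have h2 : Ge W 1 (t - algebraMap k L b) := Or.inr (by omega)
  have h3 := h2.sub h1
  have e : t - algebraMap k L b - (t - algebraMap k L a) = algebraMap k L (a - b) := by
    rw [map_sub]; ring
  rw [e] at h3
  rcases h3 with h3 | h3
  · exact sub_ne_zero.2 hab ((map_eq_zero _).1 h3)
  · rw [W.ord_const (sub_ne_zero.2 hab)] at h3
    omega

/-- **Local estimate.** -/
theorem entry [IsScalarTower k K L] {W : Place k L} {P : Place k K} {e : ℕ} (hWP : Over W P e)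
    {b : Bool} {q d : ℕ} (f : ℕ → K) {c0 : ℤ}
    (hf : ∀ j < d + 1, Ge P c0 (f j)) (a : Fin q → k) (ha : Function.Injective a) (A : ℕ)
    (c : Fin q → ℕ) (hcA : ∀ i, c i ≤ A)
    (h0 : ∀ i, ev K (d + 1) f (algebraMap k K (a i)) ≠ 0)
    (hram : b = true → ∀ i, P.ord (ev K (d + 1) f (algebraMap k K (a i))) = c0 ∨
      (A : ℤ) ≤ ((A : ℤ) - c i) * (P.ord (ev K (d + 1) f (algebraMap k K (a i))) - c0))
    (t : L) (ht : ev L (d + 1) f t = 0) :
    ∃ N : ℤ, (∀ D : Derivation k K K, DKind b P D → Ge W N (ev L (d + 1) (fun j => D (f j)) t)) ∧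
      (A : ℤ) * (e * c0 - d * tau W t) + ∑ i, (c i : ℤ) * vv W t (a i) ≤ A * N := by
  obtain ⟨p, hp0, hp⟩ := P.surj
  have hpc0 : p ^ c0 ≠ 0 := zpow_ne_zero _ hp0
  have hpc : P.ord (p ^ c0) = c0 := by rw [P.ord_zpow, hp, mul_one]
  set f1 : ℕ → K := fun j => f j / p ^ c0 with hf1
  have hff1 : f = fun j => p ^ c0 * f1 j := by
    funext j
    simp only [hf1]
    field_simp
  have hf1i : ∀ j < d + 1, Ge P 0 (f1 j) := by
    intro j hj
    have h1 : Ge P (0 + c0) (p ^ c0 * f1 j) := by
      have := hf j hj
      rw [hff1] at this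
      simpa using this
    exact Ge.of_mul' hpc0 hpc h1
  have het : ev L (d + 1) f1 t = 0 := by
    have h1 := ht
    rw [hff1, ev_smul] at h1
    exact (mul_eq_zero.1 h1).resolve_left ((map_ne_zero _).2 hpc0)
  have hkey : ∀ D : Derivation k K K, ev L (d + 1) (fun j => D (f j)) t =
      algebraMap K L (p ^ c0) * ev L (d + 1) (fun j => D (f1 j)) t := by
    intro D
    have h1 : (fun j => D (f j)) = fun j => p ^ c0 * D (f1 j) + D (p ^ c0) * f1 j := by
      funext j
      conv_lhs => rw [hff1]
      simp only
      rw [D.leibniz]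
      simp only [smul_eq_mul]
      ring
    rw [h1, ev_add, ev_smul, ev_smul, het, mul_zero, add_zero]
  have hpW : Ge W (e * c0) (algebraMap K L (p ^ c0)) := over_ge hWP (Or.inr hpc.ge)
  have hDi : ∀ D : Derivation k K K, DKind b P D →
      ∀ j < d + 1, Ge W 0 (algebraMap K L (D (f1 j))) := by
    intro D hD j hj
    have := over_ge hWP (hD.int (hf1i j hj))
    simpa using this
  have hfi : ∀ j < d + 1, Ge W 0 (algebraMap K L (f1 j)) := by
    intro j hj
    have := over_ge hWP (hf1i j hj)
    simpa using this
  have hta : ∀ i, t ≠ algebraMap k L (a i) := by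
    rintro i rfl
    rw [ev_const, map_eq_zero] at ht
    exact h0 i ht
  by_cases hall : ∀ i, vv W t (a i) = 0
  · refine ⟨e * c0 + (0 - d * tau W t), fun D hD => ?_, ?_⟩
    · rw [hkey]
      exact hpW.mul (ge_ev W le_rfl _ (hDi D hD) t)
    · rw [Finset.sum_eq_zero fun i _ => by rw [hall i, mul_zero]]
      apply le_of_eq
      ring
  · push Not at hall
    obtain ⟨i, hi⟩ := hall
    have hiv : 0 < vv W t (a i) := lt_of_le_of_ne (vv_nonneg W (hta i)) (Ne.symm hi)
    have htau := tau_of_vv W (hta i) hiv
    have hvi : vv W t (a i) = W.ord (t - algebraMap k L (a i)) := by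
      unfold vv
      rw [htau, add_zero]
    have hti : Ge W 0 t := by
      have := ge_tau W t
      rwa [htau, neg_zero] at this
    have hai : Ge W 0 (algebraMap k L (a i)) := Ge.const _
    set v := vv W t (a i) with hv
    have h1 := fun D hD => ge_ev_sub W _ (hDi D hD) hti hai
    have h2 := ge_ev_sub W _ hfi hti hai
    rw [← hvi] at h2
    rw [het, zero_sub, ev_const] at h2
    have h2' := ge_neg_iff h2
    have hei : ev K (d + 1) f (algebraMap k K (a i)) =
        p ^ c0 * ev K (d + 1) f1 (algebraMap k K (a i)) := by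
      conv_lhs => rw [hff1]
      rw [ev_smul, Algebra.algebraMap_self, RingHom.id_apply]
    have hei0 : ev K (d + 1) f1 (algebraMap k K (a i)) ≠ 0 := by
      intro h
      apply h0 i
      rw [hei, h, mul_zero]
    set μ := P.ord (ev K (d + 1) f1 (algebraMap k K (a i))) with hμ
    have hμ' : P.ord (ev K (d + 1) f (algebraMap k K (a i))) = c0 + μ := by
      rw [hei, P.ord_mul hpc0 hei0, hpc]
    have h3 : v ≤ e * μ := by
      have := h2'.resolve_left ((map_ne_zero _).2 hei0)
      rwa [hWP.2] at this
    have h4 : ∀ D : Derivation k K K, DKind b P D →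
        Ge P (μ - if b then 1 else 0) (D (ev K (d + 1) f1 (algebraMap k K (a i)))) :=
      fun D hD => hD.drop (Or.inr le_rfl)
    have h6 : ∀ D : Derivation k K K, DKind b P D →
        Ge W (min v (e * (μ - if b then 1 else 0))) (ev L (d + 1) (fun j => D (f1 j)) t) := by
      intro D hD
      have h5 := over_ge hWP (h4 D hD)
      rw [der_ev_const, ← ev_const] at h5
      have e1 : ev L (d + 1) (fun j => D (f1 j)) t =
          (ev L (d + 1) (fun j => D (f1 j)) t -
            ev L (d + 1) (fun j => D (f1 j)) (algebraMap k L (a i))) +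
          ev L (d + 1) (fun j => D (f1 j)) (algebraMap k L (a i)) := by ring
      rw [e1]
      exact ((h1 D hD).mono (by rw [← hvi]; exact min_le_left _ _)).add
        (h5.mono (min_le_right _ _))
    refine ⟨e * c0 + min v (e * (μ - if b then 1 else 0)), fun D hD => ?_, ?_⟩
    · rw [hkey]
      exact hpW.mul (h6 D hD)
    · have hsum : ∑ l, (c l : ℤ) * vv W t (a l) = c i * v := by
        rw [Finset.sum_eq_single i]
        · intro l _ hl
          rw [vv_zero (fun h => hl (ha h).symm) (hta i) (hta l) hiv, mul_zero]
        · intro h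
          exact absurd (Finset.mem_univ i) h
      rw [hsum, htau]
      have hc : (c i : ℤ) ≤ A := by exact_mod_cast hcA i
      have he : (0 : ℤ) < e := by exact_mod_cast hWP.1
      have hA0 : (0 : ℤ) ≤ A := by positivity
      have hc0' : (0 : ℤ) ≤ c i := by positivity
      have hmain : (c i : ℤ) * v ≤ A * min v (e * (μ - if b then 1 else 0)) := by
        rcases min_cases v (e * (μ - if b then 1 else 0)) with ⟨h, _⟩ | ⟨h, _⟩
        · rw [h]
          exact mul_le_mul_of_nonneg_right hc hiv.le
        · rw [h]
          cases b with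
          | false =>
            simp only [Bool.false_eq_true, if_false, sub_zero]
            calc (c i : ℤ) * v ≤ A * v := mul_le_mul_of_nonneg_right hc hiv.le
              _ ≤ A * (e * μ) := mul_le_mul_of_nonneg_left h3 hA0
          | true =>
            simp only [if_true]
            have hμpos : 0 < μ := by
              by_contra hcon
              push Not at hcon
              have : (e : ℤ) * μ ≤ 0 := mul_nonpos_of_nonneg_of_nonpos he.le hcon
              omega
            have h7 := hram rfl i
            rw [hμ'] at h7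
            have h8 : (A : ℤ) ≤ ((A : ℤ) - c i) * μ := by
              rcases h7 with h7 | h7
              · omega
              · have e2 : c0 + μ - c0 = μ := by ring
                rwa [e2] at h7
            calc (c i : ℤ) * v ≤ c i * (e * μ) := mul_le_mul_of_nonneg_left h3 hc0'
              _ = e * (A * μ - (A - c i) * μ) := by ring
              _ ≤ e * (A * μ - A) := by
                  apply mul_le_mul_of_nonneg_left _ he.le
                  linarith
              _ = A * (e * (μ - 1)) := by ring
      calc (A : ℤ) * (e * c0 - d * 0) + c i * v = A * (e * c0) + c i * v := by ring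
        _ ≤ A * (e * c0) + A * min v (e * (μ - if b then 1 else 0)) := by linarith
        _ = A * (e * c0 + min v (e * (μ - if b then 1 else 0))) := by ring

end Pool.Agent.Y190.BV
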