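import Pool.Agent.Y190.BV.Spec

/-!
Purely transcendental extensions are not of general type.
-/

set_option autoImplicit false

open FF Pool.Agent.W603.LV Pool.Agent.W602.GT

namespace Pool.Agent.Y190.BV

section der

variable {k M K : Type} [Field k] [Field M] [Field K] [Algebra k M] [Algebra k K] [Algebra M K]
  [IsScalarTower k M K]

/-- the constants of a derivation with values in an extension -/
def consts' (E : Derivation k M K) : IntermediateField k M where
  carrier := {x | E x = 0}
  mul_mem' := by
    intro a b ha hb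
    simp only [Set.mem_ofPred_eq] at ha hb ⊢
    rw [E.leibniz, ha, hb]; simp
  add_mem' := by
    intro a b ha hb
    simp only [Set.mem_ofPred_eq] at ha hb ⊢
    rw [map_add, ha, hb, add_zero]
  algebraMap_mem' := fun r => E.map_algebraMap r
  inv_mem' := by
    intro a ha
    simp only [Set.mem_ofPred_eq] at ha ⊢
    by_cases h0 : a = 0
    · rw [h0, inv_zero, map_zero]
    · have h1 : E (a * a⁻¹) = 0 := by
        rw [mul_inv_cancel₀ h0]
        exact E.map_one_eq_zero
      rw [E.leibniz, ha, smul_zero, add_zero] at h1
      exact (smul_eq_zero.1 h1).resolve_left h0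

theorem der_zero' [CharZero k] (E : Derivation k M K) {ι : Type} (x : ι → M)
    (hx : IsTranscendenceBasis k x) (h : ∀ i, E (x i) = 0) : E = 0 := by
  have halg : Algebra.IsAlgebraic (IntermediateField.adjoin k (Set.range x)) M :=
    hx.isAlgebraic_field
  have hle : IntermediateField.adjoin k (Set.range x) ≤ consts' E := by
    rw [IntermediateField.adjoin_le_iff]
    rintro _ ⟨i, rfl⟩
    exact h i
  have halg2 : Algebra.IsAlgebraic (consts' E) M := by
    let _ : Algebra (IntermediateField.adjoin k (Set.range x)) (consts' E) :=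
      (IntermediateField.inclusion hle).toRingHom.toAlgebra
    have : IsScalarTower (IntermediateField.adjoin k (Set.range x)) (consts' E) M :=
      IsScalarTower.of_algebraMap_eq fun x => rfl
    exact Algebra.IsAlgebraic.extendScalars
      (R := IntermediateField.adjoin k (Set.range x))
      (IntermediateField.inclusion hle).toRingHom.injective
  have hchar : CharZero (consts' E) :=
    charZero_of_injective_algebraMap (algebraMap k (consts' E)).injective
  ext f
  have hint : IsIntegral (consts' E) f := (halg2.isAlgebraic f).isIntegral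
  set p := minpoly (consts' E) f with hp
  have h2 : Polynomial.aeval f (Polynomial.derivative p) ≠ 0 :=
    (minpoly.irreducible hint).separable.aeval_derivative_ne_zero (minpoly.aeval _ _)
  have h3 : E (Polynomial.aeval f p) =
      algebraMap M K (Polynomial.aeval f (Polynomial.derivative p)) * E f := by
    have h4 := sum_derivative p f
    rw [← h4, Polynomial.aeval_eq_sum_range, map_sum, map_sum, Finset.sum_mul]
    refine Finset.sum_congr rfl fun j _ => ?_
    have h5 : E ((p.coeff j : consts' E) : M) = 0 := (p.coeff j).2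
    rw [Algebra.smul_def, E.leibniz, E.leibniz_pow]
    have h6 : E (algebraMap (consts' E) M (p.coeff j)) = 0 := h5
    rw [h6, smul_zero, add_zero]
    rw [nsmul_eq_mul, Algebra.smul_def, Algebra.smul_def]
    simp only [map_mul, map_natCast]
    ring
  rw [minpoly.aeval, map_zero] at h3
  exact (mul_eq_zero.1 h3.symm).resolve_left ((_root_.map_ne_zero _).2 h2)

end der

variable {k M K : Type} [Field k] [Field M] [Field K] [Algebra k M] [Algebra k K] [Algebra M K]
  [IsScalarTower k M K]

variable (k) in
/-- a place over a larger field of constants -/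
def resP (P : Place M K) : Place k K where
  ord := P.ord
  ord_zero := P.ord_zero
  ord_mul := P.ord_mul
  ord_add := P.ord_add
  ord_const := by
    intro c hc
    rw [IsScalarTower.algebraMap_apply k M K]
    exact P.ord_const ((_root_.map_ne_zero _).2 hc)
  surj := P.surj

theorem ge_aeval' {P : Place M K} {s : K} (hs : Ge P 0 s) (p : Polynomial M) :
    Ge P 0 (Polynomial.aeval s p) := by
  rw [Polynomial.aeval_eq_sum_range]
  refine Ge.sum _ _ fun i _ => ?_
  rw [Algebra.smul_def]
  have := (Ge.const (P := P) (p.coeff i)).mul (hs.pow i)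
  simpa using this

omit [Field k] [Field K] [Algebra k M] [Algebra k K] [Algebra M K] [IsScalarTower k M K] in
theorem coprime_repr (a b : Polynomial M) (hb : b ≠ 0) : ∃ d a' b' : Polynomial M,
    IsCoprime a' b' ∧ a = d * a' ∧ b = d * b' := by
  classical
  obtain ⟨a', ha'⟩ := EuclideanDomain.gcd_dvd_left a b
  obtain ⟨b', hb'⟩ := EuclideanDomain.gcd_dvd_right a b
  have h1 := EuclideanDomain.gcd_eq_gcd_ab a b
  have hg0 : EuclideanDomain.gcd a b ≠ 0 := by
    intro h0
    rw [h0, zero_mul] at hb'
    exact hb hb'
  refine ⟨EuclideanDomain.gcd a b, a', b', ⟨EuclideanDomain.gcdA a b,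
    EuclideanDomain.gcdB a b, ?_⟩, ha', hb'⟩
  apply mul_left_cancel₀ hg0
  calc EuclideanDomain.gcd a b * (EuclideanDomain.gcdA a b * a' + EuclideanDomain.gcdB a b * b')
      = (EuclideanDomain.gcd a b * a') * EuclideanDomain.gcdA a b +
        (EuclideanDomain.gcd a b * b') * EuclideanDomain.gcdB a b := by ring
    _ = a * EuclideanDomain.gcdA a b + b * EuclideanDomain.gcdB a b := by rw [← ha', ← hb']
    _ = EuclideanDomain.gcd a b * 1 := by rw [← h1, mul_one]

/-- regular derivations of a purely transcendental extension -/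
theorem reg_der {P : Place M K} {s : K} (htop : IntermediateField.adjoin M {s} = ⊤)
    (hs : Ge P 0 s) (E : Derivation k K K) (hE : ∀ c : M, ∃ c' : M, E (algebraMap M K c) =
      algebraMap M K c') (hEs : Ge P 0 (E s)) : DerReg (resP k P) E := by
  have hpol : ∀ p : Polynomial M, Ge P 0 (E (Polynomial.aeval s p)) := by
    intro p
    rw [Polynomial.aeval_eq_sum_range, map_sum]
    refine Ge.sum _ _ fun i _ => ?_
    rw [Algebra.smul_def, E.leibniz, E.leibniz_pow]
    obtain ⟨c', hc'⟩ := hE (p.coeff i)
    rw [hc']
    simp only [smul_eq_mul, nsmul_eq_mul]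
    refine Ge.add ?_ ?_
    · have h1 : Ge P 0 ((i : K)) := Ge.natCast i
      have h2 := (Ge.const (P := P) (p.coeff i)).mul (h1.mul ((hs.pow (i - 1)).mul hEs))
      simpa using h2
    · have h2 := (hs.pow i).mul (Ge.const (P := P) c')
      simpa using h2
  intro f hf
  have hf' : Ge P 0 f := hf
  have hmem : f ∈ IntermediateField.adjoin M {s} := by
    rw [htop]; exact IntermediateField.mem_top
  rw [IntermediateField.mem_adjoin_simple_iff] at hmem
  obtain ⟨a, b, hab⟩ := hmem
  by_cases hb : Polynomial.aeval s b = 0
  · rw [hb, div_zero] at hab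
    rw [hab, map_zero]
    exact Or.inl rfl
  -- reduce to coprime polynomials
  have hb0 : b ≠ 0 := by rintro rfl; simp at hb
  obtain ⟨d, a', b', hcop, ha', hb'⟩ := coprime_repr a b hb0
  have hgs : Polynomial.aeval s d ≠ 0 := by
    intro h0
    apply hb
    rw [hb', map_mul, h0, zero_mul]
  have hfab : f = Polynomial.aeval s a' / Polynomial.aeval s b' := by
    rw [hab]
    conv_lhs => rw [ha', hb']
    rw [map_mul, map_mul, mul_div_mul_left _ _ hgs]
  have hb's : Polynomial.aeval s b' ≠ 0 := by
    intro h0
    apply hb
    rw [hb', map_mul, h0, mul_zero]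
  have hord : P.ord (Polynomial.aeval s b') = 0 := by
    have h1 : 0 ≤ P.ord (Polynomial.aeval s b') := (ge_aeval' hs b').resolve_left hb's
    by_contra hne
    have hpos : 0 < P.ord (Polynomial.aeval s b') := by omega
    have ha's : Ge P 1 (Polynomial.aeval s a') := by
      have h2 : Polynomial.aeval s a' = f * Polynomial.aeval s b' := by
        rw [hfab]; field_simp
      rw [h2]
      have h3 := hf'.mul (Or.inr le_rfl : Ge P (P.ord (Polynomial.aeval s b')) _)
      exact h3.mono (by omega)
    obtain ⟨u, v, huv⟩ := hcop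
    have h4 := congrArg (Polynomial.aeval s) huv
    rw [map_add, map_mul, map_mul, map_one] at h4
    have h5 : Ge P 1 (1 : K) := by
      rw [← h4]
      refine Ge.add ?_ ?_
      · have := (ge_aeval' hs u).mul ha's
        simpa using this
      · have := (ge_aeval' hs v).mul
          ((Or.inr (by omega) : Ge P 1 (Polynomial.aeval s b')))
        simpa using this
    rcases h5 with h5 | h5
    · exact one_ne_zero h5
    · rw [P.ord_one] at h5
      omega
  have h1 : Polynomial.aeval s b' * E f = E (Polynomial.aeval s a') -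
      f * E (Polynomial.aeval s b') := by
    have h2 : Polynomial.aeval s a' = f * Polynomial.aeval s b' := by
      rw [hfab]; field_simp
    rw [h2, E.leibniz]
    simp only [smul_eq_mul]
    ring
  have h3 : Ge P 0 (Polynomial.aeval s b' * E f) := by
    rw [h1]
    refine (hpol a').sub ?_
    have := hf'.mul (hpol b')
    simpa using this
  have h4 : Ge P 0 (E f) := Ge.of_mul' hb's hord (by simpa using h3)
  exact h4

/-- **Ruled varieties are not of general type.** -/
theorem not_gt_ruled [CharZero k] {t : K} (ht : Transcendental M t)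
    (htop : IntermediateField.adjoin M {t} = ⊤) (w : ℕ) : ¬ GeneralType k K w := by
  classical
  rintro ⟨htr, N, hN, ω, hω, hreg, D, hD, -⟩
  have hchM : CharZero M := charZero_of_injective_algebraMap (algebraMap k M).injective
  have hfin : FiniteDimensional (IntermediateField.adjoin M {t}) K := by
    rw [htop]
    apply FiniteDimensional.of_finrank_pos
    rw [IntermediateField.finrank_top]
    exact one_pos
  have hFF : IsFF M K := IsFF.of_finite ht hfin
  have h1 : Algebra.trdeg k M + 1 = w := by
    rw [← htr, ← _root_.trdeg_add_eq (R := k) (S := M) (A := K), IsFF.trdeg (k := M) (K := K)]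
  obtain ⟨w', hw'⟩ : ∃ w' : ℕ, Algebra.trdeg k M = w' := by
    have h2 : Algebra.trdeg k M < Cardinal.aleph0 := by
      refine lt_of_le_of_lt ?_ (Cardinal.natCast_lt_aleph0 (n := w))
      rw [← h1]
      exact self_le_add_right _ _
    obtain ⟨w', hw'⟩ := Cardinal.lt_aleph0.1 h2
    exact ⟨w', hw'⟩
  obtain rfl : w = w' + 1 := by
    rw [hw'] at h1
    exact_mod_cast h1.symm
  obtain ⟨x, hx, -⟩ := exists_basis_in hw' (Set.univ : Set M) ⟨fun z => by
    have : (z : M) ∈ Algebra.adjoin k (Set.univ : Set M) :=
      Algebra.subset_adjoin (Set.mem_univ z)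
    exact isAlgebraic_algebraMap (⟨z, this⟩ : Algebra.adjoin k (Set.univ : Set M))⟩
  have hb0 := hx.sumElim_comp (IsFF.basis (k := M) ht)
  let e : Fin (w' + 1) ≃ Unit ⊕ Fin w' := (Fintype.equivFinOfCardEq (by simp [add_comm])).symm
  set b : Fin (w' + 1) → K := Sum.elim (fun _ => t) (algebraMap M K ∘ x) ∘ e with hb
  have hbb : IsTranscendenceBasis k b := hb0.comp_equiv e
  have hDd : ∀ i : Fin (w' + 1), ∃ E : Derivation k K K, ∀ j, E (b j) = if i = j then 1 else 0 :=
    fun i => exists_der b hbb fun j => if i = j then 1 else 0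
  choose Dd hDd using hDd
  set g := ω 0 Dd with hg
  have hg0 : g ≠ 0 := by
    intro h0
    apply hD
    have h2 := hω 0 (Matrix.of fun i j => D i (b j)) Dd
    have h3 : (fun i => ∑ j, (Matrix.of fun i j => D i (b j) : Matrix _ _ K) i j • Dd j) = D := by
      funext i
      apply der_ext b hbb
      intro l
      rw [sum_smul_der, Finset.sum_eq_single l]
      · rw [hDd, if_pos rfl, mul_one]
        rfl
      · intro j _ hj
        rw [hDd, if_neg hj, mul_zero]
      · intro h
        exact absurd (Finset.mem_univ l) h
    rw [h3] at h2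
    rw [h2, ← hg, h0, mul_zero]
  set i0 : Fin (w' + 1) := e.symm (Sum.inl ()) with hi0
  have hbt : b i0 = t := by simp [hb, hi0]
  have hbx : ∀ l, b (e.symm (Sum.inr l)) = algebraMap M K (x l) := fun l => by simp [hb]
  have hDt : ∀ i, Dd i t = if i = i0 then 1 else 0 := fun i => by rw [← hbt, hDd]
  have hDM0 : ∀ c : M, Dd i0 (algebraMap M K c) = 0 := by
    have h2 : (Dd i0).compAlgebraMap M = 0 := by
      apply der_zero' _ x hx
      intro l
      change Dd i0 (algebraMap M K (x l)) = 0
      rw [← hbx l, hDd, if_neg]
      intro h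
      rw [hi0] at h
      exact absurd (e.symm.injective h) (by simp)
    intro c
    exact congrArg (fun d => d c) h2
  have hDM : ∀ (i : Fin (w' + 1)) (c : M), ∃ c' : M, Dd i (algebraMap M K c) =
      algebraMap M K c' := by
    intro i
    rcases hei : e i with u | l
    · have hi : i = i0 := by
        rw [hi0, Equiv.eq_symm_apply, hei]
      intro c
      exact ⟨0, by rw [hi, hDM0, map_zero]⟩
    · have hi : i = e.symm (Sum.inr l) := by rw [Equiv.eq_symm_apply, hei]
      obtain ⟨D', hD'⟩ := exists_der x hx (fun j => if l = j then 1 else 0)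
      have h2 : (Dd i).compAlgebraMap M - (Algebra.linearMap M K).compDer D' = 0 := by
        apply der_zero' _ x hx
        intro j
        change Dd i (algebraMap M K (x j)) - algebraMap M K (D' (x j)) = 0
        rw [← hbx j, hDd, hD', hi]
        by_cases hlj : l = j
        · rw [if_pos hlj, if_pos (by rw [hlj]), map_one, sub_self]
        · rw [if_neg hlj, if_neg (fun h => hlj (by
            have := e.symm.injective h
            simpa using this)), map_zero, sub_zero]
      intro c
      refine ⟨D' c, ?_⟩
      have h3 := congrArg (fun d => d c) h2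
      exact sub_eq_zero.1 h3
  have hdiv : ∀ P : Place M K, Divisorial (w' + 1) (resP k P) := by
    intro P
    refine ⟨fun j => algebraMap M K (x j), fun F hF => ?_⟩
    have h2 : MvPolynomial.aeval (fun j => algebraMap M K (x j)) F =
        algebraMap M K (MvPolynomial.aeval x F) :=
      MvPolynomial.aeval_algebraMap_apply (R := k) (A := M) (B := K) x F
    have h3 : MvPolynomial.aeval x F ≠ 0 := fun h0 =>
      hF ((injective_iff_map_eq_zero (MvPolynomial.aeval x : MvPolynomial (Fin w') k →ₐ[k] M)).1
        hx.1 F h0)
    have h4 : MvPolynomial.aeval (fun j : Fin (w' + 1 - 1) => algebraMap M K (x j)) F =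
        algebraMap M K (MvPolynomial.aeval x F) := h2
    rw [h4]
    exact ⟨(_root_.map_ne_zero _).2 h3, P.ord_const h3⟩
  have hA : ∀ P : Place M K, 0 ≤ P.ord t → 0 ≤ P.ord g := by
    intro P hP
    have h2 := hreg (resP k P) (hdiv P) 0 Dd fun i => reg_der htop (Or.inr hP) (Dd i) (hDM i) (by
      rw [hDt]
      split_ifs
      · exact Ge.one
      · exact Ge.zero)
    exact (h2 : Ge P 0 g).resolve_left hg0
  have ht0 : t ≠ 0 := by
    rintro rfl
    exact ht isAlgebraic_zero
  have hB : ∀ P : Place M K, P.ord t < 0 → 0 < P.ord g := by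
    intro P hP
    let E : Fin (w' + 1) → Derivation k K K := fun i => if i = i0 then t ^ 2 • Dd i else Dd i
    have htop' : IntermediateField.adjoin M {t⁻¹} = ⊤ := by rw [adjoin_inv, htop]
    have hs : Ge P 0 t⁻¹ := Or.inr (by rw [P.ord_inv]; omega)
    have hinv : ∀ i, Dd i t⁻¹ = - (t⁻¹) ^ 2 * Dd i t := by
      intro i
      rw [(Dd i).leibniz_inv]
      simp only [smul_eq_mul]
    have h2 := hreg (resP k P) (hdiv P) 0 E fun i => reg_der htop' hs (E i) (by
      intro c
      by_cases hi : i = i0
      · refine ⟨0, ?_⟩
        simp only [E, if_pos hi]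
        rw [Derivation.smul_apply, hi, hDM0, smul_zero, map_zero]
      · obtain ⟨c', hc'⟩ := hDM i c
        refine ⟨c', ?_⟩
        simp only [E, if_neg hi]
        exact hc') (by
      by_cases hi : i = i0
      · simp only [E, if_pos hi]
        rw [Derivation.smul_apply, hinv, hDt, if_pos hi]
        have : t ^ 2 • (-t⁻¹ ^ 2 * (1 : K)) = -1 := by
          rw [smul_eq_mul]
          field_simp
        rw [this]
        exact Ge.one.neg
      · simp only [E, if_neg hi]
        rw [hinv, hDt, if_neg hi, mul_zero]
        exact Ge.zero)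
    have h3 := hω 0 (Matrix.diagonal fun i => if i = i0 then t ^ 2 else 1) Dd
    have h4 : (fun i => ∑ j, (Matrix.diagonal fun i => if i = i0 then t ^ 2 else (1 : K)) i j •
        Dd j) = E := by
      funext i
      rw [Finset.sum_eq_single i]
      · rw [Matrix.diagonal_apply_eq]
        by_cases hi : i = i0
        · simp only [E, if_pos hi]
        · simp only [E, if_neg hi, one_smul]
      · intro j _ hj
        rw [Matrix.diagonal_apply_ne' _ hj, zero_smul]
      · intro h
        exact absurd (Finset.mem_univ i) h
    rw [h4, Matrix.det_diagonal, Finset.prod_ite_eq' Finset.univ i0 (fun _ => t ^ 2),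
      if_pos (Finset.mem_univ i0), ← hg] at h3
    have h5 : Ge P 0 (ω 0 E) := h2
    rw [h3] at h5
    have h6 := Ge.of_mul (pow_ne_zero N (pow_ne_zero 2 ht0)) h5
    have h7 := h6.resolve_left hg0
    rw [P.ord_pow, P.ord_pow] at h7
    have h8 : (1 : ℤ) ≤ N := by exact_mod_cast hN
    push_cast at h7
    nlinarith
  obtain ⟨S, hS1, hS2⟩ := poles (k := M) (K := K) ht
  obtain ⟨P0, hP0⟩ : ∃ P0 : Place M K, P0.ord t < 0 := by
    have h2 : 0 < Module.finrank (IntermediateField.adjoin M {t}) K := Module.finrank_pos
    rw [← hS2] at h2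
    obtain ⟨P0, hP0, -⟩ := Finset.exists_ne_zero_of_sum_ne_zero h2.ne'
    exact ⟨P0, (hS1 P0).1 hP0⟩
  have h2 := ddeg_divisor (k := M) g
  have h3 : 0 < ddeg (divisor M g) := by
    unfold ddeg Finsupp.sum
    refine Finset.sum_pos' ?_ ⟨P0, ?_, ?_⟩
    · intro P _
      rw [divisor_apply]
      refine mul_nonneg ?_ (Nat.cast_nonneg _)
      rcases lt_or_ge (P.ord t) 0 with h | h
      · exact (hB P h).le
      · exact hA P h
    · rw [Finsupp.mem_support_iff, divisor_apply]
      exact (hB P0 hP0).ne'
    · rw [divisor_apply]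
      exact mul_pos (hB P0 hP0) (by exact_mod_cast P0.deg_pos)
  omega

end Pool.Agent.Y190.BV
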