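import Pool.Agent.Y190.BV.Rad
import Pool.Agent.W602.GT.SpThm

/-!
The varieties of the vectors whose `m`-th powers are the values of a polynomial of degree at most
`n` at given constants.
-/

set_option autoImplicit false

open FF Pool.Agent.W603.LV Pool.Agent.W602.GT

namespace Pool.Agent.Y190.BV

variable {k : Type} [Field k] {N : ℕ}

/-- the linear relations between the values at the `a i` of the polynomials of degree at most
`n` -/
def Rel (a : Fin (N + 1) → k) (n : ℕ) : Type :=
  {l : Fin (N + 1) → k // ∀ j ≤ n, ∑ i, l i * a i ^ j = 0}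

/-- The equations `∑ l i * x i ^ m = 0`, for the linear relations `l` between the values at the
`a i` of the polynomials of degree at most `n`: so `X = {buchi a n m = 0}` consists of the `x` for
which there is a polynomial `H` of degree at most `n` with `x i ^ m = H (a i)` for all `i`. -/
noncomputable def buchi (a : Fin (N + 1) → k) (n m : ℕ) :
    Rel a n → MvPolynomial (Fin (N + 1)) k := fun l =>
  ∑ i, MvPolynomial.C (l.1 i) * MvPolynomial.X i ^ m

theorem isForm_buchi (a : Fin (N + 1) → k) (n m : ℕ) (l : Rel a n) : IsForm (buchi a n m l) := by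
  refine ⟨m, MvPolynomial.IsHomogeneous.sum _ _ _ fun i _ => ?_⟩
  have h := (MvPolynomial.isHomogeneous_C (Fin (N + 1)) (l.1 i)).mul
    ((MvPolynomial.isHomogeneous_X k i).pow m)
  simpa using h

variable {K : Type} [Field K] [Algebra k K]

theorem val_buchi (a : Fin (N + 1) → k) (n m : ℕ) (l : Rel a n) (y : Fin (N + 1) → K) :
    val y (buchi a n m l) = ∑ i, algebraMap k K (l.1 i) * y i ^ m := by
  unfold val buchi
  simp

theorem mem_of_poly (a : Fin (N + 1) → k) (n m : ℕ) (y : Fin (N + 1) → K) (H : Polynomial K)
    (hH : H.natDegree ≤ n) (hy : ∀ i, H.eval (algebraMap k K (a i)) = y i ^ m) (l : Rel a n) :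
    val y (buchi a n m l) = 0 := by
  rw [val_buchi]
  have h1 : ∀ i, algebraMap k K (l.1 i) * y i ^ m = ∑ j ∈ Finset.range (n + 1),
      H.coeff j * algebraMap k K (l.1 i * a i ^ j) := by
    intro i
    rw [← hy i, Polynomial.eval_eq_sum_range' (Nat.lt_succ_of_le hH), Finset.mul_sum]
    refine Finset.sum_congr rfl fun j _ => ?_
    rw [map_mul, map_pow]
    ring
  rw [Finset.sum_congr rfl fun i _ => h1 i, Finset.sum_comm]
  refine Finset.sum_eq_zero fun j hj => ?_
  rw [← Finset.mul_sum, ← map_sum, l.2 j (by rw [Finset.mem_range] at hj; omega), map_zero,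
    mul_zero]

/-- the interpolation polynomials at the first nodes -/
noncomputable def bas (a : Fin (N + 1) → k) {n : ℕ} (hn : n ≤ N) (s : Fin (n + 1)) :
    Polynomial k := Lagrange.basis Finset.univ (fun i : Fin (n + 1) => a (Fin.castLE (by omega) i)) s

theorem bas_inj {a : Fin (N + 1) → k} (ha : Function.Injective a) {n : ℕ} (hn : n ≤ N) :
    Function.Injective (fun i : Fin (n + 1) => a (Fin.castLE (by omega) i)) := fun _ _ h =>
  Fin.castLE_injective _ (ha h)

theorem bas_natDegree {a : Fin (N + 1) → k} (ha : Function.Injective a) {n : ℕ} (hn : n ≤ N)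
    (s : Fin (n + 1)) : (bas a hn s).natDegree ≤ n := by
  unfold bas
  rw [Lagrange.natDegree_basis ((bas_inj ha hn).injOn) (Finset.mem_univ s)]
  simp

/-- the interpolation polynomial -/
noncomputable def intp (a : Fin (N + 1) → k) {n : ℕ} (hn : n ≤ N) (v : Fin (N + 1) → K) :
    Polynomial K := ∑ s : Fin (n + 1), Polynomial.C (v (Fin.castLE (by omega) s)) *
      (bas a hn s).map (algebraMap k K)

theorem intp_natDegree {a : Fin (N + 1) → k} (ha : Function.Injective a) {n : ℕ} (hn : n ≤ N)
    (v : Fin (N + 1) → K) : (intp a hn v).natDegree ≤ n := by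
  unfold intp
  refine Polynomial.natDegree_sum_le_of_forall_le _ _ fun s _ => ?_
  refine (Polynomial.natDegree_C_mul_le _ _).trans ?_
  rw [Polynomial.natDegree_map]
  exact bas_natDegree ha hn s

theorem intp_eval {a : Fin (N + 1) → k} (ha : Function.Injective a) {n : ℕ} (hn : n ≤ N) (m : ℕ)
    {y : Fin (N + 1) → K} (hy : ∀ l : Rel a n, val y (buchi a n m l) = 0) (i : Fin (N + 1)) :
    (intp a hn (fun i => y i ^ m)).eval (algebraMap k K (a i)) = y i ^ m := by
  classical
  let l : Fin (N + 1) → k := fun j => (if j = i then 1 else 0) -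
    ∑ s : Fin (n + 1), (if j = Fin.castLE (by omega) s then (bas a hn s).eval (a i) else 0)
  have hl : ∀ (M : Type) [Field M] [Algebra k M] (v : Fin (N + 1) → M),
      ∑ j, algebraMap k M (l j) * v j = v i - ∑ s : Fin (n + 1),
        algebraMap k M ((bas a hn s).eval (a i)) * v (Fin.castLE (by omega) s) := by
    intro M _ _ v
    simp only [l, map_sub, sub_mul, Finset.sum_sub_distrib, map_sum, Finset.sum_mul]
    congr 1
    · rw [Finset.sum_eq_single i]
      · simp
      · intro j _ hj
        rw [if_neg hj, map_zero, zero_mul]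
      · intro h
        exact absurd (Finset.mem_univ i) h
    · rw [Finset.sum_comm]
      refine Finset.sum_congr rfl fun s _ => ?_
      rw [Finset.sum_eq_single (Fin.castLE (by omega) s)]
      · rw [if_pos rfl]
      · intro j _ hj
        rw [if_neg hj, map_zero, zero_mul]
      · intro h
        exact absurd (Finset.mem_univ _) h
  have hrel : ∀ j ≤ n, ∑ i, l i * a i ^ j = 0 := by
    intro j hj
    have h1 := hl k (fun i => a i ^ j)
    simp only [Algebra.algebraMap_self, RingHom.id_apply] at h1
    rw [h1, sub_eq_zero]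
    have hinj := (bas_inj ha hn).injOn (s := (Finset.univ : Finset (Fin (n + 1))))
    have h2 : (Polynomial.X ^ j : Polynomial k) = Lagrange.interpolate Finset.univ
        (fun i : Fin (n + 1) => a (Fin.castLE (by omega) i))
        (fun i : Fin (n + 1) => a (Fin.castLE (by omega) i) ^ j) := by
      refine Lagrange.eq_interpolate_of_eval_eq _ hinj ?_ fun i _ => by simp
      rw [Polynomial.degree_X_pow, Finset.card_univ, Fintype.card_fin]
      exact_mod_cast Nat.lt_succ_of_le hj
    have h3 := congrArg (Polynomial.eval (a i)) h2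
    rw [Polynomial.eval_pow, Polynomial.eval_X, Lagrange.interpolate_apply,
      Polynomial.eval_finsetSum] at h3
    rw [h3]
    refine Finset.sum_congr rfl fun s _ => ?_
    rw [Polynomial.eval_mul, Polynomial.eval_C]
    unfold bas
    ring
  have h4 := (val_buchi a n m (⟨l, hrel⟩ : Rel a n) y).symm.trans (hy ⟨l, hrel⟩)
  have h5 := hl K (fun i => y i ^ m)
  change ∑ i, algebraMap k K (l i) * y i ^ m = 0 at h4
  rw [h4] at h5
  have h6 := sub_eq_zero.1 h5.symm
  rw [h6]
  unfold intp
  rw [Polynomial.eval_finsetSum]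
  refine Finset.sum_congr rfl fun s _ => ?_
  rw [Polynomial.eval_mul, Polynomial.eval_C, Polynomial.eval_map_algebraMap,
    Polynomial.aeval_algebraMap_apply, Polynomial.coe_aeval_eq_eval]
  ring

/-- a nonzero polynomial of degree at most `n` has many values which are not zero -/
theorem two_nonzero {a : Fin (N + 1) → k} (ha : Function.Injective a) {d : ℕ} (hd : d + 1 ≤ N)
    {H : Polynomial K} (hH : H ≠ 0) (hdeg : H.natDegree ≤ d) :
    ∃ i j, i ≠ j ∧ H.eval (algebraMap k K (a i)) ≠ 0 ∧ H.eval (algebraMap k K (a j)) ≠ 0 := by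
  classical
  by_contra hcon
  push Not at hcon
  obtain ⟨i0, hi0⟩ : ∃ i0 : Fin (N + 1), ∀ j, j ≠ i0 → H.eval (algebraMap k K (a j)) = 0 := by
    by_cases h : ∃ i0, H.eval (algebraMap k K (a i0)) ≠ 0
    · obtain ⟨i0, hi0⟩ := h
      exact ⟨i0, fun j hj => hcon i0 j (Ne.symm hj) hi0⟩
    · push Not at h
      exact ⟨0, fun j _ => h j⟩
  have h1 : ((Finset.univ.erase i0).image fun i => algebraMap k K (a i)).val ≤ H.roots := by
    rw [Multiset.le_iff_subset (Finset.nodup _)]
    intro x hx
    rw [Finset.mem_val] at hx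
    obtain ⟨j, hj, rfl⟩ := Finset.mem_image.1 hx
    rw [Polynomial.mem_roots hH]
    exact hi0 j (Finset.ne_of_mem_erase hj)
  have h2 := (Multiset.card_le_card h1).trans (Polynomial.card_roots' H)
  rw [Finset.card_val, Finset.card_image_of_injective _
    (fun x y hxy => ha ((algebraMap k K).injective hxy)), Finset.card_erase_of_mem
    (Finset.mem_univ _), Finset.card_univ, Fintype.card_fin] at h2
  omega

/-- the function field is algebraic over the ratios of the coefficients -/
theorem alg_coeffs {m : ℕ} (hm : 1 ≤ m) {a : Fin (N + 1) → k} {y : Fin (N + 1) → K}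
    (hgen : coords k y = ⊤) {H : Polynomial K} (hH : H ≠ 0)
    (hy : ∀ i, H.eval (algebraMap k K (a i)) = y i ^ m) :
    Algebra.IsAlgebraic (Algebra.adjoin k {x | ∃ i j, x = H.coeff i / H.coeff j}) K := by
  rw [← IntermediateField.isAlgebraic_adjoin_iff_top]
  set E := IntermediateField.adjoin k {x | ∃ i j, x = H.coeff i / H.coeff j} with hE
  obtain ⟨j0, hj0⟩ : ∃ j0, H.coeff j0 ≠ 0 := by
    by_contra hcon
    push Not at hcon
    exact hH (Polynomial.ext fun j => by rw [hcon j, Polynomial.coeff_zero])
  have h1 : ∀ i, H.eval (algebraMap k K (a i)) / H.coeff j0 ∈ E := by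
    intro i
    rw [Polynomial.eval_eq_sum_range, Finset.sum_div]
    refine E.sum_mem fun j _ => ?_
    have e : H.coeff j * algebraMap k K (a i) ^ j / H.coeff j0 =
        (H.coeff j / H.coeff j0) * algebraMap k K (a i ^ j) := by
      rw [map_pow]; ring
    rw [e]
    exact E.mul_mem (IntermediateField.subset_adjoin k _ ⟨j, j0, rfl⟩) (E.algebraMap_mem _)
  have h2 : ∀ i j, y j ≠ 0 → IsAlgebraic E (y i / y j) := by
    intro i j hj
    have h3 : (y i / y j) ^ m ∈ E := by
      have e : (y i / y j) ^ m = (H.eval (algebraMap k K (a i)) / H.coeff j0) /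
          (H.eval (algebraMap k K (a j)) / H.coeff j0) := by
        rw [hy i, hy j, div_pow]
        have : y j ^ m ≠ 0 := pow_ne_zero _ hj
        field_simp
      rw [e]
      exact E.div_mem (h1 i) (h1 j)
    have h4 : IsAlgebraic E ((y i / y j) ^ m) :=
      isAlgebraic_algebraMap (⟨_, h3⟩ : E)
    exact IsAlgebraic.of_pow (by omega) h4
  let F1 : IntermediateField E K := algebraicClosure E K
  have h5 : (⊤ : IntermediateField k K) ≤ F1.restrictScalars k := by
    rw [← hgen]
    unfold coords
    rw [IntermediateField.adjoin_le_iff]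
    rintro _ ⟨i, j, hj, rfl⟩
    exact mem_algebraicClosure_iff.2 (h2 i j hj)
  refine ⟨fun x => ?_⟩
  exact mem_algebraicClosure_iff.1 (h5 (IntermediateField.mem_top (x := x)))

theorem general_of_log {w : ℕ} (h : LogGeneralType k K w (fun _ => False)) :
    GeneralType k K w := by
  obtain ⟨h1, M, h2, ω, h3, -, h4, h5⟩ := h
  exact ⟨h1, M, h2, ω, h3, fun P hP j => h4 P hP (fun h => h) j, h5⟩

variable {n m w : ℕ}

/-- if the polynomial has a root of multiplicity `m`, then there is a line through the point -/
theorem line_of_root (hm : 1 ≤ m) {a : Fin (N + 1) → k} (ha : Function.Injective a) {L : Type}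
    [Field L] [Algebra k L] [IsAlgClosed L] (hn : n ≤ N) {y : Fin (N + 1) → L}
    (hy0 : y ≠ 0) {t : L} {H' : Polynomial L} (hdeg : H'.natDegree + m ≤ n)
    (hy : ∀ i, ((Polynomial.X - Polynomial.C t) ^ m * H').eval (algebraMap k L (a i)) =
      y i ^ m) :
    ∃ v : Fin (N + 1) → L, (∃ i j, y i * v j - y j * v i ≠ 0) ∧
      (∀ i, y i = (algebraMap k L (a i) - t) * v i) ∧
      ∀ (c c' : L) (l : Rel a n), val (fun i => c * y i + c' * v i) (buchi a n m l) = 0 := by
  classical
  have hroot : ∀ i, ∃ z : L, z ^ m = H'.eval (algebraMap k L (a i)) := fun i =>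
    IsAlgClosed.exists_pow_nat_eq _ (by omega)
  choose z hz using hroot
  let v : Fin (N + 1) → L := fun i =>
    if algebraMap k L (a i) = t then z i else y i / (algebraMap k L (a i) - t)
  have hyv : ∀ i, y i = (algebraMap k L (a i) - t) * v i := by
    intro i
    by_cases h : algebraMap k L (a i) = t
    · have h1 := hy i
      rw [Polynomial.eval_mul, Polynomial.eval_pow, Polynomial.eval_sub, Polynomial.eval_X,
        Polynomial.eval_C, h, sub_self, zero_pow (by omega), zero_mul] at h1
      rw [eq_zero_of_pow_eq_zero h1.symm, h, sub_self, zero_mul]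
    · simp only [v, if_neg h]
      have : algebraMap k L (a i) - t ≠ 0 := sub_ne_zero.2 h
      field_simp
  have hv : ∀ i, v i ^ m = H'.eval (algebraMap k L (a i)) := by
    intro i
    by_cases h : algebraMap k L (a i) = t
    · simp only [v, if_pos h]
      exact hz i
    · simp only [v, if_neg h]
      have h0 : algebraMap k L (a i) - t ≠ 0 := sub_ne_zero.2 h
      rw [div_pow, ← hy i, Polynomial.eval_mul, Polynomial.eval_pow, Polynomial.eval_sub,
        Polynomial.eval_X, Polynomial.eval_C, mul_div_assoc, mul_div_cancel₀ _ (pow_ne_zero _ h0)]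
  have hH' : H' ≠ 0 := by
    rintro rfl
    apply hy0
    funext i
    have h1 := hy i
    rw [mul_zero, Polynomial.eval_zero] at h1
    exact eq_zero_of_pow_eq_zero h1.symm
  obtain ⟨i, j, hij, hi, hj⟩ := two_nonzero ha (d := H'.natDegree) (by omega) hH' le_rfl
  refine ⟨v, ⟨i, j, ?_⟩, hyv, ?_⟩
  · rw [hyv i, hyv j]
    have e : (algebraMap k L (a i) - t) * v i * v j - (algebraMap k L (a j) - t) * v j * v i =
        algebraMap k L (a i - a j) * (v i * v j) := by
      rw [map_sub]; ring
    rw [e]
    refine mul_ne_zero ((_root_.map_ne_zero _).2 (sub_ne_zero.2 fun h => hij (ha h)))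
      (mul_ne_zero ?_ ?_)
    · intro h0
      rw [← hv i, h0, zero_pow (by omega)] at hi
      exact hi rfl
    · intro h0
      rw [← hv j, h0, zero_pow (by omega)] at hj
      exact hj rfl
  · intro c c' l
    refine mem_of_poly a n m _ ((Polynomial.C c * (Polynomial.X - Polynomial.C t) +
      Polynomial.C c') ^ m * H') ?_ ?_ l
    · refine (Polynomial.natDegree_mul_le).trans ?_
      have h1 : ((Polynomial.C c * (Polynomial.X - Polynomial.C t) +
          Polynomial.C c') ^ m).natDegree ≤ m := by
        refine (Polynomial.natDegree_pow_le).trans ?_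
        have h2 : (Polynomial.C c * (Polynomial.X - Polynomial.C t) +
            Polynomial.C c').natDegree ≤ 1 := by
          refine (Polynomial.natDegree_add_le _ _).trans (max_le ?_ (by simp))
          refine (Polynomial.natDegree_C_mul_le _ _).trans ?_
          rw [Polynomial.natDegree_X_sub_C]
        calc m * _ ≤ m * 1 := Nat.mul_le_mul_left _ h2
          _ = m := mul_one m
      omega
    · intro i
      simp only [Polynomial.eval_mul, Polynomial.eval_pow, Polynomial.eval_add,
        Polynomial.eval_sub, Polynomial.eval_X, Polynomial.eval_C]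
      rw [← hv i, ← mul_pow, hyv i]
      ring

section main

variable [IsAlgClosed k] [CharZero k]

/-- **The dichotomy.** A subvariety which is not of general type consists of points for which the
polynomial has a root of multiplicity at least `m`. -/
theorem dichotomy (hm : 2 ≤ m) (hN : 4 * n + (n + 1) ^ 2 < 2 * (N + 1)) {a : Fin (N + 1) → k}
    (ha : Function.Injective a) {y : Fin (N + 1) → K} (hy : SubVar (buchi a n m) K w y)
    (hgt : ¬ GeneralType k K w) (hn : n ≤ N) : ∃ p : Polynomial K, Irreducible p ∧
      p ^ m ∣ intp a hn (fun i => y i ^ m) := by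
  by_contra hcon
  push Not at hcon
  apply hgt
  set H := intp a hn (fun i => y i ^ m) with hHd
  have hev : ∀ i, H.eval (algebraMap k K (a i)) = y i ^ m := intp_eval ha hn m hy.mem
  have hH : H ≠ 0 := by
    intro h0
    apply hy.ne
    funext i
    have h1 := hev i
    rw [h0, Polynomial.eval_zero] at h1
    exact eq_zero_of_pow_eq_zero h1.symm
  exact general_of_log (core_rad hy.dim hm hN a ha H hH (intp_natDegree ha hn _)
    (alg_coeffs (by omega) hy.gen hH hev) (fun i => ⟨y i, (hev i).symm⟩) hcon)

/-- **The special sets.** -/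
theorem special_buchi (hm : 2 ≤ m) (hN : 4 * n + (n + 1) ^ 2 < 2 * (N + 1))
    {a : Fin (N + 1) → k} (ha : Function.Injective a) :
    SpAlg (buchi a n m) = SpLine (buchi a n m) ∧ SpGm (buchi a n m) = SpLine (buchi a n m) := by
  have hn : n ≤ N := by nlinarith
  have hinf : Infinite k := inferInstance
  have h1 : SpLine (buchi a n m) ⊆ SpGm (buchi a n m) := line_sub_gm _
  have h2 : SpGm (buchi a n m) ⊆ SpAlg (buchi a n m) := gm_sub_alg (isForm_buchi a n m)
  have h3 : SpAlg (buchi a n m) ⊆ SpLine (buchi a n m) := by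
    rintro x ⟨hx, h⟩
    refine ⟨hx, fun G hG hL => h G hG ?_⟩
    intro K _ _ w y hw hy hgt
    obtain ⟨p, hp, hpH⟩ := dichotomy hm hN ha hy hgt hn
    set H := intp a hn (fun i => y i ^ m) with hHd
    have hev : ∀ i, H.eval (algebraMap k K (a i)) = y i ^ m := intp_eval ha hn m hy.mem
    have hH : H ≠ 0 := by
      intro h0
      apply hy.ne
      funext i
      have h1 := hev i
      rw [h0, Polynomial.eval_zero] at h1
      exact eq_zero_of_pow_eq_zero h1.symm
    have hHdeg : H.natDegree ≤ n := intp_natDegree ha hn _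
    let L := AlgebraicClosure K
    let φ : K →ₐ[k] L := IsScalarTower.toAlgHom k K L
    obtain ⟨t, ht⟩ := IsAlgClosed.exists_aeval_eq_zero L p (by
      have := Polynomial.degree_pos_of_irreducible hp
      exact this.ne')
    have hdvd : (Polynomial.X - Polynomial.C t) ^ m ∣ H.map (algebraMap K L) := by
      have h4 : (Polynomial.X - Polynomial.C t) ∣ p.map (algebraMap K L) := by
        rw [Polynomial.dvd_iff_isRoot, Polynomial.IsRoot, Polynomial.eval_map_algebraMap]
        exact ht
      have h5 := pow_dvd_pow_of_dvd h4 m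
      rw [← Polynomial.map_pow] at h5
      exact h5.trans (Polynomial.map_dvd _ hpH)
    obtain ⟨H', hH'⟩ := hdvd
    have hH'0 : H' ≠ 0 := by
      rintro rfl
      rw [mul_zero] at hH'
      exact (Polynomial.map_ne_zero hH) hH'
    have hdeg : H'.natDegree + m ≤ n := by
      have h4 := congrArg Polynomial.natDegree hH'
      rw [Polynomial.natDegree_map, Polynomial.natDegree_mul
        (pow_ne_zero _ (Polynomial.X_sub_C_ne_zero t)) hH'0, Polynomial.natDegree_pow,
        Polynomial.natDegree_X_sub_C, mul_one] at h4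
      omega
    let y' : Fin (N + 1) → L := fun i => φ (y i)
    have hy'0 : y' ≠ 0 := by
      intro h0
      apply hy.ne
      funext i
      have := congrFun h0 i
      exact φ.toRingHom.injective (by rw [Pi.zero_apply, map_zero]; exact this)
    have hy' : ∀ i, ((Polynomial.X - Polynomial.C t) ^ m * H').eval (algebraMap k L (a i)) =
        y' i ^ m := by
      intro i
      rw [← hH', IsScalarTower.algebraMap_apply k K L, Polynomial.eval_map_algebraMap,
        Polynomial.aeval_algebraMap_apply, Polynomial.coe_aeval_eq_eval, hev i, map_pow]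
      rfl
    obtain ⟨v, hv1, -, hv3⟩ := line_of_root (by omega : 1 ≤ m) ha hn hy'0 hdeg
      hy'
    have h6 := mem_closure y' v hv1 hv3 hL
    have h7 := val_map φ G y
    change φ (val y G) = val y' G at h7
    rw [h6] at h7
    exact φ.toRingHom.injective (by rw [map_zero]; exact h7)
  exact ⟨Set.Subset.antisymm h3 (h1.trans h2), Set.Subset.antisymm (h2.trans h3) h1⟩

end main

end Pool.Agent.Y190.BV
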