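import Pool.Agent.Y190.BV.Sub
import Pool.Agent.W602.GT.Orb

/-!
Specialisation of the function field of a projective variety at a point over an extension field.
-/

set_option autoImplicit false

open FF Pool.Agent.W603.LV Pool.Agent.W602.GT

namespace Pool.Agent.Y190.BV

variable {k : Type} [Field k] {N : ℕ} {K : Type} [Field K] [Algebra k K]

/-- homogenisation -/
theorem exists_homog (i0 : Fin (N + 1)) (p : MvPolynomial (Fin (N + 1)) k) :
    ∃ (D : ℕ) (P : MvPolynomial (Fin (N + 1)) k), IsForm P ∧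
      ∀ (M : Type) [Field M] [Algebra k M] (z : Fin (N + 1) → M), z i0 ≠ 0 →
        val z P = z i0 ^ D * MvPolynomial.aeval (fun j => z j / z i0) p := by
  classical
  set D := p.totalDegree with hD
  let P : MvPolynomial (Fin (N + 1)) k := ∑ a ∈ p.support,
    MvPolynomial.monomial (a + Finsupp.single i0 (D - ∑ j, a j)) (p.coeff a)
  have hle : ∀ a ∈ p.support, ∑ j, a j ≤ D := by
    intro a ha
    have h1 := MvPolynomial.le_totalDegree ha
    rw [Finsupp.sum_fintype _ _ (fun _ => rfl)] at h1
    exact h1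
  refine ⟨D, P, ?_, ?_⟩
  · refine ⟨D, MvPolynomial.IsHomogeneous.sum _ _ _ fun a ha => ?_⟩
    apply MvPolynomial.isHomogeneous_monomial
    rw [Finsupp.degree_eq_sum]
    simp only [Finsupp.add_apply, Finset.sum_add_distrib]
    rw [← Finsupp.degree_eq_sum (Finsupp.single i0 _), Finsupp.degree_single]
    have := hle a ha
    omega
  · intro M _ _ z hz
    rw [MvPolynomial.aeval_def, MvPolynomial.eval₂_eq', Finset.mul_sum]
    unfold val
    rw [map_sum]
    refine Finset.sum_congr rfl fun a ha => ?_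
    rw [MvPolynomial.aeval_monomial, Finsupp.prod_fintype _ _ (fun j => pow_zero _)]
    have h1 : ∏ j, z j ^ (a + Finsupp.single i0 (D - ∑ j, a j)) j =
        (∏ j, z j ^ a j) * z i0 ^ (D - ∑ j, a j) := by
      simp only [Finsupp.add_apply, pow_add, Finset.prod_mul_distrib]
      congr 1
      rw [Finset.prod_eq_single i0]
      · simp
      · intro j _ hj
        rw [Finsupp.single_eq_of_ne hj, pow_zero]
      · intro hj
        exact absurd (Finset.mem_univ _) hj
    have h2 : ∏ j, (z j / z i0) ^ a j = (∏ j, z j ^ a j) / z i0 ^ (∑ j, a j) := by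
      simp only [div_pow, Finset.prod_div_distrib]
      rw [Finset.prod_pow_eq_pow_sum]
    have h3 : z i0 ^ D = z i0 ^ (∑ j, a j) * z i0 ^ (D - ∑ j, a j) := by
      rw [← pow_add, Nat.add_sub_cancel' (hle a ha)]
    rw [h1, h2, h3]
    have h4 : z i0 ^ (∑ j, a j) ≠ 0 := pow_ne_zero _ hz
    field_simp

theorem val_mul' {M : Type} [Field M] [Algebra k M] (x : Fin (N + 1) → M)
    (P Q : MvPolynomial (Fin (N + 1)) k) : val x (P * Q) = val x P * val x Q := map_mul _ _ _

theorem IsForm.mul' {P Q : MvPolynomial (Fin (N + 1)) k} (hP : IsForm P) (hQ : IsForm Q) :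
    IsForm (P * Q) := by
  obtain ⟨d, hd⟩ := hP
  obtain ⟨e, he⟩ := hQ
  exact ⟨d + e, hd.mul he⟩

/-- **Specialisation.** For every finite set of rational functions there is a form such that the
functions are regular at all points where the form does not vanish. -/
theorem exists_place {y : Fin (N + 1) → K} {i0 : Fin (N + 1)} (h0 : y i0 ≠ 0)
    (hgen : coords k y = ⊤) (S : Finset K) :
    ∃ G : MvPolynomial (Fin (N + 1)) k, IsForm G ∧ val y G ≠ 0 ∧
      ∀ (M : Type) [Field M] [Algebra k M] (x : Fin (N + 1) → M),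
        (∀ G' : MvPolynomial (Fin (N + 1)) k, IsForm G' → val y G' = 0 → val x G' = 0) →
        val x G ≠ 0 → x i0 ≠ 0 ∧ ∃ (R : Subalgebra k K) (θ : R →ₐ[k] M), (∀ s ∈ S, s ∈ R) ∧
          ∀ j, ∃ h : y j / y i0 ∈ R, θ ⟨y j / y i0, h⟩ = x j / x i0 := by
  classical
  let ρ : Fin (N + 1) → K := fun j => y j / y i0
  have hgenρ : IntermediateField.adjoin k (Set.range ρ) = ⊤ := by
    rw [eq_top_iff, ← hgen]
    unfold coords
    rw [IntermediateField.adjoin_le_iff]
    rintro _ ⟨i, j, hj, rfl⟩
    have h3 : y i / y j = ρ i / ρ j := by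
      simp only [ρ]
      field_simp
    rw [h3]
    exact div_mem (IntermediateField.subset_adjoin k _ ⟨i, rfl⟩)
      (IntermediateField.subset_adjoin k _ ⟨j, rfl⟩)
  have hrep : ∀ s : K, ∃ p q : MvPolynomial (Fin (N + 1)) k,
      MvPolynomial.aeval ρ q ≠ 0 ∧ s * MvPolynomial.aeval ρ q = MvPolynomial.aeval ρ p := by
    intro s
    have hs : s ∈ IntermediateField.adjoin k (Set.range ρ) := by
      rw [hgenρ]; exact IntermediateField.mem_top
    rw [IntermediateField.mem_adjoin_iff_div] at hs
    obtain ⟨r, hr, r', hr', hs⟩ := hs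
    rw [Algebra.adjoin_range_eq_range_aeval] at hr hr'
    obtain ⟨p, hp⟩ := hr
    obtain ⟨q, hq⟩ := hr'
    by_cases hq0 : r' = 0
    · refine ⟨0, 1, ?_, ?_⟩
      · rw [map_one]; exact one_ne_zero
      · rw [hq0, div_zero] at hs
        rw [hs, zero_mul, map_zero]
    · refine ⟨p, q, ?_, ?_⟩
      · intro h
        apply hq0
        rw [← hq]
        exact h
      · have e1 : MvPolynomial.aeval ρ q = r' := hq
        have e2 : MvPolynomial.aeval ρ p = r := hp
        rw [e1, e2, hs, div_mul_cancel₀ _ hq0]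
  choose P Q hQ0 hPQ using hrep
  obtain ⟨D, B, hB, hBval⟩ := exists_homog i0 (∏ s ∈ S, Q s)
  refine ⟨MvPolynomial.X i0 * B, IsForm.mul' ⟨1, MvPolynomial.isHomogeneous_X k i0⟩ hB, ?_, ?_⟩
  · rw [val_mul', hBval K y h0]
    have h1 : val y (MvPolynomial.X i0 : MvPolynomial (Fin (N + 1)) k) = y i0 := by
      unfold val
      rw [MvPolynomial.aeval_X]
    rw [h1, map_prod]
    exact mul_ne_zero h0 (mul_ne_zero (pow_ne_zero _ h0)
      (Finset.prod_ne_zero_iff.2 fun s _ => hQ0 s))
  · intro M _ _ x hx hG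
    rw [val_mul'] at hG
    have h1 : val x (MvPolynomial.X i0 : MvPolynomial (Fin (N + 1)) k) = x i0 := by
      unfold val
      rw [MvPolynomial.aeval_X]
    rw [h1] at hG
    have hx0 : x i0 ≠ 0 := left_ne_zero_of_mul hG
    have hBx := right_ne_zero_of_mul hG
    rw [hBval M x hx0, map_prod] at hBx
    have hQx : ∀ s ∈ S, MvPolynomial.aeval (fun j => x j / x i0) (Q s) ≠ 0 :=
      Finset.prod_ne_zero_iff.1 (right_ne_zero_of_mul hBx)
    let ρ' : Fin (N + 1) → M := fun j => x j / x i0
    have hker : ∀ p : MvPolynomial (Fin (N + 1)) k, MvPolynomial.aeval ρ p = 0 →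
        MvPolynomial.aeval ρ' p = 0 := fun p => dehom h0 hx0 hx p
    refine ⟨hx0, ?_⟩
    let Good : K → MvPolynomial (Fin (N + 1)) k → MvPolynomial (Fin (N + 1)) k → Prop :=
      fun s p q => MvPolynomial.aeval ρ' q ≠ 0 ∧
        s * MvPolynomial.aeval ρ q = MvPolynomial.aeval ρ p
    have hadd : ∀ {s s' p q p' q'}, Good s p q → Good s' p' q' →
        Good (s + s') (p * q' + p' * q) (q * q') := by
      rintro s s' p q p' q' ⟨h1, h2⟩ ⟨h3, h4⟩
      refine ⟨by rw [map_mul]; exact mul_ne_zero h1 h3, ?_⟩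
      rw [map_mul, map_add, map_mul, map_mul, ← h2, ← h4]
      ring
    have hmul : ∀ {s s' p q p' q'}, Good s p q → Good s' p' q' →
        Good (s * s') (p * p') (q * q') := by
      rintro s s' p q p' q' ⟨h1, h2⟩ ⟨h3, h4⟩
      refine ⟨by rw [map_mul]; exact mul_ne_zero h1 h3, ?_⟩
      rw [map_mul, map_mul, ← h2, ← h4]
      ring
    have halg : ∀ c : k, Good (algebraMap k K c) (MvPolynomial.C c) 1 := by
      intro c
      refine ⟨by rw [map_one]; exact one_ne_zero, ?_⟩
      rw [map_one, mul_one, MvPolynomial.aeval_C]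
    let R : Subalgebra k K :=
      { carrier := {s | ∃ p q, Good s p q}
        mul_mem' := by
          rintro s s' ⟨p, q, h⟩ ⟨p', q', h'⟩
          exact ⟨_, _, hmul h h'⟩
        add_mem' := by
          rintro s s' ⟨p, q, h⟩ ⟨p', q', h'⟩
          exact ⟨_, _, hadd h h'⟩
        algebraMap_mem' := fun c => ⟨_, _, halg c⟩ }
    have hR : ∀ s : R, ∃ p q, Good (s : K) p q := fun s => s.2
    choose p q hpq using hR
    let θ0 : R → M := fun s => MvPolynomial.aeval ρ' (p s) / MvPolynomial.aeval ρ' (q s)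
    have hθ : ∀ (s : R) (p' q' : MvPolynomial (Fin (N + 1)) k), Good (s : K) p' q' →
        θ0 s = MvPolynomial.aeval ρ' p' / MvPolynomial.aeval ρ' q' := by
      intro s p' q' h'
      have h2 : MvPolynomial.aeval ρ' (p s * q' - p' * q s) = 0 := by
        apply hker
        rw [map_sub, map_mul, map_mul, ← (hpq s).2, ← h'.2]
        ring
      rw [map_sub, map_mul, map_mul, sub_eq_zero] at h2
      simp only [θ0]
      rw [div_eq_div_iff (hpq s).1 h'.1]
      exact h2
    let θ : R →ₐ[k] M :=
      { toFun := θ0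
        map_one' := by
          rw [hθ 1 (MvPolynomial.C 1) 1 (by have := halg 1; rwa [map_one] at this)]
          simp
        map_mul' := by
          intro s s'
          rw [hθ (s * s') _ _ (hmul (hpq s) (hpq s')), map_mul, map_mul, mul_div_mul_comm]
        map_zero' := by
          rw [hθ 0 (MvPolynomial.C 0) 1 (by have := halg 0; rwa [map_zero] at this)]
          simp
        map_add' := by
          intro s s'
          have e1 := (hpq s).1
          have e2 := (hpq s').1
          rw [hθ (s + s') _ _ (hadd (hpq s) (hpq s')), map_mul, map_add, map_mul, map_mul]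
          simp only [θ0]
          rw [div_add_div _ _ e1 e2]
          congr 1
          ring
        commutes' := by
          intro c
          rw [hθ (algebraMap k R c) (MvPolynomial.C c) 1 (halg c), map_one, div_one,
            MvPolynomial.aeval_C] }
    refine ⟨R, θ, ?_, ?_⟩
    · intro s hs
      exact ⟨P s, Q s, hQx s hs, hPQ s⟩
    · intro j
      have h3 : Good (y j / y i0) (MvPolynomial.X j) 1 := by
        refine ⟨by rw [map_one]; exact one_ne_zero, ?_⟩
        rw [map_one, mul_one, MvPolynomial.aeval_X]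
      refine ⟨⟨_, _, h3⟩, ?_⟩
      have h4 := hθ ⟨y j / y i0, ⟨_, _, h3⟩⟩ _ _ h3
      rw [map_one, div_one, MvPolynomial.aeval_X] at h4
      exact h4

end Pool.Agent.Y190.BV
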