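import Pool.Agent.Y190.BV.Est

/-!
Transcendence bases among the roots of a polynomial, norms and extensions of derivations.
-/

set_option autoImplicit false

open FF Pool.Agent.W603.LV Pool.Agent.W602.GT Cardinal

namespace Pool.Agent.Y190.BV

section basis

variable {k L : Type} [Field k] [Field L] [Algebra k L] {w : ℕ}

theorem basis_fin (htr : Algebra.trdeg k L = w) {u : Set L}
    (hu : IsTranscendenceBasis k ((↑) : u → L)) :
    ∃ x : Fin w → L, IsTranscendenceBasis k x ∧ Set.range x = u := by
  have h1 : #u = w := by rw [hu.cardinalMk_eq_trdeg, htr]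
  have h2 : #u = #(Fin w) := by rw [h1, Cardinal.mk_fin]
  obtain ⟨e⟩ := Cardinal.eq.1 h2.symm
  refine ⟨fun i => (e i : L), hu.comp_equiv e, ?_⟩
  ext y
  constructor
  · rintro ⟨i, rfl⟩
    exact (e i).2
  · intro hy
    exact ⟨e.symm ⟨y, hy⟩, by simp⟩

theorem exists_basis_through (htr : Algebra.trdeg k L = w) (S : Set L)
    (hS : Algebra.IsAlgebraic (Algebra.adjoin k S) L) {t : L} (htS : t ∈ S)
    (ht : Transcendental k t) :
    ∃ x : Fin w → L, IsTranscendenceBasis k x ∧ (∀ j, x j ∈ S) ∧ ∃ j, x j = t := by
  have h1 : AlgebraicIndepOn k id ({t} : Set L) := by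
    have h2 : AlgebraicIndependent k (fun _ : ({t} : Set L) => t) := by
      rw [algebraicIndependent_unique_type_iff]
      exact ht
    have e : (fun x : ({t} : Set L) => id (x : L)) = fun _ => t := by
      funext x
      exact Set.mem_singleton_iff.1 x.2
    change AlgebraicIndependent k (fun x : ({t} : Set L) => id (x : L))
    rw [e]
    exact h2
  obtain ⟨u, hu1, hu2, hu3⟩ := exists_isTranscendenceBasis_between (R := k) {t} S
    (Set.singleton_subset_iff.2 htS) h1
  obtain ⟨x, hx, hxu⟩ := basis_fin htr hu3
  refine ⟨x, hx, fun j => hu2 (hxu ▸ Set.mem_range_self j), ?_⟩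
  have : t ∈ Set.range x := by rw [hxu]; exact hu1 rfl
  exact this

theorem exists_basis_in (htr : Algebra.trdeg k L = w) (S : Set L)
    (hS : Algebra.IsAlgebraic (Algebra.adjoin k S) L) :
    ∃ x : Fin w → L, IsTranscendenceBasis k x ∧ (∀ j, x j ∈ S) := by
  obtain ⟨u, hu2, hu3⟩ := exists_isTranscendenceBasis_subset (R := k) S
  obtain ⟨x, hx, hxu⟩ := basis_fin htr hu3
  exact ⟨x, hx, fun j => hu2 (hxu ▸ Set.mem_range_self j)⟩

/-- **Families of transcendence bases** -/
theorem exists_families [IsAlgClosed k] (htr : Algebra.trdeg k L = w) {d : ℕ} (r : Fin d → L)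
    (hS : Algebra.IsAlgebraic (Algebra.adjoin k (Set.range r)) L) :
    ∃ (ι : Type) (_ : Fintype ι) (_ : Nonempty ι) (J : ι → Fin w → L),
      w ≤ d ∧ Fintype.card ι ≤ d + 1 - w ∧
      (∀ l, IsTranscendenceBasis k (J l)) ∧ (∀ l j, ∃ i, J l j = r i) ∧
      ∀ i, (∃ y : k, r i = algebraMap k L y) ∨ ∃ l j, J l j = r i := by
  classical
  obtain ⟨x, hx, hxS⟩ := exists_basis_in htr _ hS
  have hxr : ∀ j, ∃ i, r i = x j := fun j => hxS j
  choose g hg using hxr
  have hginj : Function.Injective g := by
    intro i j hij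
    apply hx.1.injective
    rw [← hg i, ← hg j, hij]
  let T : Finset (Fin d) := Finset.univ.filter fun i => i ∉ Set.range g ∧ Transcendental k (r i)
  have hT : ∀ i : T, ∃ x : Fin w → L, IsTranscendenceBasis k x ∧ (∀ j, x j ∈ Set.range r) ∧
      ∃ j, x j = r i := fun i =>
    exists_basis_through htr _ hS ⟨i, rfl⟩ (Finset.mem_filter.1 i.2).2.2
  choose y hy1 hy2 hy3 using hT
  have hcard : T.card + w ≤ d := by
    have h1 : Disjoint T (Finset.univ.image g) := by
      rw [Finset.disjoint_left]
      intro i hi hi2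
      apply (Finset.mem_filter.1 hi).2.1
      obtain ⟨j, _, hj⟩ := Finset.mem_image.1 hi2
      exact ⟨j, hj⟩
    have h2 := Finset.card_le_univ (T ∪ Finset.univ.image g)
    rw [Finset.card_union_of_disjoint h1, Finset.card_image_of_injective _ hginj,
      Finset.card_univ, Fintype.card_fin, Fintype.card_fin] at h2
    exact h2
  refine ⟨Option T, inferInstance, ⟨none⟩, fun o => o.elim x y, by omega, ?_, ?_, ?_, ?_⟩
  · rw [Fintype.card_option, Fintype.card_coe]
    omega
  · rintro (_ | l)
    · exact hx
    · exact hy1 l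
  · rintro (_ | l) j
    · exact ⟨g j, (hg j).symm⟩
    · obtain ⟨i, hi⟩ := hy2 l j
      exact ⟨i, hi.symm⟩
  · intro i
    by_cases h1 : Transcendental k (r i)
    · right
      by_cases h2 : i ∈ Set.range g
      · obtain ⟨j, rfl⟩ := h2
        exact ⟨none, j, (hg j).symm⟩
      · have hiT : i ∈ T := Finset.mem_filter.2 ⟨Finset.mem_univ _, h2, h1⟩
        obtain ⟨j, hj⟩ := hy3 ⟨i, hiT⟩
        exact ⟨some ⟨i, hiT⟩, j, hj⟩
    · left
      rw [Transcendental, not_not] at h1
      exact const_of_algebraic h1

end basis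

variable {k K L : Type} [Field k] [Field K] [Field L] [Algebra k K] [Algebra k L] [Algebra K L]
  [IsScalarTower k K L]

theorem trdeg_ext [Algebra.IsAlgebraic K L] : Algebra.trdeg k L = Algebra.trdeg k K := by
  have h : Algebra.trdeg K L = 0 := (_root_.trdeg_eq_zero_iff (R := K) (A := L)).2 inferInstance
  rw [← _root_.trdeg_add_eq (R := k) (S := K) (A := L), h, add_zero]

/-- extension of a derivation -/
theorem exists_ext [Algebra.IsSeparable K L] (D : Derivation k K K) :
    ∃ E : Derivation k L L, ∀ x : K, E (algebraMap K L x) = algebraMap K L (D x) := by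
  have h1 : Algebra.FormallyEtale K L := Algebra.FormallyEtale.of_isSeparable _ _
  let e := KaehlerDifferential.tensorKaehlerEquivOfFormallyEtale k K L
  let d : Derivation k K L := (Algebra.linearMap K L).compDer D
  let l : Ω[K⁄k] →ₗ[K] L := d.liftKaehlerDifferential
  let Λ : Ω[L⁄k] →ₗ[L] L := (LinearMap.liftBaseChange L l).comp e.symm.toLinearMap
  let E : Derivation k L L := Λ.compDer (KaehlerDifferential.D k L)
  refine ⟨E, fun x => ?_⟩
  change LinearMap.liftBaseChange L l (e.symm (KaehlerDifferential.D k L (algebraMap K L x))) = _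
  rw [KaehlerDifferential.tensorKaehlerEquivOfFormallyEtale_symm_D_algebraMap]
  simp [l, d]

theorem der_ev {D : Derivation k K K} {E : Derivation k L L}
    (hE : ∀ x : K, E (algebraMap K L x) = algebraMap K L (D x)) (n : ℕ) (f : ℕ → K) (t : L) :
    E (ev L n f t) = ev L n (fun j => D (f j)) t +
      (∑ j ∈ Finset.range n, algebraMap K L (f j) * ((j : L) * t ^ (j - 1))) * E t := by
  unfold ev
  rw [map_sum, Finset.sum_mul, ← Finset.sum_add_distrib]
  refine Finset.sum_congr rfl fun j _ => ?_
  rw [E.leibniz, E.leibniz_pow, hE]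
  simp only [smul_eq_mul, nsmul_eq_mul]
  ring

/-- a polynomial with the norms as values -/
theorem exists_poly [FiniteDimensional K L] (t : L) : ∃ p : Polynomial K,
    p.natDegree ≤ Module.finrank K L ∧
    (∀ y : K, p.eval y = Algebra.norm K (algebraMap K L y - t)) ∧ Polynomial.aeval t p = 0 := by
  classical
  let b := Module.finBasis K L
  refine ⟨(Algebra.leftMulMatrix b t).charpoly, ?_, ?_, ?_⟩
  · rw [Matrix.charpoly_natDegree_eq_dim, Fintype.card_fin]
  · intro y
    rw [Matrix.eval_charpoly, Algebra.norm_eq_matrix_det b, map_sub, AlgHom.commutes]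
    rfl
  · apply Algebra.leftMulMatrix_injective b
    rw [← Polynomial.aeval_algHom_apply, Matrix.aeval_self_charpoly, map_zero]

/-- an element is algebraic over the field generated by the norms of its translates -/
theorem alg_norms [FiniteDimensional K L] [Infinite k] (F0 : IntermediateField k K) (t : L)
    (h : ∀ y : k, Algebra.norm K (t - algebraMap k L y) ∈ F0) : IsAlgebraic F0 t := by
  classical
  obtain ⟨p, hpdeg, hpev, hpt⟩ := exists_poly (K := K) t
  set g := Module.finrank K L with hg
  by_cases hconst : ∃ y : k, t = algebraMap k L y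
  · obtain ⟨y, rfl⟩ := hconst
    have : algebraMap k L y = algebraMap F0 L (algebraMap k F0 y) := by
      rw [← IsScalarTower.algebraMap_apply k F0 L]
    rw [this]
    exact isAlgebraic_algebraMap _
  push Not at hconst
  have hmem : ∀ y : k, p.eval (algebraMap k K y) ∈ F0 := by
    intro y
    rw [hpev, ← IsScalarTower.algebraMap_apply]
    have e : algebraMap k L y - t = algebraMap K L (-1) * (t - algebraMap k L y) := by
      rw [map_neg, map_one]; ring
    rw [e, map_mul, Algebra.norm_algebraMap]
    exact F0.mul_mem (pow_mem (F0.neg_mem F0.one_mem) _) (h y)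
  let y : Fin (g + 1) → k := fun i => Infinite.natEmbedding k i
  have hy : Function.Injective y := fun i j hij =>
    Fin.ext ((Infinite.natEmbedding k).injective hij)
  let qq : Polynomial F0 := Lagrange.interpolate Finset.univ (fun i => algebraMap k F0 (y i))
    (fun i => ⟨p.eval (algebraMap k K (y i)), hmem (y i)⟩)
  have hinj : Set.InjOn (fun i => algebraMap k F0 (y i)) (Finset.univ : Finset (Fin (g + 1))) :=
    fun i _ j _ hij => hy ((algebraMap k F0).injective hij)
  have hinj2 : Set.InjOn (fun i => algebraMap k K (y i)) (Finset.univ : Finset (Fin (g + 1))) :=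
    fun i _ j _ hij => hy ((algebraMap k K).injective hij)
  have hmap : qq.map (algebraMap F0 K) = p := by
    refine Polynomial.eq_of_degrees_lt_of_eval_index_eq
      (v := fun i : Fin (g + 1) => algebraMap k K (y i)) Finset.univ hinj2 ?_ ?_ ?_
    · rw [Polynomial.degree_map]
      exact Lagrange.degree_interpolate_lt _ hinj
    · rw [Finset.card_univ, Fintype.card_fin]
      refine (Polynomial.degree_le_natDegree).trans_lt ?_
      exact_mod_cast Nat.lt_succ_of_le hpdeg
    · intro i hi
      have e : algebraMap k K (y i) = algebraMap F0 K (algebraMap k F0 (y i)) := rfl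
      rw [e, Polynomial.eval_map_algebraMap, Polynomial.aeval_algebraMap_apply]
      rw [Polynomial.coe_aeval_eq_eval, Lagrange.eval_interpolate_at_node _ hinj hi]
      rfl
  refine ⟨qq, ?_, ?_⟩
  · intro h0
    rw [h0, Polynomial.map_zero] at hmap
    have h1 := hpev (algebraMap k K (y 0))
    rw [← hmap, Polynomial.eval_zero] at h1
    refine (Algebra.norm_ne_zero_iff (R := K)
      (x := algebraMap K L (algebraMap k K (y 0)) - t)).2 ?_ h1.symm
    rw [← IsScalarTower.algebraMap_apply]
    exact sub_ne_zero.2 (Ne.symm (hconst (y 0)))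
  · rw [← hpt, ← hmap, Polynomial.aeval_map_algebraMap]

/-- the norms of the translates of the generators contain a transcendence basis -/
theorem exists_norm_basis [FiniteDimensional K L] [Infinite k] {w : ℕ}
    (htr : Algebra.trdeg k K = w) {d : ℕ} (r : Fin d → L)
    (hS : Algebra.IsAlgebraic (Algebra.adjoin k (Set.range r)) L) :
    ∃ (i : Fin w → Fin d) (y : Fin w → k), IsTranscendenceBasis k
      (fun j => Algebra.norm K (r (i j) - algebraMap k L (y j))) := by
  let S : Set K := Set.range fun p : Fin d × k => Algebra.norm K (r p.1 - algebraMap k L p.2)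
  let F0 := IntermediateField.adjoin k S
  have h1 : ∀ i, IsAlgebraic F0 (r i) := fun i =>
    alg_norms F0 (r i) fun y => IntermediateField.subset_adjoin k S ⟨(i, y), rfl⟩
  let F1 : IntermediateField F0 L := algebraicClosure F0 L
  have h2 : Algebra.IsAlgebraic F1 L := by
    have hle : Algebra.adjoin k (Set.range r) ≤ (F1.restrictScalars k).toSubalgebra := by
      rw [Algebra.adjoin_le_iff]
      rintro _ ⟨i, rfl⟩
      exact mem_algebraicClosure_iff.2 (h1 i)
    let _ : Algebra (Algebra.adjoin k (Set.range r)) F1 :=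
      (Subalgebra.inclusion hle).toRingHom.toAlgebra
    have : IsScalarTower (Algebra.adjoin k (Set.range r)) F1 L :=
      IsScalarTower.of_algebraMap_eq fun x => rfl
    exact Algebra.IsAlgebraic.extendScalars (R := Algebra.adjoin k (Set.range r))
      (Subalgebra.inclusion_injective hle)
  have h3 : Algebra.IsAlgebraic F0 F1 := algebraicClosure.isAlgebraic F0 L
  have h4 : Algebra.IsAlgebraic F0 L := Algebra.IsAlgebraic.trans F0 F1 L
  have h5 : Algebra.IsAlgebraic F0 K := Algebra.IsAlgebraic.tower_bot F0 K L
  have h6 : Algebra.IsAlgebraic (Algebra.adjoin k S) K :=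
    IntermediateField.isAlgebraic_adjoin_iff_top.1 h5
  obtain ⟨x, hx, hxS⟩ := exists_basis_in htr S h6
  choose p hp using hxS
  refine ⟨fun j => (p j).1, fun j => (p j).2, ?_⟩
  have : x = fun j => Algebra.norm K (r (p j).1 - algebraMap k L (p j).2) := by
    funext j
    exact (hp j).symm
  rw [← this]
  exact hx

end Pool.Agent.Y190.BV
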